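import Mathlib

/-!
# Net content: the increasing sets lemma
-/

set_option autoImplicit false

open Set
open scoped ENNReal

namespace Pool.Agent.L0h37.AN.Net

variable {X ι : Type*} (q : ℕ → X → ι) (w : ℕ → ℝ≥0∞)

/-- the family `C` of cubes covers `A` -/
def Cov (C : Set (ℕ × ι)) (A : Set X) : Prop := ∀ x ∈ A, ∃ k, (k, q k x) ∈ C

/-- `c` is strictly inside `d` -/
def Inn (c d : ℕ × ι) : Prop := d.1 < c.1 ∧ ∃ y, q c.1 y = c.2 ∧ q d.1 y = d.2

/-- total weight of a family of cubes -/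
noncomputable def W (C : Set (ℕ × ι)) : ℝ≥0∞ := ∑' c : ℕ × ι, C.indicator (fun c => w c.1) c

/-- net content -/
noncomputable def M (A : Set X) : ℝ≥0∞ := ⨅ (C : Set (ℕ × ι)) (_ : Cov q C A), W w C

/-- maximal cubes of the union -/
def join (A B : Set (ℕ × ι)) : Set (ℕ × ι) := {c | c ∈ A ∪ B ∧ ∀ d ∈ A ∪ B, ¬ Inn q c d}

/-- the smaller cubes -/
def meet (A B : Set (ℕ × ι)) : Set (ℕ × ι) :=
  {c | c ∈ A ∧ ∃ d ∈ B, c = d ∨ Inn q c d} ∪ {c | c ∈ B ∧ ∃ d ∈ A, c = d ∨ Inn q c d}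

theorem W_join_meet (A B : Set (ℕ × ι)) :
    W w (join q A B) + W w (meet q A B) ≤ W w A + W w B := by
  classical
  unfold W
  rw [← ENNReal.tsum_add, ← ENNReal.tsum_add]
  refine ENNReal.tsum_le_tsum (fun c => ?_)
  by_cases hA : c ∈ A <;> by_cases hB : c ∈ B
  · simp only [indicator_of_mem hA, indicator_of_mem hB]
    exact add_le_add (indicator_le_self _ _ _) (indicator_le_self _ _ _)
  · simp only [indicator_of_mem hA, indicator_of_notMem hB, add_zero]
    by_cases hj : c ∈ join q A B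
    · have hm : c ∉ meet q A B := by
        rintro (⟨-, d, hd, h | h⟩ | ⟨h, -⟩)
        · exact hB (h ▸ hd)
        · exact hj.2 d (Or.inr hd) h
        · exact hB h
      simp [indicator_of_mem hj, indicator_of_notMem hm]
    · simp only [indicator_of_notMem hj, zero_add]
      exact indicator_le_self _ _ _
  · simp only [indicator_of_mem hB, indicator_of_notMem hA, zero_add]
    by_cases hj : c ∈ join q A B
    · have hm : c ∉ meet q A B := by
        rintro (⟨h, -⟩ | ⟨-, d, hd, h | h⟩)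
        · exact hA h
        · exact hA (h ▸ hd)
        · exact hj.2 d (Or.inl hd) h
      simp [indicator_of_mem hj, indicator_of_notMem hm]
    · simp only [indicator_of_notMem hj, zero_add]
      exact indicator_le_self _ _ _
  · have hj : c ∉ join q A B := fun h => h.1.elim hA hB
    have hm : c ∉ meet q A B := by
      rintro (⟨h, -⟩ | ⟨h, -⟩)
      · exact hA h
      · exact hB h
    simp [indicator_of_notMem hj, indicator_of_notMem hm]

variable (hq : ∀ j k : ℕ, j ≤ k → ∀ x y : X, q k x = q k y → q j x = q j y)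

omit hq in
theorem cov_meet (A B : Set (ℕ × ι)) (S : Set X) (hA : Cov q A S) (hB : Cov q B S) :
    Cov q (meet q A B) S := by
  intro x hx
  obtain ⟨j, hj⟩ := hA x hx
  obtain ⟨k, hk⟩ := hB x hx
  rcases le_or_gt k j with h | h
  · refine ⟨j, Or.inl ⟨hj, (k, q k x), hk, ?_⟩⟩
    rcases h.eq_or_lt with h | h
    · left; rw [h]
    · right; exact ⟨h, x, rfl, rfl⟩
  · exact ⟨k, Or.inr ⟨hk, (j, q j x), hj, Or.inr ⟨h, x, rfl, rfl⟩⟩⟩

include hq in
theorem join_mem (A B : Set (ℕ × ι)) (x : X) (j : ℕ) (hj : (j, q j x) ∈ A ∪ B) :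
    ∃ k ≤ j, (k, q k x) ∈ join q A B := by
  classical
  have hex : ∃ k, (k, q k x) ∈ A ∪ B := ⟨j, hj⟩
  refine ⟨Nat.find hex, Nat.find_min' hex hj, Nat.find_spec hex, ?_⟩
  rintro ⟨k, z⟩ hd ⟨h1, y, h2, h3⟩
  simp only at h1 h2 h3
  have h4 : q k y = q k x := hq _ _ h1.le y x h2
  rw [← h3, h4] at hd
  exact Nat.find_min hex h1 hd

include hq in
/-- the increasing sets lemma -/
theorem increasing (A : ℕ → Set X) (hA : Monotone A) (m : ℝ≥0∞) (hm : m ≠ ∞)
    (h : ∀ j, M q w (A j) ≤ m) : M q w (⋃ j, A j) ≤ m := by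
  classical
  refine ENNReal.le_of_forall_pos_le_add (fun ε hε _ => ?_)
  obtain ⟨e, he0, he⟩ := ENNReal.exists_pos_sum_of_countable (ι := ℕ)
    (ε := (ε : ℝ≥0∞)) (by exact_mod_cast hε.ne')
  have hfin : ∀ j, M q w (A j) ≠ ∞ := fun j => ((h j).trans_lt hm.lt_top).ne
  have hch : ∀ j, ∃ C : Set (ℕ × ι), Cov q C (A j) ∧ W w C ≤ M q w (A j) + e j := by
    intro j
    have h1 : M q w (A j) < M q w (A j) + e j :=
      ENNReal.lt_add_right (hfin j) (by exact_mod_cast (he0 j).ne')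
    unfold M at h1
    rw [iInf_lt_iff] at h1
    obtain ⟨C, hC⟩ := h1
    rw [iInf_lt_iff] at hC
    obtain ⟨hC1, hC2⟩ := hC
    exact ⟨C, hC1, hC2.le⟩
  choose C hC1 hC2 using hch
  let D : ℕ → Set (ℕ × ι) := fun j => Nat.rec (C 0) (fun j Dj => join q Dj (C (j + 1))) j
  have hD0 : D 0 = C 0 := rfl
  have hDs : ∀ j, D (j + 1) = join q (D j) (C (j + 1)) := fun j => rfl
  have hDcov : ∀ j, Cov q (D j) (A j) := by
    intro j
    cases j with
    | zero => exact hC1 0
    | succ j =>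
      intro x hx
      obtain ⟨k, hk⟩ := hC1 (j + 1) x hx
      rw [hDs]
      obtain ⟨k', -, hk'⟩ := join_mem q hq (D j) (C (j + 1)) x k (Or.inr hk)
      exact ⟨k', hk'⟩
  have hDw : ∀ j, W w (D j) ≤ M q w (A j) + ∑ i ∈ Finset.range (j + 1), (e i : ℝ≥0∞) := by
    intro j
    induction j with
    | zero => simpa [hD0] using hC2 0
    | succ j ih =>
      have h1 := W_join_meet q w (D j) (C (j + 1))
      have h2 : M q w (A j) ≤ W w (meet q (D j) (C (j + 1))) := by
        unfold M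
        exact iInf₂_le (meet q (D j) (C (j + 1))) (cov_meet q (D j) (C (j + 1)) (A j) (hDcov j)
          (fun x hx => hC1 (j + 1) x (hA (Nat.le_succ j) hx)))
      rw [← hDs] at h1
      have h3 : W w (D (j + 1)) + M q w (A j) ≤
          (M q w (A (j + 1)) + ∑ i ∈ Finset.range (j + 2), (e i : ℝ≥0∞)) + M q w (A j) := by
        calc W w (D (j + 1)) + M q w (A j)
            ≤ W w (D (j + 1)) + W w (meet q (D j) (C (j + 1))) := by gcongr
          _ ≤ W w (D j) + W w (C (j + 1)) := h1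
          _ ≤ (M q w (A j) + ∑ i ∈ Finset.range (j + 1), (e i : ℝ≥0∞)) +
              (M q w (A (j + 1)) + e (j + 1)) := add_le_add ih (hC2 (j + 1))
          _ = _ := by
            rw [Finset.sum_range_succ _ (j + 1)]
            ring
      exact (ENNReal.add_le_add_iff_right (hfin j)).mp h3
  have hDw' : ∀ j, W w (D j) ≤ m + ε := by
    intro j
    refine (hDw j).trans (add_le_add (h j) ?_)
    exact (ENNReal.sum_le_tsum _).trans he.le
  -- the limit family
  let F : Set (ℕ × ι) := {c | ∃ i₀, ∀ i ≥ i₀, c ∈ D i}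
  have hFcov : Cov q F (⋃ j, A j) := by
    intro x hx
    obtain ⟨j, hj⟩ := mem_iUnion.mp hx
    have hcov : ∀ i, j ≤ i → ∃ k, (k, q k x) ∈ D i := fun i hi => hDcov i x (hA hi hj)
    -- levels
    let P : ℕ → Prop := fun k => ∃ i ≥ j, (k, q k x) ∈ D i
    have hP : ∃ k, P k := by
      obtain ⟨k, hk⟩ := hcov j le_rfl
      exact ⟨k, j, le_rfl, hk⟩
    obtain ⟨k₀, ⟨i₀, hi₀, hmem⟩, hmin⟩ : ∃ k₀, P k₀ ∧ ∀ k, P k → k₀ ≤ k := by
      refine ⟨sInf {k | P k}, Nat.sInf_mem hP, fun k hk => Nat.sInf_le hk⟩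
    have hall : ∀ i, i₀ ≤ i → (k₀, q k₀ x) ∈ D i := by
      intro i hi
      induction i, hi using Nat.le_induction with
      | base => exact hmem
      | succ i hi ih =>
        obtain ⟨k, hk1, hk2⟩ := join_mem q hq (D i) (C (i + 1)) x k₀ (Or.inl ih)
        rw [← hDs] at hk2
        have h5 : k₀ ≤ k := hmin k ⟨i + 1, by omega, hk2⟩
        have h6 : k = k₀ := le_antisymm hk1 h5
        rw [h6] at hk2
        exact hk2
    exact ⟨k₀, ⟨i₀, fun i hi => hall i hi⟩⟩
  have hFw : W w F ≤ m + ε := by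
    unfold W
    rw [ENNReal.tsum_eq_iSup_sum]
    refine iSup_le (fun s => ?_)
    have h7 : ∃ i, ∀ c ∈ s, c ∈ F → c ∈ D i := by
      have : ∀ c : ℕ × ι, ∃ i₀, c ∈ F → ∀ i ≥ i₀, c ∈ D i := by
        intro c
        rcases Classical.em (c ∈ F) with hcF | hcF
        · obtain ⟨i₀, hi₀⟩ := hcF
          exact ⟨i₀, fun _ => hi₀⟩
        · exact ⟨0, fun hh => absurd hh hcF⟩
      choose g hg using this
      refine ⟨s.sup g, fun c hc hcF => hg c hcF _ (Finset.le_sup hc)⟩
    obtain ⟨i, hi⟩ := h7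
    calc ∑ c ∈ s, F.indicator (fun c => w c.1) c
        ≤ ∑ c ∈ s, (D i).indicator (fun c => w c.1) c := by
          refine Finset.sum_le_sum (fun c hc => ?_)
          by_cases hcF : c ∈ F
          · rw [indicator_of_mem hcF, indicator_of_mem (hi c hc hcF)]
          · rw [indicator_of_notMem hcF]; exact bot_le
      _ ≤ W w (D i) := ENNReal.sum_le_tsum _
      _ ≤ m + ε := hDw' i
  unfold M
  exact (iInf₂_le F hFcov).trans hFw

theorem M_mono (A B : Set X) (h : A ⊆ B) : M q w A ≤ M q w B := by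
  unfold M
  refine le_iInf₂ (fun C hC => iInf₂_le C (fun x hx => hC x (h hx)))

end Pool.Agent.L0h37.AN.Net
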