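import Pool.Agent.L0h37.AN.Defs
import Pool.Agent.L0h37.AN.Net
import Pool.Agent.R280.HC.C0H

/-!
# BC: a Borel set of dimension `> s` contains a compact set of positive content
-/

set_option autoImplicit false

open MeasureTheory Metric Set Filter Topology
open scoped ENNReal NNReal

namespace Pool.Agent.L0h37.AN.BC

open Pool.Agent.L0h37.AN Pool.Agent.L0h37.AN.Net Pool.Agent.R280.HC

/-- the dyadic cube of level `k` containing `x` -/
noncomputable def dq (n : ℕ) (k : ℕ) (x : V n) : Fin n → ℤ := fun i => ⌊(2 : ℝ) ^ k * x i⌋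

/-- the weights -/
noncomputable def dw (s : ℝ) (k : ℕ) : ℝ≥0∞ := ENNReal.ofReal (((2 : ℝ)⁻¹ ^ k) ^ s)

theorem floor_aux (j k : ℕ) (hjk : j ≤ k) (x y : ℝ) (h : ⌊(2 : ℝ) ^ k * x⌋ = ⌊(2 : ℝ) ^ k * y⌋) :
    ⌊(2 : ℝ) ^ j * x⌋ ≤ ⌊(2 : ℝ) ^ j * y⌋ := by
  obtain ⟨l, rfl⟩ := Nat.exists_eq_add_of_le hjk
  rw [Int.le_floor]
  have h1 : ((⌊(2 : ℝ) ^ j * x⌋ * 2 ^ l : ℤ) : ℝ) ≤ (2 : ℝ) ^ (j + l) * x := by
    push_cast
    have := Int.floor_le ((2 : ℝ) ^ j * x)
    calc (⌊(2 : ℝ) ^ j * x⌋ : ℝ) * 2 ^ l ≤ ((2 : ℝ) ^ j * x) * 2 ^ l := by gcongr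
      _ = _ := by rw [pow_add]; ring
  rw [← Int.le_floor, h, Int.le_floor] at h1
  push_cast at h1
  have h2 : (⌊(2 : ℝ) ^ j * x⌋ : ℝ) * 2 ^ l ≤ ((2 : ℝ) ^ j * y) * 2 ^ l := by
    rw [pow_add] at h1; linarith
  exact le_of_mul_le_mul_right h2 (by positivity)

theorem dq_refine (n : ℕ) (j k : ℕ) (hjk : j ≤ k) (x y : V n) (h : dq n k x = dq n k y) :
    dq n j x = dq n j y := by
  funext i
  have hi := congrFun h i
  simp only [dq] at hi ⊢
  exact le_antisymm (floor_aux j k hjk _ _ hi) (floor_aux j k hjk _ _ hi.symm)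

/-- cubes have small diameter -/
theorem ediam_cube (n : ℕ) (k : ℕ) (z : Fin n → ℤ) :
    ediam {x : V n | dq n k x = z} ≤ ENNReal.ofReal (Real.sqrt n * (2 : ℝ)⁻¹ ^ k) := by
  refine ediam_le (fun x hx y hy => ?_)
  rw [edist_dist]
  refine ENNReal.ofReal_le_ofReal ?_
  rw [EuclideanSpace.dist_eq]
  have h1 : ∀ i : Fin n, dist (x i) (y i) ^ 2 ≤ ((2 : ℝ)⁻¹ ^ k) ^ 2 := by
    intro i
    have h2 : ⌊(2 : ℝ) ^ k * x i⌋ = ⌊(2 : ℝ) ^ k * y i⌋ := by
      have hx' : dq n k x = z := hx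
      have hy' : dq n k y = z := hy
      have := congrFun (hx'.trans hy'.symm) i
      simpa [dq] using this
    have h3 := Int.abs_sub_lt_one_of_floor_eq_floor h2
    have h4 : |x i - y i| ≤ (2 : ℝ)⁻¹ ^ k := by
      rw [← mul_sub, abs_mul, abs_of_pos (by positivity : (0 : ℝ) < 2 ^ k)] at h3
      rw [inv_pow, ← one_div, le_div_iff₀ (by positivity)]
      linarith
    rw [Real.dist_eq]
    exact pow_le_pow_left₀ (abs_nonneg _) h4 2
  calc Real.sqrt (∑ i, dist (x i) (y i) ^ 2) ≤ Real.sqrt (∑ i : Fin n, ((2 : ℝ)⁻¹ ^ k) ^ 2) :=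
        Real.sqrt_le_sqrt (Finset.sum_le_sum (fun i _ => h1 i))
    _ = Real.sqrt n * (2 : ℝ)⁻¹ ^ k := by
        rw [Finset.sum_const, Finset.card_univ, Fintype.card_fin, nsmul_eq_mul,
          Real.sqrt_mul (by positivity), Real.sqrt_sq (by positivity)]

/-- the content is dominated by the net content -/
theorem cont_le (n : ℕ) (s : ℝ) (hs : 0 < s) (A : Set (V n)) :
    cont s A ≤ ENNReal.ofReal (Real.sqrt n ^ s + 1) * M (dq n) (dw s) A := by
  classical
  have key : ∀ C : Set (ℕ × (Fin n → ℤ)), Cov (dq n) C A →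
      cont s A ≤ ENNReal.ofReal (Real.sqrt n ^ s + 1) * W (dw s) C := by
    intro C hC
    have hden : Nonempty (Denumerable (ℕ × (Fin n → ℤ))) := nonempty_denumerable _
    obtain ⟨den⟩ := hden
    let e : (ℕ × (Fin n → ℤ)) ≃ ℕ := Denumerable.eqv _
    let U : ℕ → Set (V n) := fun m => if e.symm m ∈ C then
      {x : V n | dq n (e.symm m).1 x = (e.symm m).2} else ∅
    have hU : A ⊆ ⋃ m, U m := by
      intro x hx
      obtain ⟨k, hk⟩ := hC x hx
      refine mem_iUnion.mpr ⟨e (k, dq n k x), ?_⟩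
      simp only [U, Equiv.symm_apply_apply]
      rw [if_pos hk]
      rfl
    have h1 : cont s A ≤ ∑' m, (ediam (U m)) ^ s := by
      unfold cont
      exact iInf₂_le U hU
    refine h1.trans ?_
    have h2 : ∀ m, (ediam (U m)) ^ s ≤ ENNReal.ofReal (Real.sqrt n ^ s) *
        C.indicator (fun c => dw s c.1) (e.symm m) := by
      intro m
      by_cases hm : e.symm m ∈ C
      · simp only [U]
        rw [if_pos hm, indicator_of_mem hm]
        calc ediam {x : V n | dq n (e.symm m).1 x = (e.symm m).2} ^ s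
            ≤ ENNReal.ofReal (Real.sqrt n * (2 : ℝ)⁻¹ ^ (e.symm m).1) ^ s :=
              ENNReal.rpow_le_rpow (ediam_cube n _ _) hs.le
          _ = _ := by
            rw [ENNReal.ofReal_rpow_of_nonneg (by positivity) hs.le, dw,
              ← ENNReal.ofReal_mul (by positivity), Real.mul_rpow (by positivity) (by positivity)]
      · simp only [U]
        rw [if_neg hm]
        simp [hs]
    refine (ENNReal.tsum_le_tsum h2).trans ?_
    rw [ENNReal.tsum_mul_left]
    unfold W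
    rw [← e.symm.tsum_eq (fun c : ℕ × (Fin n → ℤ) => C.indicator (fun c => dw s c.1) c)]
    gcongr
    exact (le_add_iff_nonneg_right _).mpr zero_le_one
  unfold M
  rw [ENNReal.mul_iInf_of_ne (by positivity) ENNReal.ofReal_ne_top]
  refine le_iInf (fun C => ?_)
  rw [ENNReal.mul_iInf_of_ne (by positivity) ENNReal.ofReal_ne_top]
  exact le_iInf (fun hC => key C hC)

/-- the weight of the neighbours of a cube -/
theorem W_nbrs (n : ℕ) (s : ℝ) (k : ℕ) (z : Fin n → ℤ) :
    W (dw s) {c : ℕ × (Fin n → ℤ) | c.1 = k ∧ ∀ j, c.2 j ∈ Finset.Icc (z j - 1) (z j + 1)} ≤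
      3 ^ n * dw s k := by
  classical
  let P : Finset (Fin n → ℤ) := Fintype.piFinset (fun j => Finset.Icc (z j - 1) (z j + 1))
  let Q : Finset (ℕ × (Fin n → ℤ)) := P.image (fun y => (k, y))
  unfold W
  rw [tsum_eq_sum (s := Q)]
  · have hcard : Q.card ≤ 3 ^ n := by
      refine Finset.card_image_le.trans ?_
      rw [Fintype.card_piFinset]
      have : ∀ j : Fin n, (Finset.Icc (z j - 1) (z j + 1)).card = 3 := by
        intro j
        rw [Int.card_Icc]
        omega
      simp [this]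
    calc ∑ c ∈ Q, _ ≤ ∑ _c ∈ Q, dw s k := by
          refine Finset.sum_le_sum (fun c hc => ?_)
          obtain ⟨y, -, rfl⟩ := Finset.mem_image.mp hc
          exact indicator_le_self _ _ _
      _ = Q.card * dw s k := by rw [Finset.sum_const, nsmul_eq_mul]
      _ ≤ 3 ^ n * dw s k := by
          gcongr
          exact_mod_cast hcard
  · intro c hc
    refine indicator_of_notMem ?_ _
    rintro ⟨h1, h2⟩
    refine hc (Finset.mem_image.mpr ⟨c.2, ?_, ?_⟩)
    · exact Fintype.mem_piFinset.mpr h2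
    · rw [← h1]

theorem W_iUnion {ι : Type*} (w : ℕ → ℝ≥0∞) (F : ℕ → Set (ℕ × ι)) :
    W w (⋃ i, F i) ≤ ∑' i, W w (F i) := by
  classical
  unfold W
  rw [ENNReal.tsum_comm]
  refine ENNReal.tsum_le_tsum (fun c => ?_)
  by_cases hc : c ∈ ⋃ i, F i
  · obtain ⟨i, hi⟩ := mem_iUnion.mp hc
    rw [indicator_of_mem hc]
    calc w c.1 = (F i).indicator (fun c => w c.1) c := by rw [indicator_of_mem hi]
      _ ≤ _ := ENNReal.le_tsum (f := fun i => (F i).indicator (fun c => w c.1) c) i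
  · rw [indicator_of_notMem hc]
    exact bot_le

/-- sets of content zero have open neighbourhoods of small net content -/
theorem open_cover (n : ℕ) (s : ℝ) (hs : 0 < s) (K : Set (V n)) (hK : cont s K = 0)
    (m : ℝ≥0∞) (hm : 0 < m) : ∃ U : Set (V n), IsOpen U ∧ K ⊆ U ∧ M (dq n) (dw s) U ≤ m := by
  classical
  -- the threshold
  obtain ⟨η, hη0, hη1, hη2⟩ : ∃ η : ℝ, 0 < η ∧ η ≤ (1 / 2 : ℝ) ^ s ∧
      3 ^ n * ENNReal.ofReal (4 ^ s) * ENNReal.ofReal η ≤ m := by
    obtain ⟨m', hm'0, hm'⟩ := ENNReal.lt_iff_exists_nnreal_btwn.mp hm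
    have hm'0' : (0 : ℝ) < m' := by exact_mod_cast hm'0
    refine ⟨min ((1 / 2 : ℝ) ^ s) (m' / (3 ^ n * 4 ^ s)), lt_min (by positivity) (by positivity),
      min_le_left _ _, ?_⟩
    have h3 : (3 : ℝ≥0∞) ^ n = ENNReal.ofReal (3 ^ n) := by
      rw [ENNReal.ofReal_pow (by norm_num)]; norm_num
    rw [h3, ← ENNReal.ofReal_mul (by positivity), ← ENNReal.ofReal_mul (by positivity)]
    calc ENNReal.ofReal (3 ^ n * 4 ^ s * min ((1 / 2 : ℝ) ^ s) (m' / (3 ^ n * 4 ^ s)))
        ≤ ENNReal.ofReal m' := by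
          refine ENNReal.ofReal_le_ofReal ?_
          calc 3 ^ n * 4 ^ s * min ((1 / 2 : ℝ) ^ s) (m' / (3 ^ n * 4 ^ s))
              ≤ 3 ^ n * 4 ^ s * (m' / (3 ^ n * 4 ^ s)) := by
                gcongr
                exact min_le_right _ _
            _ = m' := by field_simp
      _ = m' := by simp
      _ ≤ m := hm'.le
  have hη4 : (0 : ℝ≥0∞) < ENNReal.ofReal (η / 2) := by positivity
  -- the cover
  obtain ⟨S, hS1, hS2⟩ : ∃ S : ℕ → Set (V n), K ⊆ ⋃ i, S i ∧
      ∑' i, (ediam (S i)) ^ s < ENNReal.ofReal (η / 2) := by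
    have h1 : cont s K < ENNReal.ofReal (η / 2) := by rw [hK]; exact hη4
    unfold cont at h1
    rw [iInf_lt_iff] at h1
    obtain ⟨S, hS⟩ := h1
    rw [iInf_lt_iff] at hS
    obtain ⟨h2, h3⟩ := hS
    exact ⟨S, h2, h3⟩
  obtain ⟨e, he0, he⟩ := ENNReal.exists_pos_sum_of_countable (ι := ℕ) hη4.ne'
  let t : ℕ → ℝ≥0∞ := fun i => (ediam (S i)) ^ s + e i
  have htsum : ∑' i, t i ≤ ENNReal.ofReal η := by
    simp only [t]
    rw [ENNReal.tsum_add]
    refine (add_le_add hS2.le he.le).trans (le_of_eq ?_)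
    rw [← ENNReal.ofReal_add (by positivity) (by positivity)]
    congr 1; ring
  have htle : ∀ i, t i ≤ ENNReal.ofReal η := fun i => (ENNReal.le_tsum i).trans htsum
  have htop : ∀ i, t i ≠ ∞ := fun i => ((htle i).trans_lt ENNReal.ofReal_lt_top).ne
  have ht0 : ∀ i, 0 < (t i).toReal := by
    intro i
    refine ENNReal.toReal_pos ?_ (htop i)
    have : (0 : ℝ≥0∞) < e i := by exact_mod_cast he0 i
    exact (lt_of_lt_of_le this (le_add_self)).ne'
  have htη : ∀ i, (t i).toReal ≤ η := fun i => ENNReal.toReal_le_of_le_ofReal hη0.le (htle i)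
  have hsne : s ≠ 0 := hs.ne'
  have hroot : ∀ i, (t i).toReal ^ (1 / s) ≤ 1 / 2 := by
    intro i
    calc (t i).toReal ^ (1 / s) ≤ ((1 / 2 : ℝ) ^ s) ^ (1 / s) :=
          Real.rpow_le_rpow ENNReal.toReal_nonneg ((htη i).trans hη1) (by positivity)
      _ = 1 / 2 := by
        rw [← Real.rpow_mul (by norm_num), mul_one_div_cancel hsne, Real.rpow_one]
  have hk : ∀ i, ∃ k : ℕ, (2⁻¹ : ℝ) ^ (k + 1) < 2 * (t i).toReal ^ (1 / s) ∧
      2 * (t i).toReal ^ (1 / s) ≤ (2⁻¹ : ℝ) ^ k := by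
    intro i
    have h1 : 0 < (t i).toReal ^ (1 / s) := Real.rpow_pos_of_pos (ht0 i) _
    exact exists_nat_pow_near_of_lt_one (by positivity) (by have := hroot i; linarith)
      (by norm_num) (by norm_num)
  choose k hk1 hk2 using hk
  have hp : ∀ i, ∃ p : V n, (S i).Nonempty → p ∈ S i := by
    intro i
    rcases (S i).eq_empty_or_nonempty with h | h
    · exact ⟨0, fun h' => absurd h' (by rw [h]; exact not_nonempty_empty)⟩
    · exact ⟨h.some, fun _ => h.some_mem⟩
  choose p hp using hp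
  -- the diameter bound
  have hdiam : ∀ i, ∀ y ∈ S i, dist y (p i) < (2⁻¹ : ℝ) ^ (k i) := by
    intro i y hy
    have hpi := hp i ⟨y, hy⟩
    have h1 : edist y (p i) ≤ ediam (S i) := edist_le_ediam_of_mem hy hpi
    have h2 : edist y (p i) ^ s ≤ t i :=
      (ENNReal.rpow_le_rpow h1 hs.le).trans le_self_add
    have h3 : dist y (p i) ^ s ≤ (t i).toReal := by
      have := ENNReal.toReal_mono (htop i) h2
      rwa [← ENNReal.toReal_rpow, ← dist_edist] at this
    have h4 : dist y (p i) ≤ (t i).toReal ^ (1 / s) := by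
      calc dist y (p i) = (dist y (p i) ^ s) ^ (1 / s) := by
            rw [← Real.rpow_mul dist_nonneg, mul_one_div_cancel hsne, Real.rpow_one]
        _ ≤ _ := Real.rpow_le_rpow (by positivity) h3 (by positivity)
    have h5 : 0 < (t i).toReal ^ (1 / s) := Real.rpow_pos_of_pos (ht0 i) _
    have := hk2 i
    linarith
  -- the weight bound
  have hweight : ∀ i, dw s (k i) ≤ ENNReal.ofReal (4 ^ s) * t i := by
    intro i
    have h1 : ((2 : ℝ)⁻¹ ^ (k i)) ≤ 4 * (t i).toReal ^ (1 / s) := by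
      have := (hk1 i).le
      rw [pow_succ] at this
      linarith
    have h2 : ((2 : ℝ)⁻¹ ^ (k i)) ^ s ≤ 4 ^ s * (t i).toReal := by
      calc ((2 : ℝ)⁻¹ ^ (k i)) ^ s ≤ (4 * (t i).toReal ^ (1 / s)) ^ s :=
            Real.rpow_le_rpow (by positivity) h1 hs.le
        _ = 4 ^ s * (t i).toReal := by
          rw [Real.mul_rpow (by norm_num) (by positivity), ← Real.rpow_mul ENNReal.toReal_nonneg,
            one_div_mul_cancel hsne, Real.rpow_one]
    rw [dw]
    calc ENNReal.ofReal (((2 : ℝ)⁻¹ ^ (k i)) ^ s) ≤ ENNReal.ofReal (4 ^ s * (t i).toReal) :=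
          ENNReal.ofReal_le_ofReal h2
      _ = _ := by
        rw [ENNReal.ofReal_mul (by positivity), ENNReal.ofReal_toReal (htop i)]
  let O : ℕ → Set (V n) := fun i => ⋂ j : Fin n, {y | |y j - p i j| < (2⁻¹ : ℝ) ^ (k i)}
  let F : ℕ → Set (ℕ × (Fin n → ℤ)) := fun i =>
    {c | c.1 = k i ∧ ∀ j, c.2 j ∈ Finset.Icc (dq n (k i) (p i) j - 1) (dq n (k i) (p i) j + 1)}
  refine ⟨⋃ i, O i, ?_, ?_, ?_⟩
  · refine isOpen_iUnion (fun i => isOpen_iInter_of_finite (fun j => ?_))
    exact isOpen_lt (by fun_prop) continuous_const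
  · intro y hy
    obtain ⟨i, hi⟩ := mem_iUnion.mp (hS1 hy)
    refine mem_iUnion.mpr ⟨i, mem_iInter.mpr (fun j => ?_)⟩
    show |y j - p i j| < (2⁻¹ : ℝ) ^ (k i)
    refine lt_of_le_of_lt ?_ (hdiam i y hi)
    have := EuclideanSpace.norm_eq (y - p i)
    rw [dist_eq_norm]
    calc |y j - p i j| = ‖(y - p i) j‖ := by simp [Real.norm_eq_abs]
      _ ≤ ‖y - p i‖ := PiLp.norm_apply_le (y - p i) j
  · unfold M
    refine (iInf₂_le (⋃ i, F i) ?_).trans ?_
    · intro y hy
      obtain ⟨i, hi⟩ := mem_iUnion.mp hy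
      refine ⟨k i, mem_iUnion.mpr ⟨i, rfl, fun j => ?_⟩⟩
      have h1 : |y j - p i j| < (2⁻¹ : ℝ) ^ (k i) := mem_iInter.mp hi j
      simp only [dq, Finset.mem_Icc]
      have h2 : |(2 : ℝ) ^ (k i) * y j - 2 ^ (k i) * p i j| < 1 := by
        rw [← mul_sub, abs_mul, abs_of_pos (by positivity : (0 : ℝ) < 2 ^ (k i))]
        calc (2 : ℝ) ^ (k i) * |y j - p i j| < 2 ^ (k i) * (2⁻¹ : ℝ) ^ (k i) := by gcongr
          _ = 1 := by rw [← mul_pow]; norm_num
      rw [abs_lt] at h2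
      constructor
      · rw [sub_le_iff_le_add, Int.floor_le_iff]
        have := Int.lt_floor_add_one ((2 : ℝ) ^ (k i) * y j)
        push_cast
        linarith
      · rw [Int.floor_le_iff]
        have := Int.lt_floor_add_one ((2 : ℝ) ^ (k i) * p i j)
        push_cast
        linarith
    · calc W (dw s) (⋃ i, F i) ≤ ∑' i, W (dw s) (F i) := W_iUnion _ _
        _ ≤ ∑' i, 3 ^ n * (ENNReal.ofReal (4 ^ s) * t i) := by
            refine ENNReal.tsum_le_tsum (fun i => ?_)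
            refine (W_nbrs n s (k i) (dq n (k i) (p i))).trans ?_
            gcongr
            exact hweight i
        _ = 3 ^ n * ENNReal.ofReal (4 ^ s) * ∑' i, t i := by
            rw [ENNReal.tsum_mul_left, ENNReal.tsum_mul_left, mul_assoc]
        _ ≤ 3 ^ n * ENNReal.ofReal (4 ^ s) * ENNReal.ofReal η := by gcongr
        _ ≤ m := hη2

theorem main : StmtBC := by
  classical
  intro n E hE s hs hdim
  have hcE : 0 < cont s E := C0H.main (V n) s hs E hdim
  have hME : 0 < M (dq n) (dw s) E := by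
    rw [pos_iff_ne_zero]
    intro h
    have h1 := cont_le n s hs E
    rw [h, mul_zero] at h1
    exact absurd h1 (not_le.mpr hcE)
  obtain ⟨m, hm0, hmE⟩ := exists_between hME
  have hmtop : m ≠ ∞ := (hmE.trans_le le_top).ne
  have hne : E.Nonempty := by
    rcases E.eq_empty_or_nonempty with h | h
    · rw [h, dimH_empty] at hdim
      exact absurd hdim (by simp)
    · exact h
  have hana : AnalyticSet E := hE.analyticSet
  rw [AnalyticSet] at hana
  rcases hana with h | ⟨f, hf, hfE⟩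
  · exact absurd h hne.ne_empty
  -- one step
  have hstep : ∀ (S : Set (ℕ → ℕ)) (k : ℕ), m < M (dq n) (dw s) (f '' S) →
      ∃ a : ℕ, m < M (dq n) (dw s) (f '' (S ∩ {σ | σ k ≤ a})) := by
    intro S k hS
    by_contra hcon
    push Not at hcon
    have h1 : M (dq n) (dw s) (⋃ a : ℕ, f '' (S ∩ {σ | σ k ≤ a})) ≤ m := by
      refine increasing (dq n) (dw s) (fun j k hjk x y h => dq_refine n j k hjk x y h) _ ?_ m
        hmtop hcon
      intro a b hab
      exact image_mono (inter_subset_inter_right _ (fun σ (hσ : σ k ≤ a) => le_trans hσ hab))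
    have h2 : f '' S ⊆ ⋃ a : ℕ, f '' (S ∩ {σ | σ k ≤ a}) := by
      rintro _ ⟨σ, hσ, rfl⟩
      exact mem_iUnion.mpr ⟨σ k, σ, ⟨hσ, (le_refl (σ k) : σ k ≤ σ k)⟩, rfl⟩
    exact absurd ((M_mono _ _ _ _ h2).trans h1) (not_le.mpr hS)
  let a : Set (ℕ → ℕ) → ℕ → ℕ := fun S k =>
    if h : m < M (dq n) (dw s) (f '' S) then (hstep S k h).choose else 0
  let S : ℕ → Set (ℕ → ℕ) := fun k => Nat.rec univ (fun k Sk => Sk ∩ {σ | σ k ≤ a Sk k}) k
  have hS0 : S 0 = univ := rfl
  have hSs : ∀ k, S (k + 1) = S k ∩ {σ | σ k ≤ a (S k) k} := fun k => rfl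
  have hSm : ∀ k, m < M (dq n) (dw s) (f '' (S k)) := by
    intro k
    induction k with
    | zero => rw [hS0, image_univ, hfE]; exact hmE
    | succ k ih =>
      rw [hSs]
      have : a (S k) k = (hstep (S k) k ih).choose := by
        simp only [a]
        rw [dif_pos ih]
      rw [this]
      exact (hstep (S k) k ih).choose_spec
  let N : ℕ → ℕ := fun k => a (S k) k
  have hSN : ∀ k, S k = {σ | ∀ i < k, σ i ≤ N i} := by
    intro k
    induction k with
    | zero => rw [hS0]; ext σ; simp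
    | succ k ih =>
      rw [hSs, ih]
      ext σ
      constructor
      · rintro ⟨h1, h2⟩ i hi
        rcases Nat.lt_succ_iff_lt_or_eq.mp hi with h | h
        · exact h1 i h
        · rw [h]; simpa [N, ih] using h2
      · intro h
        refine ⟨fun i hi => h i (by omega), ?_⟩
        have := h k (by omega)
        simpa [N, ih] using this
  let C : Set (ℕ → ℕ) := Set.pi univ (fun i => Iic (N i))
  have hCc : IsCompact C := isCompact_univ_pi (fun i => (Set.finite_Iic (N i)).isCompact)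
  refine ⟨f '' C, ?_, hCc.image hf, ?_⟩
  · rw [← hfE]; exact image_subset_range _ _
  rcases eq_or_lt_of_le (bot_le : (0 : ℝ≥0∞) ≤ cont s (f '' C)) with h | h
  swap
  · exact h
  exfalso
  obtain ⟨U, hUo, hKU, hUm⟩ := open_cover n s hs (f '' C) h.symm m hm0
  have hex : ∃ k, f '' (S k) ⊆ U := by
    by_contra hcon
    push Not at hcon
    have h1 : ∀ k, ∃ σ ∈ S k, f σ ∉ U := by
      intro k
      obtain ⟨y, ⟨σ, hσ, rfl⟩, hy⟩ := not_subset.mp (hcon k)
      exact ⟨σ, hσ, hy⟩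
    choose σ hσS hσU using h1
    let B : ℕ → ℕ := fun i => max (N i) ((Finset.range (i + 1)).sup (fun k => σ k i))
    have hLc : IsCompact (Set.pi univ (fun i => Iic (B i)) : Set (ℕ → ℕ)) :=
      isCompact_univ_pi (fun i => (Set.finite_Iic (B i)).isCompact)
    have hmem : ∀ k, σ k ∈ (Set.pi univ (fun i => Iic (B i)) : Set (ℕ → ℕ)) := by
      intro k i _
      show σ k i ≤ B i
      rcases lt_or_ge i k with hik | hik
      · have h2 := hσS k
        rw [hSN] at h2
        exact (h2 i hik).trans (le_max_left _ _)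
      · exact le_trans (Finset.le_sup (f := fun k => σ k i) (by simpa using Nat.lt_succ_of_le hik))
          (le_max_right _ _)
    obtain ⟨τ, -, φ, hφ, hlim⟩ := hLc.tendsto_subseq hmem
    have hτC : τ ∈ C := by
      intro i _
      have h3 : Tendsto (fun j => σ (φ j) i) atTop (𝓝 (τ i)) := ((continuous_apply i).tendsto τ).comp hlim
      have h4 : ∀ᶠ j in atTop, σ (φ j) i ≤ N i := by
        filter_upwards [eventually_gt_atTop i] with j hj
        have h5 := hσS (φ j)
        rw [hSN] at h5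
        exact h5 i (lt_of_lt_of_le hj (hφ.id_le j))
      exact le_of_tendsto h3 h4
    have h6 : f τ ∈ U := hKU ⟨τ, hτC, rfl⟩
    have h7 : Tendsto (fun j => f (σ (φ j))) atTop (𝓝 (f τ)) := (hf.tendsto τ).comp hlim
    have h8 : ∀ᶠ j in atTop, f (σ (φ j)) ∈ U := h7 (hUo.mem_nhds h6)
    obtain ⟨j, hj⟩ := h8.exists
    exact hσU (φ j) hj
  obtain ⟨k, hk⟩ := hex
  exact absurd ((M_mono _ _ _ _ hk).trans hUm) (not_le.mpr (hSm k))

end Pool.Agent.L0h37.AN.BC
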