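import Pool.Agent.L0h37.AN.Defs

/-!
# BG: all angles in large dimension
-/

set_option autoImplicit false

open MeasureTheory Metric Set Filter Topology
open scoped ENNReal NNReal RealInnerProductSpace

namespace Pool.Agent.L0h37.AN.BG

open Pool.Agent.L0h37.AN

theorem main (hCO : StmtCO) (hRP : StmtRP) (hEX : StmtEX) : StmtBG := by
  intro α hα0 hαπ
  have hu1 : Real.cos α < 1 := by
    have := Real.cos_lt_cos_of_nonneg_of_le_pi le_rfl hαπ.le hα0
    simpa using this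
  have hu0 : -1 < Real.cos α := by
    have := Real.cos_lt_cos_of_nonneg_of_le_pi hα0.le le_rfl hαπ
    simpa using this
  obtain ⟨C₂, hC₂, n₁, hEX⟩ := hEX
  obtain ⟨C₃, δ, hC₃, hδ, hCO⟩ := hCO (Real.cos α) hu0 hu1
  have hC₂0 : 0 < C₂ := by linarith
  have hC₃0 : 0 < C₃ := by linarith
  set q : ℝ := 1 / (2 * C₂ * C₃) with hq
  have hq0 : 0 < q := by positivity
  have hq1 : q ≤ 1 := by
    rw [hq, div_le_one (by positivity)]
    nlinarith [mul_le_mul hC₂ hC₃ zero_le_one hC₂0.le]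
  have hτ0 : 0 < q ^ 4 := by positivity
  have hτ1 : q ^ 4 ≤ 1 := pow_le_one₀ hq0.le hq1
  obtain ⟨n₀, c, hc, hCO⟩ := hCO (q ^ 4) hτ0
  refine ⟨max n₀ (max n₁ 2), max c (7 / 8), max_lt hc (by norm_num), ?_⟩
  intro n hn s hs1 hs2 K ν hK
  have hn0 : n₀ ≤ n := (le_max_left _ _).trans hn
  have hn1 : n₁ ≤ n := ((le_max_left _ _).trans (le_max_right _ _)).trans hn
  have hn2 : 2 ≤ n := ((le_max_right _ _).trans (le_max_right _ _)).trans hn
  have hnR : (2 : ℝ) ≤ n := by exact_mod_cast hn2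
  have hsc : c * n ≤ s := le_trans (by gcongr; exact le_max_left _ _) hs1
  have hs7 : 7 / 8 * (n : ℝ) ≤ s := le_trans (by gcongr; exact le_max_right _ _) hs1
  obtain ⟨x, hxK, hx⟩ := hCO n hn0 s hsc hs2 K ν hK
  have hprob : IsProbabilityMeasure ν := hK.prob
  by_contra hcon
  push Not at hcon
  let S : Set (V n) := {y | δ ≤ ‖y - x‖}
  have hScl : IsClosed S := isClosed_le continuous_const (by fun_prop)
  have hSm : MeasurableSet S := hScl.measurableSet
  let φ : V n → V n := fun y => ‖y - x‖⁻¹ • (y - x)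
  have hφm : Measurable φ := by fun_prop
  have hφS : ∀ y ∈ S, ‖φ y‖ = 1 := by
    intro y hy
    have h0 : 0 < ‖y - x‖ := lt_of_lt_of_le hδ hy
    simp only [φ]
    rw [norm_smul, norm_inv, norm_norm, inv_mul_cancel₀ h0.ne']
  have hinner : ∀ y ∈ S, ∀ z ∈ S, ⟪φ y, φ z⟫ = ⟪y - x, z - x⟫ / (‖y - x‖ * ‖z - x‖) := by
    intro y hy z hz
    simp only [φ]
    rw [real_inner_smul_left, real_inner_smul_right]
    field_simp
  let μ : Measure (V n) := Measure.map φ (ν.restrict S)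
  have hμfin : IsFiniteMeasure μ := Measure.isFiniteMeasure_map _ _
  have hμuniv : μ univ ≤ 1 := by
    simp only [μ]
    rw [Measure.map_apply hφm MeasurableSet.univ, preimage_univ]
    exact (Measure.restrict_apply_le S univ).trans prob_le_one
  have hμsph : μ {y | ‖y‖ ≠ 1} = 0 := by
    have hm : MeasurableSet {y : V n | ‖y‖ ≠ 1} :=
      (isClosed_eq continuous_norm continuous_const).measurableSet.compl
    simp only [μ]
    rw [Measure.map_apply hφm hm, Measure.restrict_apply (hφm hm)]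
    convert measure_empty (μ := ν)
    ext y
    simp only [mem_inter_iff, mem_preimage, mem_ofPred_eq, mem_empty_iff_false, iff_false, not_and]
    intro h1 h2
    exact h1 (hφS y h2)
  have hprod : ∀ B : Set (V n × V n), MeasurableSet B →
      (μ.prod μ) B = (ν.prod ν) (Prod.map φ φ ⁻¹' B ∩ S ×ˢ S) := by
    intro B hB
    have h1 : μ.prod μ = Measure.map (Prod.map φ φ) ((ν.restrict S).prod (ν.restrict S)) :=
      Measure.map_prod_map _ _ hφm hφm
    rw [h1, Measure.map_apply (hφm.prodMap hφm) hB, Measure.prod_restrict,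
      Measure.restrict_apply ((hφm.prodMap hφm) hB)]
  -- compactness
  let F : Set (V n × V n) := (K ×ˢ K) ∩ (S ×ˢ S)
  have hFc : IsCompact F := (hK.cpt.prod hK.cpt).inter_right (hScl.prod hScl)
  have hpos : ∀ p ∈ F, 0 < |⟪φ p.1, φ p.2⟫ - Real.cos α| := by
    rintro ⟨y, z⟩ ⟨⟨hy, hz⟩, ⟨hyS, hzS⟩⟩
    simp only at hy hz hyS hzS ⊢
    rw [abs_pos, sub_ne_zero]
    intro h
    have hy0 : 0 < ‖y - x‖ := lt_of_lt_of_le hδ hyS
    have hz0 : 0 < ‖z - x‖ := lt_of_lt_of_le hδ hzS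
    have hyx : y ≠ x := fun e => by rw [e, sub_self, norm_zero] at hy0; exact lt_irrefl _ hy0
    have hzx : z ≠ x := fun e => by rw [e, sub_self, norm_zero] at hz0; exact lt_irrefl _ hz0
    have hyz : y ≠ z := by
      intro e
      rw [← e, real_inner_self_eq_norm_sq, hφS y hyS] at h
      rw [one_pow] at h
      linarith
    refine hcon y hy x hxK z hz hyx hzx.symm hyz ?_
    rw [EuclideanGeometry.angle, InnerProductGeometry.angle]
    simp only [vsub_eq_sub]
    rw [← hinner y hyS z hzS, h, Real.arccos_cos hα0.le hαπ.le]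
  obtain ⟨ε₀, hε₀, hε⟩ : ∃ ε₀ : ℝ, 0 < ε₀ ∧ ∀ p ∈ F, ε₀ ≤ |⟪φ p.1, φ p.2⟫ - Real.cos α| := by
    rcases F.eq_empty_or_nonempty with h | h
    · exact ⟨1, one_pos, fun p hp => by rw [h] at hp; exact absurd hp (notMem_empty p)⟩
    · have hcont : ContinuousOn (fun p : V n × V n => |⟪φ p.1, φ p.2⟫ - Real.cos α|) F := by
        have hφc : ContinuousOn φ S := by
          have h0 : ContinuousOn (fun y : V n => y - x) S := continuousOn_id.sub continuousOn_const
          exact (h0.norm.inv₀ fun y hy => (lt_of_lt_of_le hδ hy).ne').smul h0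
        have h1 : ContinuousOn (fun p : V n × V n => φ p.1) F :=
          hφc.comp continuousOn_fst fun p hp => hp.2.1
        have h2 : ContinuousOn (fun p : V n × V n => φ p.2) F :=
          hφc.comp continuousOn_snd fun p hp => hp.2.2
        exact ((h1.inner (𝕜 := ℝ) h2).sub continuousOn_const).abs
      obtain ⟨p, hp, hmin⟩ := hFc.exists_isMinOn h hcont
      exact ⟨_, hpos p hp, fun p' hp' => hmin hp'⟩
  have hKK : (ν.prod ν) (K ×ˢ K)ᶜ = 0 := by
    have hsub : ((K ×ˢ K)ᶜ : Set (V n × V n)) ⊆ (Kᶜ ×ˢ univ) ∪ (univ ×ˢ Kᶜ) := by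
      rintro ⟨y, z⟩ h
      simp only [mem_compl_iff, mem_prod, not_and_or] at h
      rcases h with h | h
      · exact Or.inl ⟨h, mem_univ _⟩
      · exact Or.inr ⟨mem_univ _, h⟩
    refine measure_mono_null hsub (measure_union_null ?_ ?_)
    · rw [Measure.prod_prod, hK.supp, zero_mul]
    · rw [Measure.prod_prod, hK.supp, mul_zero]
  have hzero : (μ.prod μ) {p | |⟪p.1, p.2⟫ - Real.cos α| < ε₀} = 0 := by
    have hm : MeasurableSet {p : V n × V n | |⟪p.1, p.2⟫ - Real.cos α| < ε₀} :=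
      (isOpen_lt (by fun_prop) continuous_const).measurableSet
    rw [hprod _ hm]
    refine measure_mono_null ?_ hKK
    rintro p ⟨hp1, hp2⟩ hpK
    have := hε p ⟨hpK, hp2⟩
    simp only [mem_preimage, mem_ofPred_eq, Prod.map_fst, Prod.map_snd] at hp1
    linarith
  have hxn : ‖x‖ ≤ 1 := by
    have := hK.sub hxK
    rwa [mem_closedBall_zero_iff] at this
  have hbound := hEX n hn1 μ hμfin hμuniv hμsph (s - 1) (by linarith) (by linarith)
    (fun z r hr => hRP n (by omega) s K ν (by nlinarith) hs2 hK x hxn δ hδ z r hr)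
    (Real.cos α) ε₀ hε₀ hzero (q ^ 4) hτ0 hτ1
  have hgood : (ν.prod ν) {p | Good n (Real.cos α) δ (q ^ 4) x p.1 p.2} ≤
      (μ.prod μ) {p | |⟪p.1, p.2⟫ - Real.cos α| ≤ q ^ 4} := by
    have hm : MeasurableSet {p : V n × V n | |⟪p.1, p.2⟫ - Real.cos α| ≤ q ^ 4} :=
      (isClosed_le (by fun_prop) continuous_const).measurableSet
    rw [hprod _ hm]
    refine measure_mono ?_
    rintro ⟨y, z⟩ ⟨h1, h2, h3⟩
    refine ⟨?_, h1, h2⟩
    simp only [mem_preimage, mem_ofPred_eq, Prod.map_apply]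
    simp only at h1 h2 h3
    rw [hinner y h1 z h2]
    have hy0 : 0 < ‖y - x‖ := lt_of_lt_of_le hδ h1
    have hz0 : 0 < ‖z - x‖ := lt_of_lt_of_le hδ h2
    have hyz : 0 < ‖y - x‖ * ‖z - x‖ := mul_pos hy0 hz0
    have h4 : ⟪y - x, z - x⟫ / (‖y - x‖ * ‖z - x‖) - Real.cos α =
        (⟪y - x, z - x⟫ - Real.cos α * (‖y - x‖ * ‖z - x‖)) / (‖y - x‖ * ‖z - x‖) := by
      field_simp
    rw [h4, abs_div, abs_of_pos hyz, div_le_iff₀ hyz]
    exact h3
  have hfinal := (hx.trans hgood).trans hbound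
  have hval : C₂ ^ n * (q ^ 4) ^ ((n : ℝ) / 4) = (1 / 2) ^ n * (C₃ ^ n)⁻¹ := by
    have h1 : (q ^ 4) ^ ((n : ℝ) / 4) = q ^ n := by
      rw [← Real.rpow_natCast q 4, ← Real.rpow_mul hq0.le]
      have : ((4 : ℕ) : ℝ) * ((n : ℝ) / 4) = n := by push_cast; ring
      rw [this, Real.rpow_natCast]
    rw [h1, ← mul_pow, ← inv_pow, ← mul_pow]
    congr 1
    rw [hq]
    field_simp
  rw [hval] at hfinal
  have hCpos : 0 < (C₃ ^ n)⁻¹ := by positivity
  have h2 : (1 / 2 : ℝ) ^ n * (C₃ ^ n)⁻¹ < (C₃ ^ n)⁻¹ := by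
    have h3 : (1 / 2 : ℝ) ^ n < 1 := pow_lt_one₀ (by norm_num) (by norm_num) (by omega)
    nlinarith
  have h4 := (ENNReal.ofReal_le_ofReal_iff (by positivity)).mp hfinal
  linarith

end Pool.Agent.L0h37.AN.BG
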