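import Pool.Agent.L0h37.AN.GR

/-!
# NR: the norm is concentrated at `1`
-/

set_option autoImplicit false

open MeasureTheory Metric Set Filter Topology
open scoped ENNReal NNReal RealInnerProductSpace

namespace Pool.Agent.L0h37.AN.NR

open GR

variable {n : ℕ}

/-- radial integrals -/
noncomputable def J (n k : ℕ) : ℝ :=
  (((n : ℝ) / 2) ^ (-((n : ℝ) / 2 + k)) * (1 / 2) * Real.Gamma ((n : ℝ) / 2 + k))

lemma J_int (hn : 1 ≤ n) (k : ℕ) :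
    ∫ y in Ioi (0 : ℝ), y ^ (n - 1) * ((y ^ 2) ^ k * Real.exp (-((n : ℝ) * y ^ 2) / 2)) = J n k := by
  have hn' : (0 : ℝ) < n := by exact_mod_cast hn
  have hq : (-1 : ℝ) < ((n - 1 + 2 * k : ℕ) : ℝ) := by
    have : (0 : ℝ) ≤ ((n - 1 + 2 * k : ℕ) : ℝ) := Nat.cast_nonneg _
    linarith
  have h := integral_rpow_mul_exp_neg_mul_rpow (p := 2) (q := ((n - 1 + 2 * k : ℕ) : ℝ))
    (b := (n : ℝ) / 2) (by norm_num) hq (by positivity)
  have hc : (((n - 1 + 2 * k : ℕ) : ℝ) + 1) / 2 = (n : ℝ) / 2 + k := by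
    push_cast [Nat.cast_sub hn]
    ring
  have hc' : -(((n - 1 + 2 * k : ℕ) : ℝ) + 1) / 2 = -((n : ℝ) / 2 + k) := by
    rw [← hc]; ring
  rw [hc, hc'] at h
  rw [J, ← h]
  apply setIntegral_congr_fun measurableSet_Ioi
  intro y _
  simp only
  rw [Real.rpow_natCast, ← mul_assoc, ← pow_mul, ← pow_add, Real.rpow_two]
  congr 2
  ring

lemma J_one (hn : 1 ≤ n) : J n 1 = J n 0 := by
  have hn' : (0 : ℝ) < (n : ℝ) / 2 := by
    have : (0 : ℝ) < n := by exact_mod_cast hn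
    positivity
  unfold J
  rw [Nat.cast_one, Nat.cast_zero, add_zero, Real.Gamma_add_one hn'.ne', neg_add,
    Real.rpow_add hn', Real.rpow_neg_one]
  field_simp

lemma J_two (hn : 1 ≤ n) : J n 2 = (1 + 2 / n) * J n 0 := by
  have hn1 : (0 : ℝ) < n := by exact_mod_cast hn
  have hn' : (0 : ℝ) < (n : ℝ) / 2 := by positivity
  unfold J
  have e1 : (n : ℝ) / 2 + ((2 : ℕ) : ℝ) = ((n : ℝ) / 2 + 1) + 1 := by push_cast; ring
  rw [e1, Real.Gamma_add_one (by positivity), Real.Gamma_add_one hn'.ne', Nat.cast_zero, add_zero]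
  have e2 : ((n : ℝ) / 2) ^ (-((n : ℝ) / 2 + 1 + 1)) =
      ((n : ℝ) / 2) ^ (-((n : ℝ) / 2)) * (((n : ℝ) / 2)⁻¹ * ((n : ℝ) / 2)⁻¹) := by
    rw [show -((n : ℝ) / 2 + 1 + 1) = -((n : ℝ) / 2) + (-1 + -1) by ring, Real.rpow_add hn',
      Real.rpow_add hn', Real.rpow_neg_one]
  rw [e2]
  field_simp

/-- the moments -/
noncomputable def E (n k : ℕ) : ℝ := ∫ x : V n, (‖x‖ ^ 2) ^ k ∂(gam n)

lemma E_eq (hn : 1 ≤ n) : ∃ c : ℝ, ∀ k : ℕ, E n k = c * J n k := by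
  refine ⟨((n : ℝ) / (2 * Real.pi)) ^ ((n : ℝ) / 2) * (n * (volume : Measure (V n)).real (ball 0 1)),
    fun k => ?_⟩
  have hn0 : n ≠ 0 := by omega
  have : Nontrivial (V n) := by
    have : NeZero n := ⟨hn0⟩
    infer_instance
  unfold E
  rw [integral_gam]
  have e : ∀ x : V n, den n x • (‖x‖ ^ 2) ^ k =
      ((n : ℝ) / (2 * Real.pi)) ^ ((n : ℝ) / 2) *
        (fun y : ℝ => (y ^ 2) ^ k * Real.exp (-((n : ℝ) * y ^ 2) / 2)) ‖x‖ := by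
    intro x
    simp only [den, smul_eq_mul]
    ring
  simp_rw [e]
  rw [integral_const_mul, integral_fun_norm_addHaar (volume : Measure (V n))
    (fun y : ℝ => (y ^ 2) ^ k * Real.exp (-((n : ℝ) * y ^ 2) / 2)), finrank_euclideanSpace_fin]
  simp only [smul_eq_mul, nsmul_eq_mul]
  rw [J_int hn]
  ring

lemma moments (hn : 1 ≤ n) : E n 0 = 1 ∧ E n 1 = 1 ∧ E n 2 = 1 + 2 / n := by
  obtain ⟨c, hc⟩ := E_eq hn
  have := prob hn
  have h0 : E n 0 = 1 := by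
    unfold E
    simp
  have h1 := hc 0
  refine ⟨h0, ?_, ?_⟩
  · rw [hc 1, J_one hn, ← h1, h0]
  · rw [hc 2, J_two hn, mul_left_comm, ← h1, h0, mul_one]

theorem main : StmtNR := by
  intro n hn ζ hζ
  obtain ⟨h0, h1, h2⟩ := moments hn
  have := prob hn
  have hn1 : (0 : ℝ) < n := by exact_mod_cast hn
  have i1 : Integrable (fun x : V n => (‖x‖ ^ 2) ^ 1) (gam n) := by
    by_contra hcon
    have : E n 1 = 0 := integral_undef hcon
    rw [h1] at this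
    norm_num at this
  have i2 : Integrable (fun x : V n => (‖x‖ ^ 2) ^ 2) (gam n) := by
    by_contra hcon
    have : E n 2 = 0 := integral_undef hcon
    rw [h2] at this
    have : (0 : ℝ) < 1 + 2 / n := by positivity
    linarith
  have i2' : Integrable (fun x : V n => (‖x‖ ^ 2) ^ 2 - 2 * (‖x‖ ^ 2) ^ 1) (gam n) :=
    i2.sub (i1.const_mul 2)
  have i3 : Integrable (fun x : V n => (‖x‖ ^ 2) ^ 2 - 2 * (‖x‖ ^ 2) ^ 1 + 1) (gam n) :=
    i2'.add (integrable_const (1 : ℝ))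
  have h3 : ∫ x : V n, ((‖x‖ ^ 2) ^ 2 - 2 * (‖x‖ ^ 2) ^ 1 + 1) ∂(gam n) = (2 : ℝ) / n := by
    rw [integral_add i2' (integrable_const (1 : ℝ)),
      integral_sub i2 (i1.const_mul 2), integral_const_mul]
    change E n 2 - 2 * E n 1 + _ = _
    rw [h1, h2]
    simp
    ring
  have h4 := mul_meas_ge_le_integral_of_nonneg (μ := gam n)
    (f := fun x : V n => (‖x‖ ^ 2) ^ 2 - 2 * (‖x‖ ^ 2) ^ 1 + 1)
    (Filter.Eventually.of_forall fun x => by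
      have : (‖x‖ ^ 2) ^ 2 - 2 * (‖x‖ ^ 2) ^ 1 + 1 = (‖x‖ ^ 2 - 1) ^ 2 := by ring
      simp only [Pi.zero_apply]
      rw [this]
      positivity) i3 (ζ ^ 2)
  rw [h3] at h4
  have h5 : {x : V n | ζ ≤ |‖x‖ ^ 2 - 1|} =
      {x : V n | ζ ^ 2 ≤ (‖x‖ ^ 2) ^ 2 - 2 * (‖x‖ ^ 2) ^ 1 + 1} := by
    ext x
    simp only [mem_ofPred_eq]
    have : (‖x‖ ^ 2) ^ 2 - 2 * (‖x‖ ^ 2) ^ 1 + 1 = |‖x‖ ^ 2 - 1| ^ 2 := by
      rw [sq_abs]
      ring
    rw [this]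
    exact (pow_le_pow_iff_left₀ hζ.le (abs_nonneg _) (by norm_num)).symm
  rw [h5]
  rw [← ENNReal.ofReal_toReal (measure_ne_top (gam n) _)]
  apply ENNReal.ofReal_le_ofReal
  rw [le_div_iff₀ (by positivity)]
  have h6 : (gam n).real {x : V n | ζ ^ 2 ≤ (‖x‖ ^ 2) ^ 2 - 2 * (‖x‖ ^ 2) ^ 1 + 1} * ζ ^ 2 ≤ 2 / n := by
    rw [mul_comm]
    exact h4
  rw [le_div_iff₀ hn1] at h6
  calc _ = (gam n).real {x : V n | ζ ^ 2 ≤ (‖x‖ ^ 2) ^ 2 - 2 * (‖x‖ ^ 2) ^ 1 + 1} * ζ ^ 2 * n := by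
        rw [Measure.real]; ring
    _ ≤ 2 := h6

end Pool.Agent.L0h37.AN.NR
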