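import Pool.Agent.L0h37.AN.GR
import Pool.Agent.L0h37.AN.NR

/-!
# CF: the random configuration
-/

set_option autoImplicit false

open MeasureTheory Metric Set Filter Topology
open scoped ENNReal NNReal RealInnerProductSpace

namespace Pool.Agent.L0h37.AN.CF

variable {n : ℕ}

/-- the law of a unit combination -/
lemma law (hn : 1 ≤ n) (a b c : ℝ) (h : a ^ 2 + b ^ 2 + c ^ 2 = 1) :
    Measure.map (fun g : V n × V n × V n => a • g.1 + b • g.2.1 + c • g.2.2)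
      ((gam n).prod ((gam n).prod (gam n))) = gam n := by
  obtain ⟨hp, hr⟩ := GR.main n hn
  by_cases hs : b ^ 2 + c ^ 2 = 0
  · have hb : b = 0 := by nlinarith [sq_nonneg b, sq_nonneg c]
    have hc : c = 0 := by nlinarith [sq_nonneg b, sq_nonneg c]
    have ha : a ^ 2 = 1 := by rw [hb, hc] at h; linarith
    have h1 : (fun g : V n × V n × V n => a • g.1 + b • g.2.1 + c • g.2.2) =
        (fun p : V n × V n => a • p.1 + (0 : ℝ) • p.2) ∘
          (Prod.map id (Prod.fst : V n × V n → V n)) := by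
      ext g i
      simp [hb, hc]
    rw [h1, ← Measure.map_map (by fun_prop) (by fun_prop), ← Measure.map_prod_map _ _ measurable_id
      measurable_fst, Measure.map_id, Measure.map_fst_prod]
    simp only [measure_univ, one_smul]
    exact hr a 0 (by rw [ha]; ring)
  · have hs' : 0 < b ^ 2 + c ^ 2 := lt_of_le_of_ne (by positivity) (Ne.symm hs)
    set s : ℝ := Real.sqrt (b ^ 2 + c ^ 2) with hsdef
    have hspos : 0 < s := Real.sqrt_pos.2 hs'
    have hs2 : s ^ 2 = b ^ 2 + c ^ 2 := Real.sq_sqrt hs'.le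
    have h1 : (fun g : V n × V n × V n => a • g.1 + b • g.2.1 + c • g.2.2) =
        (fun p : V n × V n => a • p.1 + s • p.2) ∘
          (Prod.map id (fun p : V n × V n => (b / s) • p.1 + (c / s) • p.2)) := by
      ext g i
      simp only [PiLp.add_apply, PiLp.smul_apply, smul_eq_mul, Function.comp_apply, Prod.map_fst,
        id_eq, Prod.map_snd]
      field_simp
      ring
    have h2 : Measure.map (fun p : V n × V n => (b / s) • p.1 + (c / s) • p.2)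
        ((gam n).prod (gam n)) = gam n := by
      apply hr
      rw [div_pow, div_pow, ← add_div, ← hs2]
      field_simp
    rw [h1, ← Measure.map_map (by fun_prop) (by fun_prop), ← Measure.map_prod_map _ _ measurable_id
      (by fun_prop), Measure.map_id, h2]
    exact hr a s (by rw [hs2]; linarith)

/-- the norm of a combination -/
lemma nrm (hn : 1 ≤ n) (a b c q ζ : ℝ) (hq : a ^ 2 + b ^ 2 + c ^ 2 = q) (hq0 : 0 < q) (hq4 : q ≤ 4)
    (hζ : 0 < ζ) :
    ((gam n).prod ((gam n).prod (gam n)))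
      {g : V n × V n × V n | ζ ≤ |‖a • g.1 + b • g.2.1 + c • g.2.2‖ ^ 2 - q|} ≤
      ENNReal.ofReal (32 / (n * ζ ^ 2)) := by
  obtain ⟨hp, hr⟩ := GR.main n hn
  have hn1 : (0 : ℝ) < n := by exact_mod_cast hn
  set s : ℝ := Real.sqrt q with hsdef
  have hspos : 0 < s := Real.sqrt_pos.2 hq0
  have hs2 : s ^ 2 = q := Real.sq_sqrt hq0.le
  have hl := law hn (a / s) (b / s) (c / s) (by
    rw [div_pow, div_pow, div_pow, ← add_div, ← add_div, hs2, hq]
    exact div_self hq0.ne')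
  have hset : {g : V n × V n × V n | ζ ≤ |‖a • g.1 + b • g.2.1 + c • g.2.2‖ ^ 2 - q|} =
      (fun g : V n × V n × V n => (a / s) • g.1 + (b / s) • g.2.1 + (c / s) • g.2.2) ⁻¹'
        {x : V n | ζ / q ≤ |‖x‖ ^ 2 - 1|} := by
    ext g
    simp only [mem_ofPred_eq, mem_preimage]
    have e1 : (a / s) • g.1 + (b / s) • g.2.1 + (c / s) • g.2.2 =
        s⁻¹ • (a • g.1 + b • g.2.1 + c • g.2.2) := by
      rw [smul_add, smul_add, smul_smul, smul_smul, smul_smul, div_eq_inv_mul, div_eq_inv_mul,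
        div_eq_inv_mul]
    have e2 : ‖(a / s) • g.1 + (b / s) • g.2.1 + (c / s) • g.2.2‖ ^ 2 - 1 =
        (‖a • g.1 + b • g.2.1 + c • g.2.2‖ ^ 2 - q) / q := by
      rw [e1, norm_smul, mul_pow, Real.norm_eq_abs, sq_abs, inv_pow, hs2]
      field_simp
    rw [e2, abs_div, abs_of_pos hq0, div_le_div_iff_of_pos_right hq0]
  have hm : Measurable (fun g : V n × V n × V n =>
    (a / s) • g.1 + (b / s) • g.2.1 + (c / s) • g.2.2) := by fun_prop
  have hmset : MeasurableSet {x : V n | ζ / q ≤ |‖x‖ ^ 2 - 1|} :=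
    (isClosed_le continuous_const (by fun_prop)).measurableSet
  rw [hset, ← Measure.map_apply hm hmset, hl]
  refine (NR.main n hn (ζ / q) (by positivity)).trans (ENNReal.ofReal_le_ofReal ?_)
  have : 2 / (↑n * (ζ / q) ^ 2) = 2 * q ^ 2 / (n * ζ ^ 2) := by
    field_simp
  rw [this]
  apply div_le_div_of_nonneg_right _ (by positivity)
  nlinarith

lemma mem_law (hn : 1 ≤ n) (a b c : ℝ) (h : a ^ 2 + b ^ 2 + c ^ 2 = 1) (W : Set (V n))
    (hW : MeasurableSet W) (hW1 : gam n Wᶜ ≤ ENNReal.ofReal (1 / 16)) :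
    ((gam n).prod ((gam n).prod (gam n)))
      {g : V n × V n × V n | a • g.1 + b • g.2.1 + c • g.2.2 ∈ Wᶜ} ≤
      ENNReal.ofReal (1 / 16) := by
  have hm : Measurable (fun g : V n × V n × V n => a • g.1 + b • g.2.1 + c • g.2.2) := by fun_prop
  have := Measure.map_apply (μ := (gam n).prod ((gam n).prod (gam n))) hm hW.compl
  rw [law hn a b c h] at this
  change ((gam n).prod ((gam n).prod (gam n)))
    ((fun g : V n × V n × V n => a • g.1 + b • g.2.1 + c • g.2.2) ⁻¹' Wᶜ) ≤ _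
  rw [← this]
  exact hW1

lemma near_of (b ρ ζ : ℝ) (hζ : 0 < ζ) (X Y Z : V n)
    (h1 : |‖X‖ ^ 2 - 1| < ζ / 2) (h2 : |‖Y‖ ^ 2 - 1| < ζ / 2) (h3 : |‖Z‖ ^ 2 - 1| < ζ / 2)
    (h4 : |‖X + Y‖ ^ 2 - 2 * (1 + b)| < ζ / 2) (h5 : |‖X + Z‖ ^ 2 - 2 * (1 + b)| < ζ / 2)
    (h6 : |‖Y + Z‖ ^ 2 - 2 * (1 + (b ^ 2 + (1 - b ^ 2) * ρ))| < ζ / 2) : Near n b ρ ζ X Y Z := by
  rw [norm_add_sq_real] at h4 h5 h6
  rw [abs_lt] at h1 h2 h3 h4 h5 h6
  refine ⟨?_, ?_, ?_, ?_, ?_, ?_⟩ <;> rw [abs_le] <;> constructor <;> linarith [h1.1, h1.2, h2.1,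
    h2.2, h3.1, h3.2, h4.1, h4.2, h5.1, h5.2, h6.1, h6.2]

theorem main : StmtCF := by
  intro b ρ hb0 hb1 hρ0 hρ1 ζ hζ
  obtain ⟨n₁, hn₁⟩ := exists_nat_gt (3072 / ζ ^ 2)
  refine ⟨n₁ + 1, fun n hn W hW hW1 => ?_⟩
  have hn1 : 1 ≤ n := by omega
  have hnr : (3072 / ζ ^ 2 : ℝ) ≤ n := by
    have : (n₁ : ℝ) ≤ n := by exact_mod_cast (by omega : n₁ ≤ n)
    linarith
  have hnpos : (0 : ℝ) < n := by exact_mod_cast hn1
  obtain ⟨hp, hr⟩ := GR.main n hn1
  have hb2 : 0 < 1 - b ^ 2 := by nlinarith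
  have hρ2 : 0 < 1 - ρ ^ 2 := by nlinarith
  set β : ℝ := Real.sqrt (1 - b ^ 2) with hβ
  set r : ℝ := Real.sqrt (1 - ρ ^ 2) with hrr
  have hβ2 : β ^ 2 = 1 - b ^ 2 := Real.sq_sqrt hb2.le
  have hr2 : r ^ 2 = 1 - ρ ^ 2 := Real.sq_sqrt hρ2.le
  set P : Measure (V n × V n × V n) := (gam n).prod ((gam n).prod (gam n)) with hP
  -- the six norms
  have bound : (32 / (n * (ζ / 2) ^ 2) : ℝ) ≤ 1 / 24 := by
    rw [div_le_div_iff₀ (by positivity) (by norm_num)]
    rw [div_le_iff₀ (by positivity)] at hnr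
    nlinarith
  have key : ∀ a b c q : ℝ, a ^ 2 + b ^ 2 + c ^ 2 = q → 0 < q → q ≤ 4 →
      P {g : V n × V n × V n | ζ / 2 ≤ |‖a • g.1 + b • g.2.1 + c • g.2.2‖ ^ 2 - q|} ≤
      ENNReal.ofReal (1 / 24) := fun a b c q h1 h2 h3 =>
    (nrm hn1 a b c q (ζ / 2) h1 h2 h3 (by positivity)).trans (ENNReal.ofReal_le_ofReal bound)
  have hY : ∀ g : V n × V n × V n, cY b g = b • g.1 + β • g.2.1 + (0 : ℝ) • g.2.2 := by
    intro g
    rw [cY, zero_smul, add_zero]
  have hZ : ∀ g : V n × V n × V n, cZ b ρ g = b • g.1 + (β * ρ) • g.2.1 + (β * r) • g.2.2 := by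
    intro g
    rw [cZ, smul_add, smul_smul, smul_smul, add_assoc]
  have hX : ∀ g : V n × V n × V n, g.1 = (1 : ℝ) • g.1 + (0 : ℝ) • g.2.1 + (0 : ℝ) • g.2.2 := by
    intro g
    rw [zero_smul, zero_smul, add_zero, add_zero, one_smul]
  have k1 := key 1 0 0 1 (by norm_num) (by norm_num) (by norm_num)
  have k2 := key b β 0 1 (by rw [hβ2]; ring) (by norm_num) (by norm_num)
  have k3 := key b (β * ρ) (β * r) 1 (by rw [mul_pow, mul_pow, hβ2, hr2]; ring) (by norm_num)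
    (by norm_num)
  have k4 := key (1 + b) β 0 (2 * (1 + b)) (by rw [hβ2]; ring) (by linarith) (by linarith)
  have k5 := key (1 + b) (β * ρ) (β * r) (2 * (1 + b)) (by rw [mul_pow, mul_pow, hβ2, hr2]; ring)
    (by linarith) (by linarith)
  have k6 := key (b + b) (β + β * ρ) (β * r) (2 * (1 + (b ^ 2 + (1 - b ^ 2) * ρ))) (by
    have : (β + β * ρ) ^ 2 = β ^ 2 * (1 + ρ) ^ 2 := by ring
    rw [this, mul_pow, hβ2, hr2]; ring) (by nlinarith) (by nlinarith)
  have w1 := mem_law hn1 1 0 0 (by norm_num) W hW hW1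
  have w2 := mem_law hn1 b β 0 (by rw [hβ2]; ring) W hW hW1
  have w3 := mem_law hn1 b (β * ρ) (β * r) (by rw [mul_pow, mul_pow, hβ2, hr2]; ring) W hW hW1
  have hsub : {g : V n × V n × V n | g.1 ∈ W ∧ cY b g ∈ W ∧ cZ b ρ g ∈ W ∧
      Near n b ρ ζ g.1 (cY b g) (cZ b ρ g)}ᶜ ⊆
      {g : V n × V n × V n | (1 : ℝ) • g.1 + (0 : ℝ) • g.2.1 + (0 : ℝ) • g.2.2 ∈ Wᶜ} ∪
      ({g : V n × V n × V n | b • g.1 + β • g.2.1 + (0 : ℝ) • g.2.2 ∈ Wᶜ} ∪
      ({g : V n × V n × V n | b • g.1 + (β * ρ) • g.2.1 + (β * r) • g.2.2 ∈ Wᶜ} ∪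
      ({g : V n × V n × V n | ζ / 2 ≤
        |‖(1 : ℝ) • g.1 + (0 : ℝ) • g.2.1 + (0 : ℝ) • g.2.2‖ ^ 2 - 1|} ∪
      ({g : V n × V n × V n | ζ / 2 ≤ |‖b • g.1 + β • g.2.1 + (0 : ℝ) • g.2.2‖ ^ 2 - 1|} ∪
      ({g : V n × V n × V n | ζ / 2 ≤
        |‖b • g.1 + (β * ρ) • g.2.1 + (β * r) • g.2.2‖ ^ 2 - 1|} ∪
      ({g : V n × V n × V n | ζ / 2 ≤
        |‖(1 + b) • g.1 + β • g.2.1 + (0 : ℝ) • g.2.2‖ ^ 2 - 2 * (1 + b)|} ∪
      ({g : V n × V n × V n | ζ / 2 ≤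
        |‖(1 + b) • g.1 + (β * ρ) • g.2.1 + (β * r) • g.2.2‖ ^ 2 - 2 * (1 + b)|} ∪
      {g : V n × V n × V n | ζ / 2 ≤
        |‖(b + b) • g.1 + (β + β * ρ) • g.2.1 + (β * r) • g.2.2‖ ^ 2 -
          2 * (1 + (b ^ 2 + (1 - b ^ 2) * ρ))|}))))))) := by
    intro g hg
    by_contra hcon
    simp only [mem_union, mem_ofPred_eq, not_or, mem_compl_iff, not_not, not_le] at hcon
    obtain ⟨c1, c2, c3, c4, c5, c6, c7, c8, c9⟩ := hcon
    apply hg
    rw [← hX g] at c1 c4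
    rw [← hY g] at c2 c5
    rw [← hZ g] at c3 c6
    have s1 : (1 + b) • g.1 + β • g.2.1 + (0 : ℝ) • g.2.2 = g.1 + cY b g := by
      rw [hY, add_smul, one_smul]
      abel
    have s2 : (1 + b) • g.1 + (β * ρ) • g.2.1 + (β * r) • g.2.2 = g.1 + cZ b ρ g := by
      rw [hZ, add_smul, one_smul]
      abel
    have s3 : (b + b) • g.1 + (β + β * ρ) • g.2.1 + (β * r) • g.2.2 = cY b g + cZ b ρ g := by
      rw [hY, hZ, add_smul, add_smul, zero_smul]
      abel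
    rw [s1] at c7
    rw [s2] at c8
    rw [s3] at c9
    exact ⟨c1, c2, c3, near_of b ρ ζ hζ _ _ _ c4 c5 c6 c7 c8 c9⟩
  have hbad : P {g : V n × V n × V n | g.1 ∈ W ∧ cY b g ∈ W ∧ cZ b ρ g ∈ W ∧
      Near n b ρ ζ g.1 (cY b g) (cZ b ρ g)}ᶜ ≤ ENNReal.ofReal (7 / 16) := by
    refine (measure_mono hsub).trans ?_
    have e : ENNReal.ofReal (7 / 16) = ENNReal.ofReal (1 / 16) + (ENNReal.ofReal (1 / 16) +
        (ENNReal.ofReal (1 / 16) + (ENNReal.ofReal (1 / 24) + (ENNReal.ofReal (1 / 24) +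
        (ENNReal.ofReal (1 / 24) + (ENNReal.ofReal (1 / 24) + (ENNReal.ofReal (1 / 24) +
          ENNReal.ofReal (1 / 24)))))))) := by
      rw [← ENNReal.ofReal_add (by norm_num) (by norm_num),
        ← ENNReal.ofReal_add (by norm_num) (by norm_num),
        ← ENNReal.ofReal_add (by norm_num) (by norm_num),
        ← ENNReal.ofReal_add (by norm_num) (by norm_num),
        ← ENNReal.ofReal_add (by norm_num) (by norm_num),
        ← ENNReal.ofReal_add (by norm_num) (by norm_num),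
        ← ENNReal.ofReal_add (by norm_num) (by norm_num),
        ← ENNReal.ofReal_add (by norm_num) (by norm_num)]
      norm_num
    rw [e]
    refine (measure_union_le _ _).trans (add_le_add w1 ?_)
    refine (measure_union_le _ _).trans (add_le_add w2 ?_)
    refine (measure_union_le _ _).trans (add_le_add w3 ?_)
    refine (measure_union_le _ _).trans (add_le_add k1 ?_)
    refine (measure_union_le _ _).trans (add_le_add k2 ?_)
    refine (measure_union_le _ _).trans (add_le_add k3 ?_)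
    refine (measure_union_le _ _).trans (add_le_add k4 ?_)
    exact (measure_union_le _ _).trans (add_le_add k5 k6)
  have hone : (1 : ℝ≥0∞) ≤ P {g : V n × V n × V n | g.1 ∈ W ∧ cY b g ∈ W ∧ cZ b ρ g ∈ W ∧
      Near n b ρ ζ g.1 (cY b g) (cZ b ρ g)} + ENNReal.ofReal (7 / 16) := by
    calc (1 : ℝ≥0∞) = P univ := by rw [measure_univ]
      _ ≤ _ := by
        rw [← union_compl_self {g : V n × V n × V n | g.1 ∈ W ∧ cY b g ∈ W ∧ cZ b ρ g ∈ W ∧
          Near n b ρ ζ g.1 (cY b g) (cZ b ρ g)}]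
        exact (measure_union_le _ _).trans (add_le_add le_rfl hbad)
  have h12 : (1 / 2 : ℝ≥0∞) = ENNReal.ofReal (1 / 2) := by
    rw [ENNReal.ofReal_div_of_pos (by norm_num), ENNReal.ofReal_one]
    norm_num
  rw [h12]
  have h11 : (1 : ℝ≥0∞) = ENNReal.ofReal (9 / 16) + ENNReal.ofReal (7 / 16) := by
    rw [← ENNReal.ofReal_add (by norm_num) (by norm_num)]
    norm_num
  rw [h11] at hone
  have := (ENNReal.add_le_add_iff_right ENNReal.ofReal_ne_top).1 hone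
  exact (ENNReal.ofReal_le_ofReal (by norm_num)).trans this

end Pool.Agent.L0h37.AN.CF
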