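import Pool.Agent.L0h37.AN.Defs

/-!
# CL: Cauchy-Schwarz over cells of diameter `r` of the projection along `θ`
-/

set_option autoImplicit false

open MeasureTheory Metric Set Filter Topology
open scoped ENNReal NNReal RealInnerProductSpace

namespace Pool.Agent.L0h37.AN.CL

variable {n : ℕ}

/-- an orthonormal basis starting with a given unit vector -/
lemma exists_basis (i₀ : Fin n) (e : V n) (he : ‖e‖ = 1) :
    ∃ b : OrthonormalBasis (Fin n) ℝ (V n), b i₀ = e := by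
  have hv : Orthonormal ℝ (({i₀} : Set (Fin n)).restrict (fun _ : Fin n => e)) := by
    constructor
    · intro i
      exact he
    · intro i j hij
      exact absurd (Subsingleton.elim i j) hij
  obtain ⟨b, hb⟩ := hv.exists_orthonormalBasis_extension_of_card_eq
    (by rw [finrank_euclideanSpace_fin, Fintype.card_fin])
  exact ⟨b, hb i₀ rfl⟩

/-- the Gram determinant in coordinates -/
lemma Gr_eq (i₀ : Fin n) (b : OrthonormalBasis (Fin n) ℝ (V n)) (θ v : V n)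
    (hθ : θ = ‖θ‖ • b i₀) :
    Gr v θ = ‖θ‖ ^ 2 * ∑ i ∈ Finset.univ.erase i₀, ⟪b i, v⟫ ^ 2 := by
  have h1 : ∑ i, ⟪b i, v⟫ ^ 2 = ‖v‖ ^ 2 := by
    have := b.sum_sq_norm_inner_right v
    simpa [Real.norm_eq_abs, sq_abs] using this
  have h2 : ⟪v, θ⟫ = ‖θ‖ * ⟪b i₀, v⟫ := by
    conv_lhs => rw [hθ]
    rw [real_inner_smul_right, real_inner_comm]
  rw [← Finset.add_sum_erase _ _ (Finset.mem_univ i₀)] at h1
  rw [Gr, h2, ← h1]
  ring

theorem main : StmtCL := by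
  intro n hn
  have hn' : (1 : ℝ) ≤ n := by exact_mod_cast hn
  have hn0 : (0 : ℝ) < n := by linarith
  refine ⟨((5 * n : ℝ) ^ (n - 1))⁻¹, by positivity, ?_⟩
  intro ν _ G hG hGB θ hθ hθ1 r hr hr1
  set i₀ : Fin n := ⟨0, by omega⟩ with hi₀
  have hθ' : 0 < ‖θ‖ := norm_pos_iff.mpr hθ
  obtain ⟨b, hb⟩ := exists_basis i₀ (‖θ‖⁻¹ • θ) (by
    rw [norm_smul, norm_inv, norm_norm, inv_mul_cancel₀ hθ'.ne'])
  have hθb : θ = ‖θ‖ • b i₀ := by
    rw [hb, smul_smul, mul_inv_cancel₀ hθ'.ne', one_smul]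
  set s : ℝ := r / n with hs
  have hs0 : 0 < s := by positivity
  have hs1 : s ≤ 1 := by
    rw [hs, div_le_one hn0]; linarith
  set κ : V n → ({i : Fin n // i ≠ i₀} → ℤ) := fun x i => ⌊⟪b i, x⟫ / s⌋ with hκ
  have hκm : Measurable κ := by
    apply measurable_pi_lambda
    intro i
    apply Measurable.floor
    apply Measurable.div_const
    fun_prop
  set M : ℤ := ⌈1 / s⌉ with hM
  have hM1 : 1 / s ≤ M := Int.le_ceil _
  have hM2 : (M : ℝ) < 1 / s + 1 := Int.ceil_lt_add_one _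
  have hM0 : 0 ≤ M := by
    have : (0 : ℝ) ≤ M := le_trans (by positivity) hM1
    exact_mod_cast this
  set F : Finset ({i : Fin n // i ≠ i₀} → ℤ) :=
    Fintype.piFinset (fun _ => Finset.Icc (-M) M) with hF
  have hκF : ∀ x ∈ G, κ x ∈ F := by
    intro x hx
    have hx1 : ‖x‖ ≤ 1 := mem_closedBall_zero_iff.mp (hGB hx)
    rw [hF, Fintype.mem_piFinset]
    intro i
    have hc : |⟪b i, x⟫| ≤ 1 := by
      have := abs_real_inner_le_norm (b i) x
      rw [b.orthonormal.1 i, one_mul] at this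
      exact this.trans hx1
    have hc1 := abs_le.mp hc
    rw [Finset.mem_Icc]
    constructor
    · apply Int.le_floor.mpr
      push_cast
      rw [le_div_iff₀ hs0]
      have : 1 ≤ (M : ℝ) * s := by
        rw [div_le_iff₀ hs0] at hM1
        exact hM1
      linarith
    · have h7 : (⌊⟪b i, x⟫ / s⌋ : ℝ) ≤ ⟪b i, x⟫ / s := Int.floor_le _
      have h8 : ⟪b i, x⟫ / s ≤ 1 / s := by
        apply div_le_div_of_nonneg_right hc1.2 hs0.le
      have : (⌊⟪b i, x⟫ / s⌋ : ℝ) ≤ M := by linarith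
      exact_mod_cast this
  have hcard : (F.card : ℝ) ≤ (5 * n / r) ^ (n - 1) := by
    rw [hF, Fintype.card_piFinset]
    simp only [Int.card_Icc, Finset.prod_const, Finset.card_univ]
    have hci : Fintype.card {i : Fin n // i ≠ i₀} = n - 1 := by
      rw [Fintype.card_subtype_compl, Fintype.card_fin, Fintype.card_subtype_eq]
    rw [hci]
    push_cast
    have h10 : (((M + 1 - -M).toNat : ℕ) : ℝ) = 2 * M + 1 := by
      have : (((M + 1 - -M).toNat : ℤ)) = 2 * M + 1 := by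
        rw [Int.toNat_of_nonneg (by omega)]
        ring
      have h11 : ((((M + 1 - -M).toNat : ℤ)) : ℝ) = ((2 * M + 1 : ℤ) : ℝ) := by rw [this]
      rw [Int.cast_natCast] at h11
      rw [h11]
      push_cast
      ring
    rw [h10]
    apply pow_le_pow_left₀ (by positivity)
    have e2 : 5 * (n : ℝ) / r = 5 / s := by rw [hs]; field_simp
    rw [e2, le_div_iff₀ hs0]
    calc (2 * (M : ℝ) + 1) * s ≤ (2 * (1 / s + 1) + 1) * s := by
          apply mul_le_mul_of_nonneg_right _ hs0.le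
          linarith
      _ = 2 + 3 * s := by field_simp; ring
      _ ≤ 5 := by linarith
  -- the cells
  set Gk : ({i : Fin n // i ≠ i₀} → ℤ) → Set (V n) := fun k => G ∩ κ ⁻¹' {k} with hGk
  have hGkm : ∀ k, MeasurableSet (Gk k) := fun k => hG.inter (hκm (measurableSet_singleton k))
  have hdisj : ∀ k ∈ F, ∀ l ∈ F, k ≠ l → Disjoint (Gk k) (Gk l) := by
    intro k _ l _ hkl
    rw [Set.disjoint_left]
    rintro x ⟨_, hx⟩ ⟨_, hx'⟩
    exact hkl (hx.symm.trans hx')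
  have hGun : G = ⋃ k ∈ F, Gk k := by
    ext x
    rw [mem_iUnion₂]
    constructor
    · intro hx
      exact ⟨κ x, hκF x hx, hx, rfl⟩
    · rintro ⟨k, _, hx, _⟩
      exact hx
  have hνG : ν G = ∑ k ∈ F, ν (Gk k) := by
    conv_lhs => rw [hGun]
    exact measure_biUnion_finset (fun k hk l hl hkl => hdisj k hk l hl hkl) (fun k _ => hGkm k)
  have hsub : (⋃ k ∈ F, (Gk k) ×ˢ (Gk k)) ⊆
      {p : V n × V n | p.1 ∈ G ∧ p.2 ∈ G ∧ Gr (p.1 - p.2) θ ≤ r ^ 2} := by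
    intro p hp
    rw [mem_iUnion₂] at hp
    obtain ⟨k, _, ⟨hp1, hk1⟩, ⟨hp2, hk2⟩⟩ := hp
    refine ⟨hp1, hp2, ?_⟩
    rw [Gr_eq i₀ b θ _ hθb]
    have h1 : ∀ i ∈ Finset.univ.erase i₀, ⟪b i, p.1 - p.2⟫ ^ 2 ≤ s ^ 2 := by
      intro i hi
      have hi' : i ≠ i₀ := Finset.ne_of_mem_erase hi
      have hk1' : κ p.1 = k := hk1
      have hk2' : κ p.2 = k := hk2
      have e1 : ⌊⟪b i, p.1⟫ / s⌋ = ⌊⟪b i, p.2⟫ / s⌋ := by
        have := congrFun (hk1'.trans hk2'.symm) ⟨i, hi'⟩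
        exact this
      have h2 : |⟪b i, p.1⟫ / s - ⟪b i, p.2⟫ / s| < 1 := Int.abs_sub_lt_one_of_floor_eq_floor e1
      rw [← sub_div, ← inner_sub_right, abs_div, abs_of_pos hs0, div_lt_one hs0] at h2
      rw [← sq_abs]
      exact pow_le_pow_left₀ (abs_nonneg _) h2.le 2
    have h2 : ∑ i ∈ Finset.univ.erase i₀, ⟪b i, p.1 - p.2⟫ ^ 2 ≤ n * s ^ 2 := by
      refine (Finset.sum_le_card_nsmul _ _ _ h1).trans ?_
      rw [nsmul_eq_mul]
      apply mul_le_mul_of_nonneg_right _ (sq_nonneg s)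
      have : (Finset.univ.erase i₀).card ≤ n := by
        refine (Finset.card_le_univ _).trans_eq (Fintype.card_fin n)
      exact_mod_cast this
    calc ‖θ‖ ^ 2 * ∑ i ∈ Finset.univ.erase i₀, ⟪b i, p.1 - p.2⟫ ^ 2
        ≤ 1 * (n * s ^ 2) := by
          apply mul_le_mul _ h2 (Finset.sum_nonneg fun i _ => sq_nonneg _) zero_le_one
          exact pow_le_one₀ hθ'.le hθ1
      _ = r ^ 2 / n := by rw [hs]; field_simp
      _ ≤ r ^ 2 := div_le_self (sq_nonneg r) hn'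
  have hprod : (ν.prod ν) (⋃ k ∈ F, (Gk k) ×ˢ (Gk k)) = ∑ k ∈ F, ν (Gk k) * ν (Gk k) := by
    rw [measure_biUnion_finset]
    · apply Finset.sum_congr rfl
      intro k _
      rw [Measure.prod_prod]
    · intro k hk l hl hkl
      apply Set.Disjoint.set_prod_left
      exact hdisj k hk l hl hkl
    · intro k _
      exact (hGkm k).prod (hGkm k)
  refine le_trans ?_ (measure_mono hsub)
  rw [hprod, hνG]
  set a : ({i : Fin n // i ≠ i₀} → ℤ) → ℝ := fun k => (ν (Gk k)).toReal with ha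
  have ha0 : ∀ k, 0 ≤ a k := fun k => ENNReal.toReal_nonneg
  have hak : ∀ k, ν (Gk k) = ENNReal.ofReal (a k) := fun k =>
    (ENNReal.ofReal_toReal (measure_ne_top ν _)).symm
  simp_rw [hak]
  rw [← ENNReal.ofReal_sum_of_nonneg (fun k _ => ha0 k), ← ENNReal.ofReal_pow
    (Finset.sum_nonneg fun k _ => ha0 k), ← ENNReal.ofReal_mul (by positivity)]
  have e3 : ∀ k, ENNReal.ofReal (a k) * ENNReal.ofReal (a k) = ENNReal.ofReal (a k ^ 2) := by
    intro k
    rw [← ENNReal.ofReal_mul (ha0 k), sq]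
  simp_rw [e3]
  rw [← ENNReal.ofReal_sum_of_nonneg (fun k _ => sq_nonneg _)]
  apply ENNReal.ofReal_le_ofReal
  have hcs : (∑ k ∈ F, a k) ^ 2 ≤ F.card * ∑ k ∈ F, a k ^ 2 := sq_sum_le_card_mul_sum_sq
  have hS : 0 ≤ ∑ k ∈ F, a k ^ 2 := Finset.sum_nonneg fun k _ => sq_nonneg _
  have hc2 : ((5 * n : ℝ) ^ (n - 1))⁻¹ * r ^ (n - 1) * F.card ≤ 1 := by
    calc ((5 * n : ℝ) ^ (n - 1))⁻¹ * r ^ (n - 1) * F.card
        ≤ ((5 * n : ℝ) ^ (n - 1))⁻¹ * r ^ (n - 1) * (5 * n / r) ^ (n - 1) := by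
          apply mul_le_mul_of_nonneg_left hcard
          positivity
      _ = 1 := by
          rw [div_pow]
          field_simp
  calc ((5 * n : ℝ) ^ (n - 1))⁻¹ * r ^ (n - 1) * (∑ k ∈ F, a k) ^ 2
      ≤ ((5 * n : ℝ) ^ (n - 1))⁻¹ * r ^ (n - 1) * (F.card * ∑ k ∈ F, a k ^ 2) := by
        apply mul_le_mul_of_nonneg_left hcs
        positivity
    _ = (((5 * n : ℝ) ^ (n - 1))⁻¹ * r ^ (n - 1) * F.card) * ∑ k ∈ F, a k ^ 2 := by ring
    _ ≤ 1 * ∑ k ∈ F, a k ^ 2 := mul_le_mul_of_nonneg_right hc2 hS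
    _ = ∑ k ∈ F, a k ^ 2 := one_mul _

end Pool.Agent.L0h37.AN.CL
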