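import Pool.Agent.L0h37.AN.GP
import Pool.Agent.H212R2.KLS.T1

/-!
# CN: Gaussian concentration (Maurey's argument)
-/

set_option autoImplicit false

open MeasureTheory Metric Set Filter Topology
open scoped ENNReal NNReal RealInnerProductSpace

namespace Pool.Agent.L0h37.AN.CN

open Pool.Agent.L0h37.AN Pool.Agent.L0h37.AN.GP

theorem main : StmtCN := by
  intro n hn T hT hTne t ht
  have hn0 : (0 : ℝ) < n := by exact_mod_cast hn
  have hc := cn_pos n hn
  let E : V n → ℝ≥0∞ := fun x => ENNReal.ofReal (Real.exp (n * infDist x T ^ 2 / 4))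
  have hEm : Measurable E := by
    have : Continuous fun x : V n => Real.exp (n * infDist x T ^ 2 / 4) := by
      have := continuous_infDist_pt T
      fun_prop
    exact this.measurable.ennreal_ofReal
  let W : V n → ℝ≥0∞ := fun x => ENNReal.ofReal (w n x)
  have hWm : Measurable W := w_meas n
  have hgm : Measurable (T.indicator W) := hWm.indicator hT.measurableSet
  have key := Pool.Agent.H212R2.KLS.PL (volume : Measure (V n)) (1 / 2) (by norm_num)
    (by norm_num) (fun x => W x * E x) (T.indicator W) W (hWm.mul hEm) hgm hWm (by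
      intro x y
      by_cases hy : y ∈ T
      · rw [indicator_of_mem hy]
        simp only [W, E]
        have hwx : 0 < w n x := by unfold w; positivity
        have hwy : 0 < w n y := by unfold w; positivity
        rw [← ENNReal.ofReal_mul hwx.le, ENNReal.ofReal_rpow_of_pos (by positivity),
          ENNReal.ofReal_rpow_of_pos hwy, ← ENNReal.ofReal_mul (by positivity)]
        apply ENNReal.ofReal_le_ofReal
        have h1 : (1 : ℝ) - 1 / 2 = 1 / 2 := by norm_num
        rw [h1, ← Real.mul_rpow (by positivity) hwy.le, ← Real.sqrt_eq_rpow]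
        apply Real.sqrt_le_iff.mpr
        refine ⟨by unfold w; positivity, ?_⟩
        have hd : infDist x T ≤ ‖x - y‖ := by
          rw [← dist_eq_norm]; exact infDist_le_dist_of_mem hy
        have hd0 : 0 ≤ infDist x T := infDist_nonneg
        have hd2 : infDist x T ^ 2 ≤ ‖x - y‖ ^ 2 := by gcongr
        have hpar : ‖x + y‖ ^ 2 + ‖x - y‖ ^ 2 = 2 * (‖x‖ ^ 2 + ‖y‖ ^ 2) := by
          have := parallelogram_law_with_norm ℝ x y
          nlinarith
        have hm : ‖(1 / 2 : ℝ) • x + (1 / 2 : ℝ) • y‖ ^ 2 = ‖x + y‖ ^ 2 / 4 := by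
          rw [← smul_add, norm_smul]
          rw [mul_pow]
          norm_num
          ring
        unfold w
        rw [hm]
        have e1 : cn n * Real.exp (-(n * ‖x‖ ^ 2) / 2) * Real.exp (n * infDist x T ^ 2 / 4) *
            (cn n * Real.exp (-(n * ‖y‖ ^ 2) / 2)) =
            cn n ^ 2 * Real.exp (-(n * ‖x‖ ^ 2) / 2 + n * infDist x T ^ 2 / 4 +
              -(n * ‖y‖ ^ 2) / 2) := by
          rw [Real.exp_add, Real.exp_add]; ring
        have e2 : (cn n * Real.exp (-(n * (‖x + y‖ ^ 2 / 4)) / 2)) ^ 2 =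
            cn n ^ 2 * Real.exp (-(n * ‖x + y‖ ^ 2) / 4) := by
          rw [mul_pow, ← Real.exp_nat_mul]
          congr 2
          push_cast
          ring
        rw [e1, e2]
        gcongr
        nlinarith
      · rw [indicator_of_notMem hy, ENNReal.zero_rpow_of_pos (by norm_num), mul_zero]
        exact bot_le)
  rw [show ∫⁻ x : V n, W x = 1 from lint_w n hn] at key
  have h12 : (1 : ℝ) - 1 / 2 = 1 / 2 := by norm_num
  rw [h12, ← ENNReal.mul_rpow_of_nonneg _ _ (by norm_num : (0 : ℝ) ≤ 1 / 2)] at key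
  have key2 : (∫⁻ x : V n, W x * E x) * ∫⁻ x : V n, T.indicator W x ≤ 1 := by
    by_contra hcon
    push Not at hcon
    have := ENNReal.rpow_lt_rpow hcon (by norm_num : (0 : ℝ) < 1 / 2)
    rw [ENNReal.one_rpow] at this
    exact absurd key (not_le.mpr this)
  have hgT : ∫⁻ x : V n, T.indicator W x = gam n T := by
    rw [gam_eq, withDensity_apply _ hT.measurableSet, lintegral_indicator hT.measurableSet]
  have hf : ∫⁻ x : V n, W x * E x = ∫⁻ x, E x ∂(gam n) := by
    rw [gam_eq, lintegral_withDensity_eq_lintegral_mul _ (w_meas n) hEm]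
    rfl
  rw [hgT, hf] at key2
  have hmarkov : ENNReal.ofReal (Real.exp (n * t ^ 2 / 4)) * gam n {x | t ≤ infDist x T} ≤
      ∫⁻ x, E x ∂(gam n) := by
    refine le_trans ?_ (mul_meas_ge_le_lintegral hEm (ENNReal.ofReal (Real.exp (n * t ^ 2 / 4))))
    gcongr with x
    intro hx
    show _ ≤ ENNReal.ofReal (Real.exp (n * infDist x T ^ 2 / 4))
    apply ENNReal.ofReal_le_ofReal
    gcongr
  have hexp : ENNReal.ofReal (Real.exp (-(n * t ^ 2) / 4)) *
      ENNReal.ofReal (Real.exp (n * t ^ 2 / 4)) = 1 := by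
    rw [← ENNReal.ofReal_mul (by positivity), ← Real.exp_add]
    have : -(n * t ^ 2) / 4 + n * t ^ 2 / 4 = (0 : ℝ) := by ring
    rw [this, Real.exp_zero, ENNReal.ofReal_one]
  calc gam n {x | t ≤ infDist x T} * gam n T
      = ENNReal.ofReal (Real.exp (-(n * t ^ 2) / 4)) *
        ((ENNReal.ofReal (Real.exp (n * t ^ 2 / 4)) * gam n {x | t ≤ infDist x T}) * gam n T) := by
        rw [← mul_assoc, ← mul_assoc, hexp, one_mul]
    _ ≤ ENNReal.ofReal (Real.exp (-(n * t ^ 2) / 4)) * ((∫⁻ x, E x ∂(gam n)) * gam n T) := by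
        gcongr
    _ ≤ ENNReal.ofReal (Real.exp (-(n * t ^ 2) / 4)) * 1 := by gcongr
    _ = _ := mul_one _

end Pool.Agent.L0h37.AN.CN
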