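import Pool.Agent.L0h37.AN.Defs

/-!
# CO: the coarse lower bound
-/

set_option autoImplicit false

open MeasureTheory Metric Set Filter Topology
open scoped ENNReal NNReal RealInnerProductSpace

namespace Pool.Agent.L0h37.AN.CO

open Pool.Agent.L0h37.AN

theorem average {n : ℕ} (b ρ : ℝ) (P : Measure (V n × V n × V n)) [IsProbabilityMeasure P]
    (ν : Measure (V n)) [IsProbabilityMeasure ν] (h : ℝ)
    (𝒢 : Set (V n × V n × V n)) (w B : ℝ≥0∞) (Gd : Set (V n × V n × V n))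
    (hGd : MeasurableSet Gd)
    (hw : ∀ g ∈ 𝒢, w ≤ ν (closedBall g.1 (2 * h)) ∧ w ≤ ν (closedBall (cY b g) (2 * h)) ∧
      w ≤ ν (closedBall (cZ b ρ g) (2 * h)))
    (hgd : ∀ g ∈ 𝒢, ∀ x y z : V n, ‖g.1 - x‖ ≤ 2 * h → ‖cY b g - y‖ ≤ 2 * h →
      ‖cZ b ρ g - z‖ ≤ 2 * h → (x, y, z) ∈ Gd)
    (hB : ∀ x y z : V n,
      P {g | ‖g.1 - x‖ ≤ 2 * h ∧ ‖cY b g - y‖ ≤ 2 * h ∧ ‖cZ b ρ g - z‖ ≤ 2 * h} ≤ B) :
    w * (w * w) * P 𝒢 ≤ B * (ν.prod (ν.prod ν)) Gd := by
  classical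
  let S : Set ((V n × V n × V n) × (V n × V n × V n)) :=
    {q | (‖q.1.1 - q.2.1‖ ≤ 2 * h ∧ ‖cY b q.1 - q.2.2.1‖ ≤ 2 * h ∧
      ‖cZ b ρ q.1 - q.2.2.2‖ ≤ 2 * h) ∧ q.2 ∈ Gd}
  have hS : MeasurableSet S := by
    have hcY : Continuous (cY (n := n) b) := by unfold cY; fun_prop
    have hcZ : Continuous (cZ (n := n) b ρ) := by unfold cZ; fun_prop
    have c1 : IsClosed {q : (V n × V n × V n) × (V n × V n × V n) | ‖q.1.1 - q.2.1‖ ≤ 2 * h} :=
      isClosed_le (by fun_prop) continuous_const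
    have c2 : IsClosed {q : (V n × V n × V n) × (V n × V n × V n) |
        ‖cY b q.1 - q.2.2.1‖ ≤ 2 * h} := isClosed_le (by fun_prop) continuous_const
    have c3 : IsClosed {q : (V n × V n × V n) × (V n × V n × V n) |
        ‖cZ b ρ q.1 - q.2.2.2‖ ≤ 2 * h} := isClosed_le (by fun_prop) continuous_const
    exact MeasurableSet.inter (c1.inter (c2.inter c3)).measurableSet (measurable_snd hGd)
  have h1 := Measure.prod_apply (μ := P) (ν := ν.prod (ν.prod ν)) hS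
  have h2 := Measure.prod_apply_symm (μ := P) (ν := ν.prod (ν.prod ν)) hS
  have h3 : w * (w * w) * P 𝒢 ≤ (P.prod (ν.prod (ν.prod ν))) S := by
    rw [h1]
    refine le_trans ?_ (mul_meas_ge_le_lintegral (measurable_measure_prodMk_left hS)
      (w * (w * w)))
    gcongr
    intro g hg
    show w * (w * w) ≤ (ν.prod (ν.prod ν)) (Prod.mk g ⁻¹' S)
    have h4 : closedBall g.1 (2 * h) ×ˢ (closedBall (cY b g) (2 * h) ×ˢ
        closedBall (cZ b ρ g) (2 * h)) ⊆ Prod.mk g ⁻¹' S := by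
      rintro ⟨x, y, z⟩ ⟨hx, hy, hz⟩
      simp only [mem_closedBall, dist_eq_norm] at hx hy hz
      rw [norm_sub_rev] at hx hy hz
      exact ⟨⟨hx, hy, hz⟩, hgd g hg x y z hx hy hz⟩
    refine le_trans ?_ (measure_mono h4)
    rw [Measure.prod_prod, Measure.prod_prod]
    obtain ⟨h5, h6, h7⟩ := hw g hg
    gcongr
  refine h3.trans ?_
  rw [h2]
  calc ∫⁻ p, P ((fun g => (g, p)) ⁻¹' S) ∂(ν.prod (ν.prod ν))
      ≤ ∫⁻ p, Gd.indicator (fun _ => B) p ∂(ν.prod (ν.prod ν)) := by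
        refine lintegral_mono (fun p => ?_)
        by_cases hp : p ∈ Gd
        · rw [indicator_of_mem hp]
          refine le_trans (measure_mono ?_) (hB p.1 p.2.1 p.2.2)
          intro g hg
          exact hg.1
        · rw [indicator_of_notMem hp]
          have : (fun g => (g, p)) ⁻¹' S = ∅ := by
            ext g
            simp only [mem_preimage, mem_empty_iff_false, iff_false]
            exact fun hg => hp hg.2
          simp only [this, measure_empty, le_refl]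
    _ = B * (ν.prod (ν.prod ν)) Gd := by
        rw [lintegral_indicator hGd, lintegral_const, Measure.restrict_apply_univ]

theorem good_closed (n : ℕ) (u₀ δ τ : ℝ) :
    IsClosed {p : V n × V n × V n | Good n u₀ δ τ p.1 p.2.1 p.2.2} := by
  unfold Good
  have c1 : IsClosed {p : V n × V n × V n | δ ≤ ‖p.2.1 - p.1‖} :=
    isClosed_le continuous_const (by fun_prop)
  have c2 : IsClosed {p : V n × V n × V n | δ ≤ ‖p.2.2 - p.1‖} :=
    isClosed_le continuous_const (by fun_prop)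
  have c3 : IsClosed {p : V n × V n × V n | |⟪p.2.1 - p.1, p.2.2 - p.1⟫ -
      u₀ * (‖p.2.1 - p.1‖ * ‖p.2.2 - p.1‖)| ≤ τ * (‖p.2.1 - p.1‖ * ‖p.2.2 - p.1‖)} :=
    isClosed_le (by fun_prop) (by fun_prop)
  exact c1.inter (c2.inter c3)

theorem main (hTT : StmtTT) (hGT : StmtGT) (hCN : StmtCN) (hGR : StmtGR) (hCF : StmtCF)
    (hUB : StmtUB) (hDE : StmtDE) : StmtCO := by
  classical
  intro u₀ hu1 hu2
  -- parameters
  obtain ⟨b, ρ, hb0, hb1, hρ0, hρ1, hu⟩ : ∃ b ρ : ℝ, 0 < b ∧ b < 1 ∧ -1 < ρ ∧ ρ < 1 ∧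
      ((1 - b) + (1 + b) * ρ) / 2 = u₀ := by
    have h1 : |u₀| < 1 := abs_lt.mpr ⟨hu1, hu2⟩
    have h2 := neg_abs_le u₀
    have h3 := abs_nonneg u₀
    have hb : 0 < 1 + (1 + |u₀|) / 2 := by positivity
    refine ⟨(1 + |u₀|) / 2, (2 * u₀ - 1 + (1 + |u₀|) / 2) / (1 + (1 + |u₀|) / 2), by positivity,
      by linarith, ?_, ?_, ?_⟩
    · rw [lt_div_iff₀ hb]; linarith
    · rw [div_lt_iff₀ hb]; linarith
    · rw [mul_div_cancel₀ _ hb.ne']; ring
  obtain ⟨C₄, hC₄, hUB'⟩ := hUB b ρ hb0 hb1 hρ0 hρ1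
  have hC3 : 1 ≤ 16 * (4 * C₄) ^ 3 := by
    have : 1 ≤ (4 * C₄) ^ 3 := one_le_pow₀ (by linarith)
    linarith
  refine ⟨16 * (4 * C₄) ^ 3, Real.sqrt (2 * (1 - b)) / 2, hC3, ?_, ?_⟩
  · have : 0 < 2 * (1 - b) := by linarith
    positivity
  intro τ hτ
  obtain ⟨ζ, h, hζ, hh0, hh1, hDE'⟩ := hDE b ρ hb0 hb1 hρ0 hρ1 τ hτ
  obtain ⟨ε₀, hε₀, hGT'⟩ := hGT (h ^ 2 / 32) (by positivity)
  obtain ⟨n₀, c, hc, hGT''⟩ := hGT' (min ε₀ (h / 4)) (by positivity) (min_le_left _ _)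
  obtain ⟨n₁, hCF'⟩ := hCF b ρ hb0 hb1 hρ0 hρ1 ζ hζ
  refine ⟨max (max n₀ n₁) (⌈96 / h ^ 2⌉₊ + 1), c, hc, ?_⟩
  intro n hn s hs1 hs2 K ν hN
  have hn0 : n₀ ≤ n := le_trans (le_max_left _ _) (le_trans (le_max_left _ _) hn)
  have hn1 : n₁ ≤ n := le_trans (le_max_right _ _) (le_trans (le_max_left _ _) hn)
  have hn2 : ⌈96 / h ^ 2⌉₊ + 1 ≤ n := le_trans (le_max_right _ _) hn
  have hnpos : 1 ≤ n := by omega
  have hn3 : 96 / h ^ 2 ≤ n := by
    have h1 : (⌈96 / h ^ 2⌉₊ : ℝ) ≤ n := by exact_mod_cast (by omega : ⌈96 / h ^ 2⌉₊ ≤ n)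
    exact (Nat.le_ceil _).trans h1
  have hn4 : 3 ≤ (n : ℝ) * (h ^ 2 / 32) := by
    rw [div_le_iff₀ (by positivity)] at hn3
    linarith
  obtain ⟨hgprob, -⟩ := hGR n hnpos
  have := hN.prob
  set w : ℝ≥0∞ := ENNReal.ofReal (1 / 2 * (h / 4) ^ n) with hw
  set ε : ℝ := min ε₀ (h / 4) with hε
  have hε0 : 0 < ε := by positivity
  have hεh : ε ≤ h / 4 := min_le_right _ _
  -- heavy points
  let T₀ : Set (V n) := {y | w ≤ ν (closedBall y h)}
  have hT₀ : MeasurableSet T₀ := by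
    refine measurableSet_le measurable_const ?_
    have hcl : MeasurableSet {p : V n × V n | dist p.2 p.1 ≤ h} :=
      (isClosed_le (by fun_prop) continuous_const).measurableSet
    exact measurable_measure_prodMk_left (ν := ν) hcl
  let T : Set (V n) := K ∩ T₀
  have hTm : MeasurableSet T := hN.cpt.measurableSet.inter hT₀
  have hTν : (1 / 2 : ℝ≥0∞) ≤ ν T := by
    have h1 := hTT n hnpos s K ν hN h hh0 hh1
    have h2 : ν T = ν T₀ := by
      show ν (K ∩ T₀) = ν T₀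
      rw [inter_comm]
      exact measure_inter_conull' (measure_mono_null (fun y hy => hy.2) hN.supp)
    rw [h2]
    exact h1
  have hTne : T.Nonempty := by
    rcases T.eq_empty_or_nonempty with h' | h'
    · rw [h', measure_empty] at hTν
      simp at hTν
    · exact h'
  have hgT := hGT'' n hn0 s hs1 hs2 K ν hN T inter_subset_left hTm hTν
  set A : Set (V n) := cthickening ε T with hA
  have hAne : A.Nonempty := hTne.mono (self_subset_cthickening T)
  let W : Set (V n) := {x | infDist x A < h / 2}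
  have hWm : MeasurableSet W := (isOpen_lt (continuous_infDist_pt A) continuous_const).measurableSet
  have hWc : gam n Wᶜ ≤ ENNReal.ofReal (1 / 16) := by
    have h1 : Wᶜ = {x | h / 2 ≤ infDist x A} := by
      ext x; simp [W]
    have h2 := hCN n hnpos A isClosed_cthickening hAne (h / 2) (by positivity)
    rw [← h1] at h2
    have hexp : (0 : ℝ) < Real.exp (-(h ^ 2 / 32) * n) := Real.exp_pos _
    have h3 : gam n Wᶜ * ENNReal.ofReal (Real.exp (-(h ^ 2 / 32) * n)) ≤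
        ENNReal.ofReal (1 / 16) * ENNReal.ofReal (Real.exp (-(h ^ 2 / 32) * n)) := by
      calc gam n Wᶜ * ENNReal.ofReal (Real.exp (-(h ^ 2 / 32) * n)) ≤ gam n Wᶜ * gam n A := by
            gcongr
        _ ≤ ENNReal.ofReal (Real.exp (-(n * (h / 2) ^ 2) / 4)) := h2
        _ ≤ ENNReal.ofReal (1 / 16 * Real.exp (-(h ^ 2 / 32) * n)) := by
            refine ENNReal.ofReal_le_ofReal ?_
            have h4 : -(n * (h / 2) ^ 2) / 4 = -(n * (h ^ 2 / 32)) + -(h ^ 2 / 32) * n := by ring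
            rw [h4, Real.exp_add]
            gcongr
            have h5 : Real.exp (-(n * (h ^ 2 / 32))) ≤ Real.exp (-3) := by
              refine Real.exp_le_exp.mpr ?_
              linarith
            refine h5.trans ?_
            rw [Real.exp_neg, ← one_div]
            apply one_div_le_one_div_of_le (by norm_num)
            have h6 : (2.7 : ℝ) < Real.exp 1 := lt_trans (by norm_num) Real.exp_one_gt_d9
            have h7 : Real.exp 3 = Real.exp 1 ^ 3 := by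
              rw [← Real.exp_nat_mul]; norm_num
            rw [h7]
            calc (16 : ℝ) ≤ 2.7 ^ 3 := by norm_num
              _ ≤ Real.exp 1 ^ 3 := by gcongr
        _ = _ := by rw [ENNReal.ofReal_mul (by norm_num)]
    refine (ENNReal.mul_le_mul_iff_left ?_ ENNReal.ofReal_ne_top).mp h3
    simpa using hexp
  -- points of `W` have heavy neighbourhoods
  have hheavy : ∀ x ∈ W, w ≤ ν (closedBall x (2 * h)) := by
    intro x hx
    have hx' : infDist x A < h / 2 := hx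
    obtain ⟨a, ha, hxa⟩ := (infDist_lt_iff hAne).mp hx'
    have h1 : infDist a T ≤ ε := by
      rw [hA, mem_cthickening_iff] at ha
      exact ENNReal.toReal_le_of_le_ofReal hε0.le ha
    have h2 : infDist a T < h / 2 := by linarith
    obtain ⟨t, ht, hat⟩ := (infDist_lt_iff hTne).mp h2
    have h3 : w ≤ ν (closedBall t h) := ht.2
    refine h3.trans (measure_mono ?_)
    refine closedBall_subset_closedBall' ?_
    have h4 := dist_triangle x a t
    rw [dist_comm t x]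
    linarith
  -- the configuration
  have hCF'' := hCF' n hn1 W hWm hWc
  set 𝒢 : Set (V n × V n × V n) :=
    {g | g.1 ∈ W ∧ cY b g ∈ W ∧ cZ b ρ g ∈ W ∧ Near n b ρ ζ g.1 (cY b g) (cZ b ρ g)} with h𝒢
  set δ : ℝ := Real.sqrt (2 * (1 - b)) / 2 with hδ
  let Gd : Set (V n × V n × V n) := {p | Good n u₀ δ τ p.1 p.2.1 p.2.2}
  have hGdm : MeasurableSet Gd := (good_closed n u₀ δ τ).measurableSet
  have hav := average b ρ ((gam n).prod ((gam n).prod (gam n))) ν h 𝒢 w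
    (ENNReal.ofReal ((C₄ * h) ^ (3 * n))) Gd hGdm
    (fun g hg => ⟨hheavy _ hg.1, hheavy _ hg.2.1, hheavy _ hg.2.2.1⟩)
    (fun g hg x y z hx hy hz => by
      have := hDE' n g.1 (cY b g) (cZ b ρ g) x y z hg.2.2.2 hx hy hz
      rw [hu] at this
      exact this)
    (fun x y z => hUB' n hnpos h hh0 x y z)
  -- the real inequality
  have hreal : ENNReal.ofReal (((16 * (4 * C₄) ^ 3) ^ n)⁻¹) *
      ENNReal.ofReal ((C₄ * h) ^ (3 * n)) ≤ w * (w * w) * (1 / 2 : ℝ≥0∞) := by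
    have h2 : (1 / 2 : ℝ≥0∞) = ENNReal.ofReal (1 / 2) := by
      rw [ENNReal.ofReal_div_of_pos (by norm_num)]; simp
    have hpos : (0 : ℝ) ≤ 1 / 2 * (h / 4) ^ n := by positivity
    have hC4pos : 0 < C₄ := by linarith
    rw [hw, h2, ← ENNReal.ofReal_mul hpos, ← ENNReal.ofReal_mul hpos,
      ← ENNReal.ofReal_mul (by positivity), ← ENNReal.ofReal_mul (by positivity)]
    refine ENNReal.ofReal_le_ofReal ?_
    have h3 : (16 : ℝ) ≤ 16 ^ n := by
      calc (16 : ℝ) = 16 ^ 1 := by norm_num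
        _ ≤ 16 ^ n := pow_le_pow_right₀ (by norm_num) hnpos
    have h4 : ((16 * (4 * C₄) ^ 3) ^ n)⁻¹ * (C₄ * h) ^ (3 * n) = (16 ^ n)⁻¹ * (h / 4) ^ (3 * n) := by
      rw [mul_pow, ← pow_mul, mul_pow, mul_pow, div_pow]
      field_simp
    rw [h4]
    have h5 : 1 / 2 * (h / 4) ^ n * (1 / 2 * (h / 4) ^ n * (1 / 2 * (h / 4) ^ n)) * (1 / 2) =
        (16 : ℝ)⁻¹ * (h / 4) ^ (3 * n) := by
      have : (h / 4) ^ (3 * n) = ((h / 4) ^ n) ^ 3 := by rw [← pow_mul, mul_comm]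
      rw [this]; ring
    rw [h5]
    gcongr
  have hfin : ENNReal.ofReal (((16 * (4 * C₄) ^ 3) ^ n)⁻¹) ≤ (ν.prod (ν.prod ν)) Gd := by
    have h1 : ENNReal.ofReal (((16 * (4 * C₄) ^ 3) ^ n)⁻¹) *
        ENNReal.ofReal ((C₄ * h) ^ (3 * n)) ≤
        (ν.prod (ν.prod ν)) Gd * ENNReal.ofReal ((C₄ * h) ^ (3 * n)) := by
      refine hreal.trans ?_
      refine le_trans ?_ (hav.trans (le_of_eq (mul_comm _ _)))
      gcongr
    refine (ENNReal.mul_le_mul_iff_left ?_ ENNReal.ofReal_ne_top).mp h1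
    have : 0 < (C₄ * h) ^ (3 * n) := by
      have : 0 < C₄ := by linarith
      positivity
    simpa using this
  -- choose the vertex
  rw [Measure.prod_apply hGdm] at hfin
  have hle1 : ∀ x : V n, (ν.prod ν) (Prod.mk x ⁻¹' Gd) ≤ 1 := fun x => prob_le_one
  obtain ⟨x, hx, hx2⟩ := exists_notMem_null_lintegral_le (μ := ν)
    (f := fun x => (ν.prod ν) (Prod.mk x ⁻¹' Gd)) (N := Kᶜ) (by
      refine ne_of_lt (lt_of_le_of_lt (lintegral_mono hle1) ?_)
      simp) hN.supp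
  refine ⟨x, by simpa using hx, hfin.trans (hx2.trans ?_)⟩
  exact le_rfl

end Pool.Agent.L0h37.AN.CO
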