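import Pool.Agent.L0h37.AN.Defs

/-!
# DE: deterministic closeness
-/

set_option autoImplicit false

open MeasureTheory Metric Set Filter Topology
open scoped ENNReal NNReal RealInnerProductSpace

namespace Pool.Agent.L0h37.AN.DE

open Pool.Agent.L0h37.AN

theorem main : StmtDE := by
  intro b ρ hb0 hb1 hρ0 hρ1 τ hτ
  set a : ℝ := 1 - b with ha
  have ha0 : 0 < a := by linarith
  have ha1 : a < 1 := by linarith
  set u₀ : ℝ := (a + (1 + b) * ρ) / 2 with hu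
  have hu1 : |u₀| ≤ 1 := by
    have e1 : (1 + b) * ρ < 1 + b := by
      have : (1 + b) * ρ < (1 + b) * 1 := by gcongr
      linarith
    have e2 : -(1 + b) < (1 + b) * ρ := by
      have : (1 + b) * (-1) < (1 + b) * ρ := by gcongr
      linarith
    rw [abs_le, hu]
    constructor <;> linarith
  refine ⟨min (a / 5) (τ * a / 32), min (a / 16) (τ * a / 160), by positivity, by positivity,
    (min_le_left _ _).trans (by linarith), ?_⟩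
  intro n X Y Z x y z hnear hX hY hZ
  set ζ : ℝ := min (a / 5) (τ * a / 32) with hζ
  set h : ℝ := min (a / 16) (τ * a / 160) with hh
  have hζ1 : ζ ≤ a / 5 := min_le_left _ _
  have hζ2 : ζ ≤ τ * a / 32 := min_le_right _ _
  have hh1 : h ≤ a / 16 := min_le_left _ _
  have hh2 : h ≤ τ * a / 160 := min_le_right _ _
  have hh0 : 0 < h := by positivity
  have hζ0 : 0 < ζ := by positivity
  obtain ⟨h1, h2, h3, h4, h5, h6⟩ := hnear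
  rw [abs_le] at h1 h2 h3 h4 h5 h6
  set p : V n := Y - X with hp
  set q : V n := Z - X with hq
  set p' : V n := y - x with hp'
  set q' : V n := z - x with hq'
  have hpp : ‖p' - p‖ ≤ 4 * h := by
    have : p' - p = (X - x) - (Y - y) := by rw [hp', hp]; abel
    rw [this]
    exact (norm_sub_le _ _).trans (by linarith)
  have hqq : ‖q' - q‖ ≤ 4 * h := by
    have : q' - q = (X - x) - (Z - z) := by rw [hq', hq]; abel
    rw [this]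
    exact (norm_sub_le _ _).trans (by linarith)
  have hp2 : ‖p‖ ^ 2 = ‖Y‖ ^ 2 - 2 * ⟪X, Y⟫ + ‖X‖ ^ 2 := by
    rw [hp, norm_sub_sq_real, real_inner_comm]
  have hq2 : ‖q‖ ^ 2 = ‖Z‖ ^ 2 - 2 * ⟪X, Z⟫ + ‖X‖ ^ 2 := by
    rw [hq, norm_sub_sq_real, real_inner_comm]
  have hpq : ⟪p, q⟫ = ⟪Y, Z⟫ - ⟪X, Y⟫ - ⟪X, Z⟫ + ‖X‖ ^ 2 := by
    rw [hp, hq, inner_sub_left, inner_sub_right, inner_sub_right, real_inner_self_eq_norm_sq,
      real_inner_comm X Y]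
    ring
  have hp3 : 2 * a - 4 * ζ ≤ ‖p‖ ^ 2 := by rw [hp2]; linarith
  have hp4 : ‖p‖ ^ 2 ≤ 2 * a + 4 * ζ := by rw [hp2]; linarith
  have hq3 : 2 * a - 4 * ζ ≤ ‖q‖ ^ 2 := by rw [hq2]; linarith
  have hq4 : ‖q‖ ^ 2 ≤ 2 * a + 4 * ζ := by rw [hq2]; linarith
  have hau : b ^ 2 + (1 - b ^ 2) * ρ - b - b + 1 = 2 * a * u₀ := by
    rw [hu, ha]; ring
  have hpq3 : |⟪p, q⟫ - 2 * a * u₀| ≤ 4 * ζ := by
    rw [abs_le, ← hau, hpq]
    constructor <;> linarith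
  have hpn : ‖p‖ ≤ 2 := by
    have : ‖p‖ ^ 2 ≤ 2 ^ 2 := by linarith
    exact (sq_le_sq₀ (norm_nonneg _) (by norm_num)).mp this
  have hqn : ‖q‖ ≤ 2 := by
    have : ‖q‖ ^ 2 ≤ 2 ^ 2 := by linarith
    exact (sq_le_sq₀ (norm_nonneg _) (by norm_num)).mp this
  have hp'1 : ‖p'‖ ≤ ‖p‖ + 4 * h := by
    have := norm_add_le p (p' - p)
    rw [add_sub_cancel] at this
    linarith
  have hq'1 : ‖q'‖ ≤ ‖q‖ + 4 * h := by
    have := norm_add_le q (q' - q)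
    rw [add_sub_cancel] at this
    linarith
  have hp'2 : ‖p‖ - 4 * h ≤ ‖p'‖ := by
    have := norm_sub_norm_le p p'
    rw [norm_sub_rev p p'] at this
    linarith
  have hq'2 : ‖q‖ - 4 * h ≤ ‖q'‖ := by
    have := norm_sub_norm_le q q'
    rw [norm_sub_rev q q'] at this
    linarith
  -- lower bounds
  set S : ℝ := Real.sqrt (2 * a) with hS
  have hS2 : S ^ 2 = 2 * a := Real.sq_sqrt (by linarith)
  have hS0 : 0 < S := Real.sqrt_pos.mpr (by linarith)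
  have hSa : a ≤ S := by
    have : a ^ 2 ≤ S ^ 2 := by
      rw [hS2, sq]
      have : a * a ≤ a * 1 := by gcongr
      linarith
    exact (sq_le_sq₀ ha0.le hS0.le).mp this
  have hpS : 3 / 4 * S ≤ ‖p‖ := by
    have : (3 / 4 * S) ^ 2 ≤ ‖p‖ ^ 2 := by
      rw [mul_pow, hS2]; linarith
    exact (sq_le_sq₀ (by positivity) (norm_nonneg _)).mp this
  have hqS : 3 / 4 * S ≤ ‖q‖ := by
    have : (3 / 4 * S) ^ 2 ≤ ‖q‖ ^ 2 := by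
      rw [mul_pow, hS2]; linarith
    exact (sq_le_sq₀ (by positivity) (norm_nonneg _)).mp this
  have hδp : S / 2 ≤ ‖p'‖ := by linarith
  have hδq : S / 2 ≤ ‖q'‖ := by linarith
  have hprod : a / 2 ≤ ‖p'‖ * ‖q'‖ := by
    calc a / 2 = S / 2 * (S / 2) := by linear_combination (-1 / 4 : ℝ) * hS2
      _ ≤ ‖p'‖ * ‖q'‖ := by gcongr
  -- products
  have hm1 : |2 * a - ‖p‖ * ‖q‖| ≤ 4 * ζ := by
    have h7 : (‖p‖ * ‖q‖) ^ 2 ≤ (2 * a + 4 * ζ) ^ 2 := by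
      rw [mul_pow, sq (2 * a + 4 * ζ)]
      gcongr
    have h8 : ‖p‖ * ‖q‖ ≤ 2 * a + 4 * ζ :=
      (sq_le_sq₀ (by positivity) (by positivity)).mp h7
    have h9 : 0 ≤ 2 * a - 4 * ζ := by linarith
    have h10 : (2 * a - 4 * ζ) ^ 2 ≤ (‖p‖ * ‖q‖) ^ 2 := by
      rw [mul_pow, sq (2 * a - 4 * ζ)]
      gcongr
    have h11 : 2 * a - 4 * ζ ≤ ‖p‖ * ‖q‖ :=
      (sq_le_sq₀ h9 (by positivity)).mp h10
    rw [abs_le]
    constructor <;> linarith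
  have hh4 : h ≤ 1 / 16 := by linarith
  have hm2 : |‖p‖ * ‖q‖ - ‖p'‖ * ‖q'‖| ≤ 20 * h := by
    have h7 : ‖p‖ * ‖q‖ - ‖p'‖ * ‖q'‖ = (‖p‖ - ‖p'‖) * ‖q‖ + ‖p'‖ * (‖q‖ - ‖q'‖) := by ring
    have h8 : |‖p‖ - ‖p'‖| ≤ 4 * h := by rw [abs_le]; constructor <;> linarith
    have h9 : |‖q‖ - ‖q'‖| ≤ 4 * h := by rw [abs_le]; constructor <;> linarith
    rw [h7]
    calc |(‖p‖ - ‖p'‖) * ‖q‖ + ‖p'‖ * (‖q‖ - ‖q'‖)|
        ≤ |(‖p‖ - ‖p'‖) * ‖q‖| + |‖p'‖ * (‖q‖ - ‖q'‖)| := abs_add_le _ _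
      _ = |‖p‖ - ‖p'‖| * ‖q‖ + ‖p'‖ * |‖q‖ - ‖q'‖| := by
          rw [abs_mul, abs_mul, abs_of_nonneg (norm_nonneg q), abs_of_nonneg (norm_nonneg p')]
      _ ≤ 4 * h * 2 + 3 * (4 * h) := by
          have h10 : ‖p'‖ ≤ 3 := by linarith
          gcongr
      _ = 20 * h := by ring
  have hm3 : |⟪p', q'⟫ - ⟪p, q⟫| ≤ 20 * h := by
    have e1 : ⟪p' - p, q⟫ = ⟪p', q⟫ - ⟪p, q⟫ := inner_sub_left p' p q
    have e2 : ⟪p', q' - q⟫ = ⟪p', q'⟫ - ⟪p', q⟫ := inner_sub_right p' q' q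
    have h7 : ⟪p', q'⟫ - ⟪p, q⟫ = ⟪p' - p, q⟫ + ⟪p', q' - q⟫ := by
      rw [e1, e2]; ring
    rw [h7]
    calc |⟪p' - p, q⟫ + ⟪p', q' - q⟫| ≤ |⟪p' - p, q⟫| + |⟪p', q' - q⟫| := abs_add_le _ _
      _ ≤ ‖p' - p‖ * ‖q‖ + ‖p'‖ * ‖q' - q‖ :=
          add_le_add (abs_real_inner_le_norm _ _) (abs_real_inner_le_norm _ _)
      _ ≤ 4 * h * 2 + 3 * (4 * h) := by
          have h10 : ‖p'‖ ≤ 3 := by linarith
          gcongr
      _ = 20 * h := by ring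
  refine ⟨hδp, hδq, ?_⟩
  have hdecomp : ⟪p', q'⟫ - u₀ * (‖p'‖ * ‖q'‖) = (⟪p', q'⟫ - ⟪p, q⟫) + (⟪p, q⟫ - 2 * a * u₀) +
      u₀ * (2 * a - ‖p‖ * ‖q‖) + u₀ * (‖p‖ * ‖q‖ - ‖p'‖ * ‖q'‖) := by ring
  calc |⟪p', q'⟫ - u₀ * (‖p'‖ * ‖q'‖)|
      ≤ |⟪p', q'⟫ - ⟪p, q⟫| + |⟪p, q⟫ - 2 * a * u₀| + |u₀ * (2 * a - ‖p‖ * ‖q‖)| +
        |u₀ * (‖p‖ * ‖q‖ - ‖p'‖ * ‖q'‖)| := by
        rw [hdecomp]
        refine (abs_add_le _ _).trans (add_le_add ((abs_add_le _ _).trans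
          (add_le_add (abs_add_le _ _) le_rfl)) le_rfl)
    _ ≤ 20 * h + 4 * ζ + 1 * (4 * ζ) + 1 * (20 * h) := by
        rw [abs_mul, abs_mul]
        gcongr
    _ ≤ τ * (a / 2) := by linarith
    _ ≤ τ * (‖p'‖ * ‖q'‖) := by gcongr

end Pool.Agent.L0h37.AN.DE
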