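import Mathlib
import Pool.Agent.R280.HC.Stm

/-!
# Angles in sets of large Hausdorff dimension (MP_937c79_an, S05431): definitions and modules

Every module is a Prop `StmtXX`; its proof goes to `Pool/Agent/L0h37/AN/XX.lean`, theorem `main`.
The paper proofs are in the team document `ANG_BLUEPRINT.md`.
-/

set_option autoImplicit false

open MeasureTheory Metric Set Filter Topology
open scoped ENNReal NNReal RealInnerProductSpace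

namespace Pool.Agent.L0h37.AN

/-- the space `ℝⁿ` -/
abbrev V (n : ℕ) : Type := EuclideanSpace ℝ (Fin n)

/-- normalised Frostman data: a probability measure `ν` on a compact subset `K` of the unit ball with
`ν (B(z,r)) ≤ 2 r ^ s` -/
structure Nice (n : ℕ) (s : ℝ) (K : Set (V n)) (ν : Measure (V n)) : Prop where
  cpt : IsCompact K
  sub : K ⊆ closedBall 0 1
  prob : IsProbabilityMeasure ν
  supp : ν Kᶜ = 0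
  frost : ∀ (z : V n) (r : ℝ), 0 < r → ν (closedBall z r) ≤ ENNReal.ofReal (2 * r ^ s)

/-- Gram determinant: `‖v‖² ‖θ‖² - ⟪v,θ⟫²` (squared area of the parallelogram) -/
noncomputable def Gr {n : ℕ} (v θ : V n) : ℝ := ‖v‖ ^ 2 * ‖θ‖ ^ 2 - ⟪v, θ⟫ ^ 2

/-- the Gaussian measure `N (0, I / n)` -/
noncomputable def gam (n : ℕ) : Measure (V n) :=
  (volume : Measure (V n)).withDensity (fun x => ENNReal.ofReal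
    (((n : ℝ) / (2 * Real.pi)) ^ ((n : ℝ) / 2) * Real.exp (-((n : ℝ) * ‖x‖ ^ 2) / 2)))

/-! ## Part A: Frostman measures on Borel sets -/

/-- BC: a Borel set of dimension `> s` contains a compact set of positive content -/
def StmtBC : Prop := ∀ (n : ℕ) (E : Set (V n)), MeasurableSet E → ∀ s : ℝ, 0 < s →
  ENNReal.ofReal s < dimH E → ∃ K ⊆ E, IsCompact K ∧ 0 < Pool.Agent.R280.HC.cont s K

/-- NM: normalised Frostman measure -/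
def StmtNM : Prop := ∀ (n : ℕ) (E : Set (V n)), MeasurableSet E → ∀ s : ℝ, 0 < s →
  ENNReal.ofReal s < dimH E → ∃ (K : Set (V n)) (ν : Measure (V n)) (x₀ : V n) (r₀ : ℝ),
    Nice n s K ν ∧ 0 < r₀ ∧ ∀ y ∈ K, x₀ + r₀ • y ∈ E

/-! ## Part B: `s > n - 1` -/

/-- TV: volume of a tube of directions -/
def StmtTV : Prop := ∀ n : ℕ, 1 ≤ n → ∃ C : ℝ, 0 < C ∧ ∀ (v : V n) (r : ℝ), v ≠ 0 → 0 < r →
  volume {θ : V n | ‖θ‖ ≤ 1 ∧ Gr v θ ≤ r ^ 2} ≤ ENNReal.ofReal (C * (r / ‖v‖) ^ (n - 1))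

/-- CL: Cauchy-Schwarz over cells of diameter `r` of the projection along `θ` -/
def StmtCL : Prop := ∀ n : ℕ, 1 ≤ n → ∃ c : ℝ, 0 < c ∧ ∀ (ν : Measure (V n)), IsFiniteMeasure ν →
  ∀ G : Set (V n), MeasurableSet G → G ⊆ closedBall 0 1 → ∀ θ : V n, θ ≠ 0 → ‖θ‖ ≤ 1 →
  ∀ r : ℝ, 0 < r → r ≤ 1 → ENNReal.ofReal (c * r ^ (n - 1)) * ν G ^ 2 ≤
    (ν.prod ν) {p | p.1 ∈ G ∧ p.2 ∈ G ∧ Gr (p.1 - p.2) θ ≤ r ^ 2}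

/-- FF: for almost every direction `θ`, compact sets on which the projection along `θ` is injective
are null -/
def StmtFF : Prop := ∀ n : ℕ, 2 ≤ n → ∀ s : ℝ, (n : ℝ) - 1 < s → ∀ ν : Measure (V n),
  IsFiniteMeasure ν → ∀ A : ℝ, 0 ≤ A →
  (∀ (z : V n) (r : ℝ), 0 < r → ν (closedBall z r) ≤ ENNReal.ofReal (A * r ^ s)) →
  ∀ᵐ θ ∂((volume : Measure (V n)).restrict (closedBall (0 : V n) 1)), ∀ G : Set (V n),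
    IsCompact G → G ⊆ closedBall 0 1 → (∀ x ∈ G, ∀ y ∈ G, Gr (x - y) θ = 0 → x = y) → ν G = 0

/-- RY: for almost every direction `θ`, almost every ray in direction `θ` meets `K` -/
def StmtRY : Prop := ∀ n : ℕ, 2 ≤ n → ∀ s : ℝ, (n : ℝ) - 1 < s → ∀ (K : Set (V n))
  (ν : Measure (V n)), Nice n s K ν →
  ∀ᵐ θ ∂(volume : Measure (V n)), ν {x | x ∈ K ∧ ∀ t : ℝ, 0 < t → x + t • θ ∉ K} = 0

/-- PA: a set of full measure contains two vectors with a prescribed angle -/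
def StmtPA : Prop := ∀ n : ℕ, 2 ≤ n → ∀ D : Set (V n), (volume : Measure (V n)) Dᶜ = 0 →
  ∀ α : ℝ, 0 < α → α < Real.pi →
  ∃ θ ∈ D, ∃ θ' ∈ D, θ ≠ 0 ∧ θ' ≠ 0 ∧ InnerProductGeometry.angle θ θ' = α

/-- SM: all angles, if `s > n - 1` -/
def StmtSM : Prop := ∀ n : ℕ, 2 ≤ n → ∀ s : ℝ, (n : ℝ) - 1 < s → ∀ (K : Set (V n))
  (ν : Measure (V n)), Nice n s K ν → ∀ α : ℝ, 0 < α → α < Real.pi →
  ∃ x ∈ K, ∃ y ∈ K, ∃ z ∈ K, x ≠ y ∧ y ≠ z ∧ x ≠ z ∧ EuclideanGeometry.angle x y z = α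

/-! ## Part C: Fourier decay -/

/-- LC: layer cake for Gaussians and Frostman measures -/
def StmtLC : Prop := ∀ (n : ℕ) (μ : Measure (V n)), IsFiniteMeasure μ → ∀ A σ : ℝ, 0 ≤ A → 0 ≤ σ →
  (∀ (z : V n) (r : ℝ), 0 < r → μ (closedBall z r) ≤ ENNReal.ofReal (A * r ^ σ)) →
  ∀ (a : ℝ) (q : V n), 0 < a →
  ∫ y, Real.exp (-a * ‖y - q‖ ^ 2) ∂μ ≤ A * a ^ (-(σ / 2)) * Real.Gamma (σ / 2 + 1)

/-- GB: a bound for the Gamma function -/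
def StmtGB : Prop := ∀ (n : ℕ) (σ : ℝ), 1 ≤ n → 0 ≤ σ → σ ≤ n →
  Real.Gamma (σ / 2 + 1) ≤ 2 * (n : ℝ) ^ (σ / 2)

/-- F1: the Fourier transform of a measure on the sphere is locally constant at scale `√n` -/
def StmtF1 : Prop := ∀ (n : ℕ), 1 ≤ n → ∀ μ : Measure (V n), IsFiniteMeasure μ →
  μ {y | ‖y‖ ≠ 1} = 0 → ∀ ξ : V n,
  ‖charFun μ ξ‖ ^ 2 ≤ Real.exp n * (2 * Real.pi * n) ^ (-((n : ℝ) / 2)) *
    ∫ η : V n, ‖charFun μ η‖ ^ 2 * Real.exp (-(‖η - ξ‖ ^ 2 / (2 * n)))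

/-- F2: Gaussian averages of `|μ̂|²` -/
def StmtF2 : Prop := ∀ (n : ℕ) (μ : Measure (V n)), IsFiniteMeasure μ → ∀ b : ℝ, 0 < b →
  ∫ η : V n, ‖charFun μ η‖ ^ 2 * Real.exp (-b * ‖η‖ ^ 2) =
    (Real.pi / b) ^ ((n : ℝ) / 2) *
      ∫ p, Real.exp (-(1 / (4 * b)) * ‖p.1 - p.2‖ ^ 2) ∂(μ.prod μ)

/-- FB: decay of the Fourier transform on the sphere of radius `lam`, averaged over `μ` -/
def StmtFB : Prop := ∀ (n : ℕ), 1 ≤ n → ∀ μ : Measure (V n), IsFiniteMeasure μ → μ univ ≤ 1 →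
  μ {y | ‖y‖ ≠ 1} = 0 → ∀ A σ : ℝ, 0 ≤ A → 0 ≤ σ → σ ≤ n →
  (∀ (z : V n) (r : ℝ), 0 < r → μ (closedBall z r) ≤ ENNReal.ofReal (A * r ^ σ)) →
  ∀ lam : ℝ, (n : ℝ) ≤ lam →
  ∫ z, ‖charFun μ (lam • z)‖ ^ 2 ∂μ ≤ A ^ 2 * 100 ^ n * ((n : ℝ) / lam) ^ (2 * σ - n)

/-- KT: negative moments from the Fourier transform -/
def StmtKT : Prop := ∀ P : Measure ℝ, IsFiniteMeasure P → ∀ u₀ ε₀ : ℝ, 0 < ε₀ →
  P {u | |u - u₀| < ε₀} = 0 → ∀ D : ℕ, 1 ≤ D → Even D →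
  IntegrableOn (fun l : ℝ => l ^ (D - 1) * ‖charFun P l‖) (Ioi 0) →
  ∫ u, (|u - u₀| ^ D)⁻¹ ∂P ≤
    ((D - 1).factorial : ℝ)⁻¹ * ∫ l in Ioi (0 : ℝ), l ^ (D - 1) * ‖charFun P l‖

/-- EX: if the inner products avoid a neighbourhood of `u₀`, then they are exponentially rare near
`u₀` -/
def StmtEX : Prop := ∃ C₂ : ℝ, 1 ≤ C₂ ∧ ∃ n₁ : ℕ, ∀ n : ℕ, n₁ ≤ n → ∀ μ : Measure (V n),
  IsFiniteMeasure μ → μ univ ≤ 1 → μ {y | ‖y‖ ≠ 1} = 0 →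
  ∀ σ : ℝ, (7 / 8 : ℝ) * n - 1 ≤ σ → σ ≤ n →
  (∀ (z : V n) (r : ℝ), 0 < r → μ (closedBall z r) ≤ ENNReal.ofReal (6 * 4 ^ n * r ^ σ)) →
  ∀ u₀ ε₀ : ℝ, 0 < ε₀ → (μ.prod μ) {p | |⟪p.1, p.2⟫ - u₀| < ε₀} = 0 →
  ∀ τ : ℝ, 0 < τ → τ ≤ 1 →
  (μ.prod μ) {p | |⟪p.1, p.2⟫ - u₀| ≤ τ} ≤ ENNReal.ofReal (C₂ ^ n * τ ^ ((n : ℝ) / 4))

/-- RP: the radial projection of a Frostman measure -/
def StmtRP : Prop := ∀ (n : ℕ), 1 ≤ n → ∀ (s : ℝ) (K : Set (V n)) (ν : Measure (V n)), 1 ≤ s →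
  s ≤ n → Nice n s K ν → ∀ x : V n, ‖x‖ ≤ 1 → ∀ δ : ℝ, 0 < δ → ∀ (z : V n) (r : ℝ), 0 < r →
  (Measure.map (fun y => ‖y - x‖⁻¹ • (y - x)) (ν.restrict {y | δ ≤ ‖y - x‖})) (closedBall z r) ≤
    ENNReal.ofReal (6 * 4 ^ n * r ^ (s - 1))

/-! ## Part D: the coarse lower bound -/

/-- GR: `gam n` is a probability measure, invariant under rotations of pairs -/
def StmtGR : Prop := ∀ n : ℕ, 1 ≤ n → IsProbabilityMeasure (gam n) ∧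
  ∀ a b : ℝ, a ^ 2 + b ^ 2 = 1 →
    Measure.map (fun p : V n × V n => a • p.1 + b • p.2) ((gam n).prod (gam n)) = gam n

/-- NR: the norm is concentrated at `1` -/
def StmtNR : Prop := ∀ n : ℕ, 1 ≤ n → ∀ ζ : ℝ, 0 < ζ →
  gam n {x | ζ ≤ |‖x‖ ^ 2 - 1|} ≤ ENNReal.ofReal (2 / (n * ζ ^ 2))

/-- TT: at least half of the points lie in heavy balls -/
def StmtTT : Prop := ∀ (n : ℕ), 1 ≤ n → ∀ (s : ℝ) (K : Set (V n)) (ν : Measure (V n)),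
  Nice n s K ν → ∀ h : ℝ, 0 < h → h ≤ 1 →
  (1 / 2 : ℝ≥0∞) ≤ ν {y | ENNReal.ofReal (1 / 2 * (h / 4) ^ n) ≤ ν (closedBall y h)}

/-- GT: thickenings of sets of measure `≥ 1/2` are not exponentially small for `gam n` -/
def StmtGT : Prop := ∀ κ : ℝ, 0 < κ → ∃ ε₀ : ℝ, 0 < ε₀ ∧ ∀ ε : ℝ, 0 < ε → ε ≤ ε₀ →
  ∃ (n₀ : ℕ) (c : ℝ), c < 1 ∧ ∀ n : ℕ, n₀ ≤ n → ∀ s : ℝ, c * n ≤ s → s ≤ n →
  ∀ (K : Set (V n)) (ν : Measure (V n)), Nice n s K ν → ∀ T ⊆ K, MeasurableSet T →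
  (1 / 2 : ℝ≥0∞) ≤ ν T → ENNReal.ofReal (Real.exp (-κ * n)) ≤ gam n (cthickening ε T)

/-- CN: Gaussian concentration -/
def StmtCN : Prop := ∀ n : ℕ, 1 ≤ n → ∀ T : Set (V n), IsClosed T → T.Nonempty → ∀ t : ℝ, 0 ≤ t →
  gam n {x | t ≤ infDist x T} * gam n T ≤ ENNReal.ofReal (Real.exp (-(n * t ^ 2) / 4))

/-- the second point of the random configuration (the first is `g.1`) -/
noncomputable def cY {n : ℕ} (b : ℝ) (g : V n × V n × V n) : V n :=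
  b • g.1 + Real.sqrt (1 - b ^ 2) • g.2.1

/-- the third point of the random configuration -/
noncomputable def cZ {n : ℕ} (b ρ : ℝ) (g : V n × V n × V n) : V n :=
  b • g.1 + Real.sqrt (1 - b ^ 2) • (ρ • g.2.1 + Real.sqrt (1 - ρ ^ 2) • g.2.2)

/-- the exact inner product relations of the configuration, up to `ζ` -/
def Near (n : ℕ) (b ρ ζ : ℝ) (X Y Z : V n) : Prop :=
  |‖X‖ ^ 2 - 1| ≤ ζ ∧ |‖Y‖ ^ 2 - 1| ≤ ζ ∧ |‖Z‖ ^ 2 - 1| ≤ ζ ∧ |⟪X, Y⟫ - b| ≤ ζ ∧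
    |⟪X, Z⟫ - b| ≤ ζ ∧ |⟪Y, Z⟫ - (b ^ 2 + (1 - b ^ 2) * ρ)| ≤ ζ

/-- CF: the random configuration -/
def StmtCF : Prop := ∀ b ρ : ℝ, 0 < b → b < 1 → -1 < ρ → ρ < 1 → ∀ ζ : ℝ, 0 < ζ →
  ∃ n₀ : ℕ, ∀ n : ℕ, n₀ ≤ n → ∀ W : Set (V n), MeasurableSet W →
  gam n Wᶜ ≤ ENNReal.ofReal (1 / 16) →
  (1 / 2 : ℝ≥0∞) ≤ ((gam n).prod ((gam n).prod (gam n)))
    {g | g.1 ∈ W ∧ cY b g ∈ W ∧ cZ b ρ g ∈ W ∧ Near n b ρ ζ g.1 (cY b g) (cZ b ρ g)}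

/-- UB: the configuration is close to a given triple with probability at most `(C₄ h) ^ (3n)` -/
def StmtUB : Prop := ∀ b ρ : ℝ, 0 < b → b < 1 → -1 < ρ → ρ < 1 → ∃ C₄ : ℝ, 1 ≤ C₄ ∧
  ∀ n : ℕ, 1 ≤ n → ∀ h : ℝ, 0 < h → ∀ x y z : V n,
  ((gam n).prod ((gam n).prod (gam n)))
    {g | ‖g.1 - x‖ ≤ 2 * h ∧ ‖cY b g - y‖ ≤ 2 * h ∧ ‖cZ b ρ g - z‖ ≤ 2 * h} ≤
    ENNReal.ofReal ((C₄ * h) ^ (3 * n))

/-- the good triples: the angle at `x` is nearly `arccos u₀` and the sides are not short -/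
def Good (n : ℕ) (u₀ δ τ : ℝ) (x y z : V n) : Prop :=
  δ ≤ ‖y - x‖ ∧ δ ≤ ‖z - x‖ ∧
    |⟪y - x, z - x⟫ - u₀ * (‖y - x‖ * ‖z - x‖)| ≤ τ * (‖y - x‖ * ‖z - x‖)

/-- DE: deterministic closeness -/
def StmtDE : Prop := ∀ b ρ : ℝ, 0 < b → b < 1 → -1 < ρ → ρ < 1 → ∀ τ : ℝ, 0 < τ →
  ∃ ζ h : ℝ, 0 < ζ ∧ 0 < h ∧ h ≤ 1 ∧ ∀ (n : ℕ) (X Y Z x y z : V n), Near n b ρ ζ X Y Z →
  ‖X - x‖ ≤ 2 * h → ‖Y - y‖ ≤ 2 * h → ‖Z - z‖ ≤ 2 * h →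
  Good n (((1 - b) + (1 + b) * ρ) / 2) (Real.sqrt (2 * (1 - b)) / 2) τ x y z

/-- CO: the coarse lower bound -/
def StmtCO : Prop := ∀ u₀ : ℝ, -1 < u₀ → u₀ < 1 → ∃ C₃ δ : ℝ, 1 ≤ C₃ ∧ 0 < δ ∧ ∀ τ : ℝ, 0 < τ →
  ∃ (n₀ : ℕ) (c : ℝ), c < 1 ∧ ∀ n : ℕ, n₀ ≤ n → ∀ s : ℝ, c * n ≤ s → s ≤ n →
  ∀ (K : Set (V n)) (ν : Measure (V n)), Nice n s K ν →
  ∃ x ∈ K, ENNReal.ofReal ((C₃ ^ n)⁻¹) ≤ (ν.prod ν) {p | Good n u₀ δ τ x p.1 p.2}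

/-- BG: all angles in large dimension -/
def StmtBG : Prop := ∀ α : ℝ, 0 < α → α < Real.pi → ∃ (n₀ : ℕ) (c : ℝ), c < 1 ∧
  ∀ n : ℕ, n₀ ≤ n → ∀ s : ℝ, c * n ≤ s → s ≤ n → ∀ (K : Set (V n)) (ν : Measure (V n)),
  Nice n s K ν →
  ∃ x ∈ K, ∃ y ∈ K, ∃ z ∈ K, x ≠ y ∧ y ≠ z ∧ x ≠ z ∧ EuclideanGeometry.angle x y z = α

end Pool.Agent.L0h37.AN
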