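import Pool.Agent.L0h37.AN.Defs

/-!
# EX: if the inner products avoid a neighbourhood of `u₀`, they are exponentially rare near `u₀`
-/

set_option autoImplicit false

open MeasureTheory Metric Set Filter Topology
open scoped ENNReal NNReal RealInnerProductSpace

namespace Pool.Agent.L0h37.AN.EX

variable {n : ℕ}

/-- the law of the inner product -/
noncomputable def law (μ : Measure (V n)) : Measure ℝ :=
  Measure.map (fun p : V n × V n => ⟪p.1, p.2⟫) (μ.prod μ)

lemma inner_meas : Measurable (fun p : V n × V n => (⟪p.1, p.2⟫ : ℝ)) := by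
  apply Continuous.measurable; fun_prop

instance (μ : Measure (V n)) [IsFiniteMeasure μ] : IsFiniteMeasure (law μ) := by
  unfold law; infer_instance

lemma law_univ (μ : Measure (V n)) [IsFiniteMeasure μ] (h : μ univ ≤ 1) :
    (law μ).real univ ≤ 1 := by
  have h1 : law μ univ ≤ 1 := by
    unfold law
    rw [Measure.map_apply inner_meas MeasurableSet.univ, preimage_univ, ← univ_prod_univ,
      Measure.prod_prod]
    exact mul_le_one' h h
  rw [measureReal_def]
  have := ENNReal.toReal_mono ENNReal.one_ne_top h1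
  simpa using this

lemma charFun_law (μ : Measure (V n)) [IsFiniteMeasure μ] (l : ℝ) :
    charFun (law μ) l = ∫ z, charFun μ (l • z) ∂μ := by
  unfold law
  rw [charFun_apply_real, integral_map inner_meas.aemeasurable
    (by apply Continuous.aestronglyMeasurable; fun_prop)]
  have hint : Integrable (fun p : V n × V n => Complex.exp ((l : ℂ) * (⟪p.1, p.2⟫ : ℝ) * Complex.I))
      (μ.prod μ) := by
    refine (integrable_const (1 : ℝ)).mono' ?_ (Filter.Eventually.of_forall fun p => ?_)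
    · apply Continuous.aestronglyMeasurable; fun_prop
    · rw [← Complex.ofReal_mul, Complex.norm_exp_ofReal_mul_I]
  rw [integral_prod_symm _ hint]
  apply integral_congr_ae
  refine Filter.Eventually.of_forall fun z => ?_
  simp only
  rw [charFun_apply]
  apply integral_congr_ae
  refine Filter.Eventually.of_forall fun y => ?_
  simp only
  rw [inner_smul_right]
  push_cast
  rfl

lemma sq_int_le (μ : Measure (V n)) [IsFiniteMeasure μ] (hμ1 : μ.real univ ≤ 1) (f : V n → ℝ)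
    (h1 : Integrable f μ) (h2 : Integrable (fun z => f z ^ 2) μ) :
    (∫ z, f z ∂μ) ^ 2 ≤ ∫ z, f z ^ 2 ∂μ := by
  set t := ∫ z, f z ∂μ
  have key : 0 ≤ ∫ z, (f z - t) ^ 2 ∂μ := integral_nonneg fun z => sq_nonneg _
  have e : ∫ z, (f z - t) ^ 2 ∂μ = ∫ z, f z ^ 2 ∂μ - 2 * t * t + μ.real univ * t ^ 2 := by
    have : ∀ z, (f z - t) ^ 2 = f z ^ 2 - 2 * t * f z + t ^ 2 := by intro z; ring
    simp_rw [this]
    have i1 : Integrable (fun z => 2 * t * f z) μ := h1.const_mul _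
    have i2 : Integrable (fun z => f z ^ 2 - 2 * t * f z) μ := h2.sub i1
    rw [integral_add i2 (integrable_const _), integral_sub h2 i1, integral_const_mul,
      integral_const, smul_eq_mul]
  rw [e] at key
  nlinarith [sq_nonneg t]

lemma le_of_sq_le_sq₀' {a b : ℝ} (h : a ^ 2 ≤ b ^ 2) (hb : 0 ≤ b) : a ≤ b := by
  by_contra hcon
  push Not at hcon
  nlinarith

/-- decay of the characteristic function of the law -/
lemma decay (hFB : StmtFB) (hn : 1 ≤ n) (μ : Measure (V n)) [IsFiniteMeasure μ]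
    (hμ1 : μ univ ≤ 1) (hμ : μ {y | ‖y‖ ≠ 1} = 0) (A σ : ℝ) (hA : 0 ≤ A) (hσ0 : 0 ≤ σ)
    (hσn : σ ≤ n)
    (hfr : ∀ (z : V n) (r : ℝ), 0 < r → μ (closedBall z r) ≤ ENNReal.ofReal (A * r ^ σ))
    (l : ℝ) (hl : (n : ℝ) ≤ l) :
    ‖charFun (law μ) l‖ ≤ A * 10 ^ n * ((n : ℝ) / l) ^ (σ - n / 2) := by
  have hN : (0 : ℝ) < n := by exact_mod_cast hn
  have hl0 : 0 < l := hN.trans_le hl
  have hmass1 : μ.real univ ≤ 1 := by
    rw [measureReal_def]
    have := ENNReal.toReal_mono ENNReal.one_ne_top hμ1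
    simpa using this
  have hb : ∀ η, ‖charFun μ η‖ ≤ 1 := fun η => (norm_charFun_le η).trans hmass1
  have hmeas : Measurable (fun z : V n => ‖charFun μ (l • z)‖) :=
    ((measurable_charFun (μ := μ)).comp (measurable_const_smul l)).norm
  have h1 : Integrable (fun z : V n => ‖charFun μ (l • z)‖) μ := by
    refine (integrable_const (1 : ℝ)).mono' hmeas.aestronglyMeasurable
      (Filter.Eventually.of_forall fun z => ?_)
    rw [norm_norm]; exact hb _
  have h2 : Integrable (fun z : V n => ‖charFun μ (l • z)‖ ^ 2) μ := by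
    refine (integrable_const (1 : ℝ)).mono' (hmeas.pow_const 2).aestronglyMeasurable
      (Filter.Eventually.of_forall fun z => ?_)
    rw [norm_pow, norm_norm]; exact pow_le_one₀ (norm_nonneg _) (hb _)
  have h3 := hFB n hn μ inferInstance hμ1 hμ A σ hA hσ0 hσn hfr l hl
  have h4 := sq_int_le μ hmass1 _ h1 h2
  have h5 : ‖charFun (law μ) l‖ ≤ ∫ z, ‖charFun μ (l • z)‖ ∂μ := by
    rw [charFun_law]; exact norm_integral_le_integral_norm _
  refine h5.trans ?_
  refine le_of_sq_le_sq₀' ?_ (by positivity)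
  refine (h4.trans h3).trans_eq ?_
  rw [mul_pow, mul_pow, ← Real.rpow_natCast (((n : ℝ) / l) ^ (σ - n / 2)),
    ← Real.rpow_mul (by positivity), ← pow_mul, mul_comm n 2, pow_mul]
  congr 2
  · norm_num
  · push_cast; ring

/-- the moment integral -/
lemma moment (hn : 1 ≤ n) (P : Measure ℝ) [IsFiniteMeasure P] (hP : P.real univ ≤ 1)
    (B β : ℝ) (hB : 0 ≤ B) (D : ℕ) (hD : 1 ≤ D) (hDβ : (D : ℝ) + 1 / 2 ≤ β)
    (hdec : ∀ l : ℝ, (n : ℝ) ≤ l → ‖charFun P l‖ ≤ B * ((n : ℝ) / l) ^ β) :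
    IntegrableOn (fun l : ℝ => l ^ (D - 1) * ‖charFun P l‖) (Ioi 0) ∧
    ∫ l in Ioi (0 : ℝ), l ^ (D - 1) * ‖charFun P l‖ ≤ (n : ℝ) ^ D * (1 + 2 * B) := by
  have hN : (0 : ℝ) < n := by exact_mod_cast hn
  have hb : ∀ l, ‖charFun P l‖ ≤ 1 := fun l => (norm_charFun_le l).trans hP
  have hmeas : Measurable (fun l : ℝ => l ^ (D - 1) * ‖charFun P l‖) :=
    (measurable_id.pow_const _).mul (measurable_charFun (μ := P)).norm
  have hD1 : ((D - 1 : ℕ) : ℝ) = (D : ℝ) - 1 := by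
    rw [Nat.cast_sub hD]; simp
  have ha : (D : ℝ) - 1 - β < -1 := by linarith
  -- the near part
  have i1 : IntegrableOn (fun l : ℝ => l ^ (D - 1) * ‖charFun P l‖) (Ioc 0 (n : ℝ)) := by
    refine (integrableOn_const (C := (n : ℝ) ^ (D - 1)) (by simp)).mono'
      hmeas.aestronglyMeasurable ?_
    filter_upwards [ae_restrict_mem measurableSet_Ioc] with l hl
    rw [norm_mul, norm_norm, norm_pow, Real.norm_eq_abs, abs_of_pos hl.1]
    calc l ^ (D - 1) * ‖charFun P l‖ ≤ (n : ℝ) ^ (D - 1) * 1 :=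
          mul_le_mul (pow_le_pow_left₀ hl.1.le hl.2 _) (hb l) (norm_nonneg _) (by positivity)
      _ = (n : ℝ) ^ (D - 1) := mul_one _
  have b1 : ∫ l in Ioc 0 (n : ℝ), l ^ (D - 1) * ‖charFun P l‖ ≤ (n : ℝ) ^ D := by
    calc ∫ l in Ioc 0 (n : ℝ), l ^ (D - 1) * ‖charFun P l‖
        ≤ ∫ _l in Ioc 0 (n : ℝ), (n : ℝ) ^ (D - 1) := by
          refine setIntegral_mono_on i1 (integrableOn_const (by simp)) measurableSet_Ioc ?_
          intro l hl
          calc l ^ (D - 1) * ‖charFun P l‖ ≤ (n : ℝ) ^ (D - 1) * 1 :=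
                mul_le_mul (pow_le_pow_left₀ hl.1.le hl.2 _) (hb l) (norm_nonneg _) (by positivity)
            _ = (n : ℝ) ^ (D - 1) := mul_one _
      _ = (n : ℝ) ^ D := by
          rw [setIntegral_const, Measure.real, Real.volume_Ioc, sub_zero,
            ENNReal.toReal_ofReal hN.le, smul_eq_mul, ← pow_succ']
          congr 1
          omega
  -- the far part
  have hpt : ∀ l ∈ Ioi (n : ℝ), l ^ (D - 1) * ‖charFun P l‖ ≤
      (B * (n : ℝ) ^ β) * l ^ ((D : ℝ) - 1 - β) := by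
    intro l hl
    have hl' : (n : ℝ) < l := hl
    have hl0 : 0 < l := hN.trans hl'
    calc l ^ (D - 1) * ‖charFun P l‖ ≤ l ^ (D - 1) * (B * ((n : ℝ) / l) ^ β) :=
          mul_le_mul_of_nonneg_left (hdec l hl'.le) (by positivity)
      _ = (B * (n : ℝ) ^ β) * l ^ ((D : ℝ) - 1 - β) := by
          rw [Real.div_rpow hN.le hl0.le, Real.rpow_sub hl0, ← hD1, Real.rpow_natCast]
          ring
  have i0 : IntegrableOn (fun l : ℝ => (B * (n : ℝ) ^ β) * l ^ ((D : ℝ) - 1 - β)) (Ioi (n : ℝ)) :=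
    (integrableOn_Ioi_rpow_of_lt ha hN).const_mul _
  have i2 : IntegrableOn (fun l : ℝ => l ^ (D - 1) * ‖charFun P l‖) (Ioi (n : ℝ)) := by
    refine i0.mono' hmeas.aestronglyMeasurable ?_
    filter_upwards [ae_restrict_mem measurableSet_Ioi] with l hl
    have hl0 : 0 < l := hN.trans hl
    rw [Real.norm_eq_abs, abs_of_nonneg (by positivity)]
    exact hpt l hl
  have b2 : ∫ l in Ioi (n : ℝ), l ^ (D - 1) * ‖charFun P l‖ ≤ (n : ℝ) ^ D * (2 * B) := by
    calc ∫ l in Ioi (n : ℝ), l ^ (D - 1) * ‖charFun P l‖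
        ≤ ∫ l in Ioi (n : ℝ), (B * (n : ℝ) ^ β) * l ^ ((D : ℝ) - 1 - β) :=
          setIntegral_mono_on i2 i0 measurableSet_Ioi hpt
      _ = (B * (n : ℝ) ^ β) * (-(n : ℝ) ^ ((D : ℝ) - 1 - β + 1) / ((D : ℝ) - 1 - β + 1)) := by
          rw [integral_const_mul, integral_Ioi_rpow_of_lt ha hN]
      _ = (B * (n : ℝ) ^ D) / (β - D) := by
          have e1 : (D : ℝ) - 1 - β + 1 = D - β := by ring
          rw [e1, Real.rpow_sub hN, Real.rpow_natCast]
          have h1 : (D : ℝ) - β ≠ 0 := by intro h; linarith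
          have h2 : β - (D : ℝ) ≠ 0 := by intro h; linarith
          have h3 : (n : ℝ) ^ β ≠ 0 := by positivity
          have e2 : (D : ℝ) - β = -(β - D) := by ring
          rw [e2, neg_div_neg_eq]
          field_simp
      _ ≤ (n : ℝ) ^ D * (2 * B) := by
          rw [div_le_iff₀ (by linarith)]
          have : (1 : ℝ) ≤ 2 * (β - D) := by linarith
          have h0 : 0 ≤ B * (n : ℝ) ^ D := by positivity
          calc B * (n : ℝ) ^ D = B * (n : ℝ) ^ D * 1 := (mul_one _).symm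
            _ ≤ B * (n : ℝ) ^ D * (2 * (β - D)) := mul_le_mul_of_nonneg_left this h0
            _ = (n : ℝ) ^ D * (2 * B) * (β - D) := by ring
  have hun : Ioi (0 : ℝ) = Ioc 0 (n : ℝ) ∪ Ioi (n : ℝ) := (Ioc_union_Ioi_eq_Ioi hN.le).symm
  have hdisj : Disjoint (Ioc 0 (n : ℝ)) (Ioi (n : ℝ)) := by
    rw [Set.disjoint_left]
    intro x hx hx2
    exact absurd hx.2 (not_le.2 hx2)
  refine ⟨?_, ?_⟩
  · rw [hun]; exact i1.union i2
  · rw [hun, setIntegral_union hdisj measurableSet_Ioi i1 i2]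
    calc _ ≤ (n : ℝ) ^ D + (n : ℝ) ^ D * (2 * B) := add_le_add b1 b2
      _ = _ := by ring

lemma factorial_bound (n D : ℕ) (hD : 1 ≤ D) (hDn : D ≤ n) :
    ((D - 1).factorial : ℝ)⁻¹ * (n : ℝ) ^ D ≤ 6 ^ n := by
  have h1 : (n : ℝ) ^ D / (D.factorial : ℝ) ≤ Real.exp n := by
    have := Real.sum_le_exp_of_nonneg (x := (n : ℝ)) (Nat.cast_nonneg n) (D + 1)
    refine le_trans ?_ this
    refine Finset.single_le_sum (f := fun i => (n : ℝ) ^ i / (i.factorial : ℝ))
      (fun i _ => by positivity) (Finset.mem_range.2 (Nat.lt_succ_self D))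
  have h2 : (D.factorial : ℝ) = D * ((D - 1).factorial : ℝ) := by
    obtain ⟨d, rfl⟩ := Nat.exists_eq_add_of_le' hD
    rw [Nat.factorial_succ]
    simp
  have hf : (0 : ℝ) < (D - 1).factorial := by exact_mod_cast Nat.factorial_pos _
  have hDp : (0 : ℝ) < D := by exact_mod_cast hD
  have h3 : ((D - 1).factorial : ℝ)⁻¹ * (n : ℝ) ^ D = D * ((n : ℝ) ^ D / (D.factorial : ℝ)) := by
    rw [h2]; field_simp
  rw [h3]
  have h4 : (D : ℝ) ≤ 2 ^ n := by
    have : D < 2 ^ D := Nat.lt_two_pow_self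
    have h5 : 2 ^ D ≤ 2 ^ n := Nat.pow_le_pow_right (by norm_num) hDn
    exact_mod_cast (this.le.trans h5)
  have h5 : Real.exp n ≤ 3 ^ n := by
    have e : Real.exp (n : ℝ) = Real.exp 1 ^ n := by
      rw [← Real.exp_nat_mul, mul_one]
    rw [e]
    have := Real.exp_one_lt_d9
    exact pow_le_pow_left₀ (Real.exp_pos _).le (by linarith) n
  calc (D : ℝ) * ((n : ℝ) ^ D / (D.factorial : ℝ)) ≤ 2 ^ n * 3 ^ n :=
        mul_le_mul h4 (h1.trans h5) (by positivity) (by positivity)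
    _ = 6 ^ n := by rw [← mul_pow]; norm_num

theorem main (hFB : StmtFB) (hKT : StmtKT) : StmtEX := by
  refine ⟨3120, by norm_num, 28, ?_⟩
  intro n hn μ _ hμ1 hμ σ hσ1 hσn hfr u₀ ε₀ hε₀ hgap τ hτ hτ1
  have hn1 : 1 ≤ n := by omega
  have hN : (0 : ℝ) < n := by exact_mod_cast hn1
  have hN28 : (28 : ℝ) ≤ n := by exact_mod_cast hn
  have hσ0 : 0 ≤ σ := by linarith
  set A : ℝ := 6 * 4 ^ n with hA
  have hA0 : 0 ≤ A := by positivity
  set P := law μ with hPdef
  -- the exponent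
  set D : ℕ := 2 * ((n + 7) / 8) with hDdef
  have hDeven : Even D := even_two_mul _
  have hd1 : n ≤ 8 * ((n + 7) / 8) := by omega
  have hd2 : 8 * ((n + 7) / 8) ≤ n + 7 := by omega
  have hD4 : (n : ℝ) / 4 ≤ D := by
    have : (n : ℝ) ≤ 8 * (((n + 7) / 8 : ℕ) : ℝ) := by exact_mod_cast hd1
    rw [hDdef]; push_cast at this ⊢; linarith
  have hDle : (D : ℝ) ≤ n / 4 + 2 := by
    have : 8 * (((n + 7) / 8 : ℕ) : ℝ) ≤ n + 7 := by exact_mod_cast hd2
    rw [hDdef]; push_cast at this ⊢; linarith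
  have hD1 : 1 ≤ D := by omega
  have hDn : D ≤ n := by omega
  have hβ : (D : ℝ) + 1 / 2 ≤ σ - n / 2 := by linarith
  have hdec : ∀ l : ℝ, (n : ℝ) ≤ l → ‖charFun P l‖ ≤
      (A * 10 ^ n) * ((n : ℝ) / l) ^ (σ - n / 2) := fun l hl =>
    decay hFB hn1 μ hμ1 hμ A σ hA0 hσ0 hσn hfr l hl
  obtain ⟨hint, hbd⟩ := moment hn1 P (law_univ μ hμ1) (A * 10 ^ n) (σ - n / 2) (by positivity) D
    hD1 hβ hdec
  have hPgap : P {u | |u - u₀| < ε₀} = 0 := by
    rw [hPdef, law, Measure.map_apply inner_meas]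
    · exact hgap
    · exact (isOpen_lt (by fun_prop) continuous_const).measurableSet
  have hk := hKT P inferInstance u₀ ε₀ hε₀ hPgap D hD1 hDeven hint
  have hk2 : ∫ u, (|u - u₀| ^ D)⁻¹ ∂P ≤ 3120 ^ n := by
    refine hk.trans ?_
    calc ((D - 1).factorial : ℝ)⁻¹ * ∫ l in Ioi (0 : ℝ), l ^ (D - 1) * ‖charFun P l‖
        ≤ ((D - 1).factorial : ℝ)⁻¹ * ((n : ℝ) ^ D * (1 + 2 * (A * 10 ^ n))) :=
          mul_le_mul_of_nonneg_left hbd (by positivity)
      _ = (((D - 1).factorial : ℝ)⁻¹ * (n : ℝ) ^ D) * (1 + 2 * (A * 10 ^ n)) := by ring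
      _ ≤ 6 ^ n * (13 ^ n * 40 ^ n) := by
          apply mul_le_mul (factorial_bound n D hD1 hDn) _ (by positivity) (by positivity)
          have e : A * 10 ^ n = 6 * 40 ^ n := by
            rw [hA, mul_assoc, ← mul_pow]; norm_num
          rw [e]
          have h1 : (1 : ℝ) ≤ 40 ^ n := one_le_pow₀ (by norm_num)
          have h2 : (13 : ℝ) ≤ 13 ^ n := by
            calc (13 : ℝ) = 13 ^ 1 := (pow_one _).symm
              _ ≤ 13 ^ n := pow_le_pow_right₀ (by norm_num) hn1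
          calc 1 + 2 * (6 * (40 : ℝ) ^ n) ≤ 13 * 40 ^ n := by linarith
            _ ≤ 13 ^ n * 40 ^ n := mul_le_mul_of_nonneg_right h2 (by positivity)
      _ = 3120 ^ n := by rw [← mul_pow, ← mul_pow]; norm_num
  -- Markov
  have hae : ∀ᵐ u ∂P, ε₀ ≤ |u - u₀| := by
    rw [ae_iff]
    have : {u : ℝ | ¬ ε₀ ≤ |u - u₀|} = {u | |u - u₀| < ε₀} := by ext u; simp
    rw [this]; exact hPgap
  have hi : Integrable (fun u : ℝ => (|u - u₀| ^ D)⁻¹) P := by
    refine (integrable_const ((ε₀ ^ D)⁻¹)).mono' ?_ ?_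
    · apply Measurable.aestronglyMeasurable
      apply Measurable.inv
      apply Measurable.pow_const
      apply Continuous.measurable
      fun_prop
    · filter_upwards [hae] with u hu
      rw [Real.norm_eq_abs, abs_of_nonneg (by positivity)]
      apply inv_anti₀ (by positivity)
      exact pow_le_pow_left₀ hε₀.le hu D
  have hset : MeasurableSet {u : ℝ | |u - u₀| ≤ τ} :=
    (isClosed_le (by fun_prop) continuous_const).measurableSet
  have e1 : (μ.prod μ) {p : V n × V n | |⟪p.1, p.2⟫ - u₀| ≤ τ} = P {u | |u - u₀| ≤ τ} := by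
    rw [hPdef, law, Measure.map_apply inner_meas hset]
    rfl
  rw [e1]
  have h1 : P {u | |u - u₀| ≤ τ} ≤ ∫⁻ u, ENNReal.ofReal (τ ^ D * (|u - u₀| ^ D)⁻¹) ∂P := by
    calc P {u | |u - u₀| ≤ τ} = ∫⁻ u in {u | |u - u₀| ≤ τ}, 1 ∂P := by
          rw [setLIntegral_const, one_mul]
      _ ≤ ∫⁻ u in {u | |u - u₀| ≤ τ}, ENNReal.ofReal (τ ^ D * (|u - u₀| ^ D)⁻¹) ∂P := by
          apply lintegral_mono_ae
          filter_upwards [ae_restrict_mem hset, ae_restrict_of_ae hae] with u hu hu2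
          rw [← ENNReal.ofReal_one]
          apply ENNReal.ofReal_le_ofReal
          have hpos : 0 < |u - u₀| := hε₀.trans_le hu2
          rw [← div_eq_mul_inv, le_div_iff₀ (by positivity), one_mul]
          exact pow_le_pow_left₀ hpos.le hu D
      _ ≤ ∫⁻ u, ENNReal.ofReal (τ ^ D * (|u - u₀| ^ D)⁻¹) ∂P := setLIntegral_le_lintegral _ _
  refine h1.trans ?_
  rw [← ofReal_integral_eq_lintegral_ofReal (hi.const_mul _)
    (Filter.Eventually.of_forall fun u => by positivity), integral_const_mul]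
  apply ENNReal.ofReal_le_ofReal
  have h2 : τ ^ D ≤ τ ^ ((n : ℝ) / 4) := by
    rw [← Real.rpow_natCast]
    exact Real.rpow_le_rpow_of_exponent_ge hτ hτ1 hD4
  calc τ ^ D * ∫ u, (|u - u₀| ^ D)⁻¹ ∂P ≤ τ ^ ((n : ℝ) / 4) * 3120 ^ n :=
        mul_le_mul h2 hk2 (integral_nonneg fun u => by positivity) (by positivity)
    _ = 3120 ^ n * τ ^ ((n : ℝ) / 4) := mul_comm _ _

end Pool.Agent.L0h37.AN.EX
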