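import Pool.Agent.L0h37.AN.Defs

/-!
# F1: the Fourier transform of a measure on the sphere is locally constant at scale `√n`
-/

set_option autoImplicit false

open MeasureTheory Metric Set Filter Topology
open scoped ENNReal NNReal RealInnerProductSpace

namespace Pool.Agent.L0h37.AN.F1

variable {n : ℕ}

/-- the Gaussian weight centred at `ξ` -/
noncomputable def w (n : ℕ) (ξ η : V n) : ℝ := Real.exp (-(‖η - ξ‖ ^ 2 / (2 * n)))

lemma w_pos (ξ η : V n) : 0 < w n ξ η := Real.exp_pos _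

lemma w_eq (ξ : V n) : (fun v => w n ξ (v + ξ)) =
    fun v : V n => Real.exp (-(1 / (2 * (n : ℝ))) * ‖v‖ ^ 2) := by
  funext v
  unfold w
  rw [add_sub_cancel_right]
  congr 1
  ring

lemma gauss_int (b : ℝ) (hb : 0 < b) :
    Integrable (fun v : V n => Real.exp (-b * ‖v‖ ^ 2)) := by
  have h := (GaussianFourier.integrable_cexp_neg_mul_sq_norm_add (V := V n) (b := (b : ℂ))
    (by simpa using hb) 0 0).norm
  refine h.congr (Filter.Eventually.of_forall fun v => ?_)
  simp only [Complex.norm_exp]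
  congr 1
  simp
  left
  norm_cast

lemma w_int (hn : 1 ≤ n) (ξ : V n) : Integrable (w n ξ) := by
  have hn' : (0 : ℝ) < n := by exact_mod_cast hn
  have h : Integrable (fun v => w n ξ (v + ξ)) := by
    rw [w_eq]; exact gauss_int _ (by positivity)
  have h2 := h.comp_sub_right ξ
  simpa using h2

lemma w_mass (hn : 1 ≤ n) (ξ : V n) :
    ∫ η, w n ξ η = (2 * Real.pi * n) ^ ((n : ℝ) / 2) := by
  have hn' : (0 : ℝ) < n := by exact_mod_cast hn
  rw [← integral_add_right_eq_self _ ξ, w_eq,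
    GaussianFourier.integral_rexp_neg_mul_sq_norm (by positivity), finrank_euclideanSpace_fin]
  congr 1
  field_simp

/-- Gaussian Fourier integral at a unit vector -/
lemma gint (hn : 1 ≤ n) (y ξ : V n) (hy : ‖y‖ = 1) :
    ∫ η : V n, (w n ξ η : ℂ) * Complex.exp (⟪y, η⟫ * Complex.I) =
      (((2 * Real.pi * n) ^ ((n : ℝ) / 2) * Real.exp (-((n : ℝ) / 2)) : ℝ) : ℂ) *
        Complex.exp (⟪y, ξ⟫ * Complex.I) := by
  have hn' : (0 : ℝ) < n := by exact_mod_cast hn
  rw [← integral_add_right_eq_self _ ξ]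
  have e : ∀ v : V n, (w n ξ (v + ξ) : ℂ) * Complex.exp (⟪y, v + ξ⟫ * Complex.I) =
      Complex.exp (-((1 / (2 * (n : ℝ)) : ℝ) : ℂ) * ‖v‖ ^ 2 + Complex.I * ⟪y, v⟫) *
        Complex.exp (⟪y, ξ⟫ * Complex.I) := by
    intro v
    have := congrFun (w_eq ξ) v
    rw [this, inner_add_right, Complex.ofReal_exp, ← Complex.exp_add, ← Complex.exp_add]
    congr 1
    push_cast
    ring
  simp_rw [e]
  rw [integral_mul_const]
  congr 1
  rw [GaussianFourier.integral_cexp_neg_mul_sq_norm_add (by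
    rw [Complex.ofReal_re]; positivity), finrank_euclideanSpace_fin, hy]
  rw [Complex.ofReal_mul, Complex.ofReal_cpow (by positivity), Complex.ofReal_exp]
  congr 1
  · congr 1
    · push_cast; field_simp
    · push_cast; ring
  · congr 1
    rw [Complex.I_sq]
    push_cast
    field_simp
    ring

/-- Fubini -/
lemma fub (hn : 1 ≤ n) (μ : Measure (V n)) [IsFiniteMeasure μ] (hμ : μ {y | ‖y‖ ≠ 1} = 0)
    (ξ : V n) :
    ∫ η : V n, (w n ξ η : ℂ) * charFun μ η =
      (((2 * Real.pi * n) ^ ((n : ℝ) / 2) * Real.exp (-((n : ℝ) / 2)) : ℝ) : ℂ) *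
        charFun μ ξ := by
  have hint : Integrable (fun p : V n × V n => (w n ξ p.1 : ℂ) *
      Complex.exp (⟪p.2, p.1⟫ * Complex.I)) ((volume : Measure (V n)).prod μ) := by
    have h1 : Integrable (fun p : V n × V n => w n ξ p.1 * (1 : ℝ))
        ((volume : Measure (V n)).prod μ) :=
      Integrable.mul_prod (w_int hn ξ) (integrable_const (1 : ℝ))
    refine h1.mono' ?_ (Filter.Eventually.of_forall fun p => ?_)
    · apply Continuous.aestronglyMeasurable
      unfold w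
      fun_prop
    · rw [norm_mul, Complex.norm_exp_ofReal_mul_I, mul_one, mul_one, Complex.norm_real,
        Real.norm_eq_abs, abs_of_pos (w_pos _ _)]
  have e1 : ∀ η : V n, (w n ξ η : ℂ) * charFun μ η =
      ∫ y, (w n ξ η : ℂ) * Complex.exp (⟪y, η⟫ * Complex.I) ∂μ := by
    intro η
    rw [charFun_apply, integral_const_mul]
  simp_rw [e1]
  rw [integral_integral_swap hint, charFun_apply, ← integral_const_mul]
  apply integral_congr_ae
  have : ∀ᵐ y ∂μ, ‖y‖ = 1 := by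
    rw [ae_iff]; exact hμ
  filter_upwards [this] with y hy
  exact gint hn y ξ hy

/-- Cauchy-Schwarz -/
lemma cs {Ω : Type*} [MeasurableSpace Ω] (m : Measure Ω) (w f : Ω → ℝ) (hw : ∀ x, 0 ≤ w x)
    (h0 : Integrable w m) (h1 : Integrable (fun x => w x * f x) m)
    (h2 : Integrable (fun x => w x * f x ^ 2) m) (hW : 0 < ∫ x, w x ∂m) :
    (∫ x, w x * f x ∂m) ^ 2 ≤ (∫ x, w x ∂m) * ∫ x, w x * f x ^ 2 ∂m := by
  set W := ∫ x, w x ∂m
  set M := ∫ x, w x * f x ∂m
  have key : 0 ≤ ∫ x, w x * (f x - M / W) ^ 2 ∂m :=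
    integral_nonneg fun x => mul_nonneg (hw x) (sq_nonneg _)
  have e : ∫ x, w x * (f x - M / W) ^ 2 ∂m =
      ∫ x, w x * f x ^ 2 ∂m - 2 * (M / W) * M + (M / W) ^ 2 * W := by
    have : ∀ x, w x * (f x - M / W) ^ 2 =
        w x * f x ^ 2 - 2 * (M / W) * (w x * f x) + (M / W) ^ 2 * w x := by
      intro x; ring
    simp_rw [this]
    have i1 : Integrable (fun x => 2 * (M / W) * (w x * f x)) m := h1.const_mul _
    have i0 : Integrable (fun x => (M / W) ^ 2 * w x) m := h0.const_mul _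
    have i2 : Integrable (fun x => w x * f x ^ 2 - 2 * (M / W) * (w x * f x)) m := h2.sub i1
    rw [integral_add i2 i0, integral_sub h2 i1, integral_const_mul, integral_const_mul]
  rw [e] at key
  have : M ^ 2 / W ≤ ∫ x, w x * f x ^ 2 ∂m := by
    have e2 : M ^ 2 / W = 2 * (M / W) * M - (M / W) ^ 2 * W := by
      field_simp
      ring
    linarith
  rw [div_le_iff₀ hW] at this
  linarith

theorem main : StmtF1 := by
  intro n hn μ _ hμ ξ
  have hn' : (0 : ℝ) < n := by exact_mod_cast hn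
  set C : ℝ := (2 * Real.pi * n) ^ ((n : ℝ) / 2) with hC
  have hCpos : 0 < C := by positivity
  set E : ℝ := Real.exp (-((n : ℝ) / 2)) with hE
  have hEpos : 0 < E := Real.exp_pos _
  have h0 := fub hn μ hμ ξ
  rw [← hC, ← hE] at h0
  have hb : ∀ η, ‖charFun μ η‖ ≤ μ.real univ := fun η => norm_charFun_le η
  have hmeas : Measurable (fun η : V n => ‖charFun μ η‖) :=
    (measurable_charFun (μ := μ)).norm
  have hi1 : Integrable (fun η => w n ξ η * ‖charFun μ η‖) := by
    refine ((w_int hn ξ).mul_const (μ.real univ)).mono' ?_ (Filter.Eventually.of_forall fun η => ?_)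
    · exact (w_int hn ξ).aestronglyMeasurable.mul hmeas.aestronglyMeasurable
    · rw [norm_mul, Real.norm_eq_abs, abs_of_pos (w_pos _ _), norm_norm]
      exact mul_le_mul_of_nonneg_left (hb η) (w_pos _ _).le
  have hi2 : Integrable (fun η => w n ξ η * ‖charFun μ η‖ ^ 2) := by
    refine ((w_int hn ξ).mul_const ((μ.real univ) ^ 2)).mono' ?_
      (Filter.Eventually.of_forall fun η => ?_)
    · exact (w_int hn ξ).aestronglyMeasurable.mul (hmeas.pow_const 2).aestronglyMeasurable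
    · rw [norm_mul, Real.norm_eq_abs, abs_of_pos (w_pos _ _), norm_pow, norm_norm]
      exact mul_le_mul_of_nonneg_left (pow_le_pow_left₀ (norm_nonneg _) (hb η) 2) (w_pos _ _).le
  have h1 : C * E * ‖charFun μ ξ‖ ≤ ∫ η, w n ξ η * ‖charFun μ η‖ := by
    have : ‖∫ η : V n, (w n ξ η : ℂ) * charFun μ η‖ ≤ ∫ η, w n ξ η * ‖charFun μ η‖ := by
      refine (norm_integral_le_integral_norm _).trans_eq ?_
      apply integral_congr_ae
      refine Filter.Eventually.of_forall fun η => ?_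
      simp only
      rw [norm_mul, Complex.norm_real, Real.norm_eq_abs, abs_of_pos (w_pos _ _)]
    rw [h0, norm_mul, Complex.norm_real, Real.norm_eq_abs,
      abs_of_pos (mul_pos hCpos hEpos)] at this
    exact this
  have hmass : ∫ η, w n ξ η = C := w_mass hn ξ
  have h2 := cs (volume : Measure (V n)) (w n ξ) (fun η => ‖charFun μ η‖)
    (fun x => (w_pos _ _).le) (w_int hn ξ) hi1 hi2 (by rw [hmass]; exact hCpos)
  rw [hmass] at h2
  have h3 : (C * E * ‖charFun μ ξ‖) ^ 2 ≤ C * ∫ η, w n ξ η * ‖charFun μ η‖ ^ 2 :=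
    (pow_le_pow_left₀ (by positivity) h1 2).trans h2
  have e1 : ∫ η : V n, ‖charFun μ η‖ ^ 2 * Real.exp (-(‖η - ξ‖ ^ 2 / (2 * n))) =
      ∫ η, w n ξ η * ‖charFun μ η‖ ^ 2 := by
    apply integral_congr_ae
    refine Filter.Eventually.of_forall fun η => ?_
    simp only [w]
    ring
  rw [e1]
  set J := ∫ η, w n ξ η * ‖charFun μ η‖ ^ 2
  have e2 : (2 * Real.pi * n) ^ (-((n : ℝ) / 2)) = C⁻¹ := by
    rw [Real.rpow_neg (by positivity)]
  have e3 : Real.exp (n : ℝ) * E ^ 2 = 1 := by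
    rw [hE, ← Real.exp_nat_mul, ← Real.exp_add]
    rw [show (n : ℝ) + ((2 : ℕ) : ℝ) * (-((n : ℝ) / 2)) = 0 by push_cast; ring, Real.exp_zero]
  rw [e2]
  have h4 : C ^ 2 * E ^ 2 * ‖charFun μ ξ‖ ^ 2 ≤ C * J := by
    calc C ^ 2 * E ^ 2 * ‖charFun μ ξ‖ ^ 2 = (C * E * ‖charFun μ ξ‖) ^ 2 := by ring
      _ ≤ C * J := h3
  have h5 : C * E ^ 2 * ‖charFun μ ξ‖ ^ 2 ≤ J := by
    have : C * (C * E ^ 2 * ‖charFun μ ξ‖ ^ 2) ≤ C * J := by
      calc C * (C * E ^ 2 * ‖charFun μ ξ‖ ^ 2) = C ^ 2 * E ^ 2 * ‖charFun μ ξ‖ ^ 2 := by ring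
        _ ≤ C * J := h4
    exact le_of_mul_le_mul_left this hCpos
  calc ‖charFun μ ξ‖ ^ 2 = (Real.exp (n : ℝ) * E ^ 2) * ‖charFun μ ξ‖ ^ 2 := by rw [e3, one_mul]
    _ = Real.exp (n : ℝ) * C⁻¹ * (C * E ^ 2 * ‖charFun μ ξ‖ ^ 2) := by
        field_simp
    _ ≤ Real.exp (n : ℝ) * C⁻¹ * J := by
        apply mul_le_mul_of_nonneg_left h5
        positivity

end Pool.Agent.L0h37.AN.F1
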