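import Pool.Agent.L0h37.AN.Defs

/-!
# F2: Gaussian averages of `|μ̂|²`
-/

set_option autoImplicit false

open MeasureTheory Metric Set Filter Topology
open scoped ENNReal NNReal RealInnerProductSpace

namespace Pool.Agent.L0h37.AN.F2

variable {n : ℕ}

lemma gauss_int (b : ℝ) (hb : 0 < b) :
    Integrable (fun v : V n => Real.exp (-b * ‖v‖ ^ 2)) := by
  have h := (GaussianFourier.integrable_cexp_neg_mul_sq_norm_add (V := V n) (b := (b : ℂ))
    (by simpa using hb) 0 0).norm
  refine h.congr (Filter.Eventually.of_forall fun v => ?_)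
  simp only [Complex.norm_exp]
  congr 1
  simp
  left
  norm_cast

/-- Gaussian Fourier integral -/
lemma gint (b : ℝ) (hb : 0 < b) (z : V n) :
    ∫ η : V n, ((Real.exp (-b * ‖η‖ ^ 2) : ℝ) : ℂ) * Complex.exp (⟪z, η⟫ * Complex.I) =
      (((Real.pi / b) ^ ((n : ℝ) / 2) * Real.exp (-(1 / (4 * b)) * ‖z‖ ^ 2) : ℝ) : ℂ) := by
  have e : ∀ v : V n, ((Real.exp (-b * ‖v‖ ^ 2) : ℝ) : ℂ) * Complex.exp (⟪z, v⟫ * Complex.I) =
      Complex.exp (-((b : ℝ) : ℂ) * ‖v‖ ^ 2 + Complex.I * ⟪z, v⟫) := by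
    intro v
    rw [Complex.ofReal_exp, ← Complex.exp_add]
    congr 1
    push_cast
    ring
  simp_rw [e]
  rw [GaussianFourier.integral_cexp_neg_mul_sq_norm_add (by
    rw [Complex.ofReal_re]; exact hb), finrank_euclideanSpace_fin]
  rw [Complex.ofReal_mul, Complex.ofReal_cpow (by positivity), Complex.ofReal_exp]
  congr 1
  · congr 1
    · push_cast; ring
    · push_cast; ring
  · congr 1
    rw [Complex.I_sq]
    push_cast
    field_simp

/-- `|μ̂|²` as a double integral -/
lemma sq_eq (μ : Measure (V n)) [IsFiniteMeasure μ] (η : V n) :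
    ((‖charFun μ η‖ ^ 2 : ℝ) : ℂ) =
      ∫ p : V n × V n, Complex.exp (⟪p.1 - p.2, η⟫ * Complex.I) ∂(μ.prod μ) := by
  have h1 : ((‖charFun μ η‖ ^ 2 : ℝ) : ℂ) = charFun μ η * charFun μ (-η) := by
    rw [charFun_neg, Complex.mul_conj, Complex.normSq_eq_norm_sq]
  rw [h1, charFun_apply, charFun_apply, ← integral_prod_mul]
  apply integral_congr_ae
  refine Filter.Eventually.of_forall fun p => ?_
  simp only
  rw [← Complex.exp_add]
  congr 1
  rw [inner_sub_left, inner_neg_right]
  push_cast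
  ring

theorem main : StmtF2 := by
  intro n μ _ b hb
  apply Complex.ofReal_injective
  rw [← integral_complex_ofReal, Complex.ofReal_mul, ← integral_complex_ofReal]
  have hint : Integrable (fun p : V n × (V n × V n) => ((Real.exp (-b * ‖p.1‖ ^ 2) : ℝ) : ℂ) *
      Complex.exp (⟪p.2.1 - p.2.2, p.1⟫ * Complex.I)) ((volume : Measure (V n)).prod (μ.prod μ)) := by
    have h1 : Integrable (fun p : V n × (V n × V n) => Real.exp (-b * ‖p.1‖ ^ 2) * (1 : ℝ))
        ((volume : Measure (V n)).prod (μ.prod μ)) :=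
      Integrable.mul_prod (gauss_int b hb) (integrable_const (1 : ℝ))
    refine h1.mono' ?_ (Filter.Eventually.of_forall fun p => ?_)
    · apply Continuous.aestronglyMeasurable
      fun_prop
    · rw [norm_mul, Complex.norm_exp_ofReal_mul_I, mul_one, mul_one, Complex.norm_real,
        Real.norm_eq_abs, abs_of_pos (Real.exp_pos _)]
  have e1 : ∀ η : V n, ((‖charFun μ η‖ ^ 2 * Real.exp (-b * ‖η‖ ^ 2) : ℝ) : ℂ) =
      ∫ p : V n × V n, ((Real.exp (-b * ‖η‖ ^ 2) : ℝ) : ℂ) *
        Complex.exp (⟪p.1 - p.2, η⟫ * Complex.I) ∂(μ.prod μ) := by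
    intro η
    rw [Complex.ofReal_mul, sq_eq, integral_const_mul, mul_comm]
  simp_rw [e1]
  rw [integral_integral_swap hint, ← integral_const_mul]
  apply integral_congr_ae
  refine Filter.Eventually.of_forall fun p => ?_
  simp only
  rw [gint b hb (p.1 - p.2), Complex.ofReal_mul]

end Pool.Agent.L0h37.AN.F2
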