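import Pool.Agent.L0h37.AN.F1

/-!
# FB: decay of the Fourier transform on large spheres, averaged over the measure
-/

set_option autoImplicit false

open MeasureTheory Metric Set Filter Topology
open scoped ENNReal NNReal RealInnerProductSpace

namespace Pool.Agent.L0h37.AN.FB

open Pool.Agent.L0h37.AN.F1

variable {n : ℕ}

/-- the numerical constant -/
lemma num (n : ℕ) (hn : 1 ≤ n) (σ : ℝ) (hσ : σ ≤ n) :
    4 * Real.exp (5 / 4 * n) * (2 : ℝ) ^ (σ / 2) * 2 ^ n ≤ 100 ^ n := by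
  have hn' : (0 : ℝ) < n := by exact_mod_cast hn
  have h1 : Real.exp (5 / 4) ≤ 3.6 := by
    have h : Real.exp (5 / 4) ^ 4 ≤ 3.6 ^ 4 := by
      rw [← Real.exp_nat_mul]
      have e : ((4 : ℕ) : ℝ) * (5 / 4) = ((5 : ℕ) : ℝ) * 1 := by norm_num
      rw [e, Real.exp_nat_mul]
      have := Real.exp_one_lt_d9
      calc Real.exp 1 ^ 5 ≤ 2.7182818286 ^ 5 := pow_le_pow_left₀ (Real.exp_pos _).le this.le 5
        _ ≤ 3.6 ^ 4 := by norm_num
    exact le_of_pow_le_pow_left₀ (by norm_num) (by norm_num) h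
  have h2 : Real.exp (5 / 4 * n) ≤ 3.6 ^ n := by
    rw [mul_comm, Real.exp_nat_mul]
    exact pow_le_pow_left₀ (Real.exp_pos _).le h1 n
  have h3 : (2 : ℝ) ^ (σ / 2) ≤ 2 ^ n := by
    rw [← Real.rpow_natCast]
    apply Real.rpow_le_rpow_of_exponent_le (by norm_num)
    linarith
  have h4 : (4 : ℝ) ≤ 4 ^ n := by
    calc (4 : ℝ) = 4 ^ 1 := (pow_one _).symm
      _ ≤ 4 ^ n := pow_le_pow_right₀ (by norm_num) hn
  calc 4 * Real.exp (5 / 4 * n) * (2 : ℝ) ^ (σ / 2) * 2 ^ n
      ≤ 4 ^ n * 3.6 ^ n * 2 ^ n * 2 ^ n := by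
        gcongr
    _ = (4 * 3.6 * 2 * 2) ^ n := by rw [mul_pow, mul_pow, mul_pow]
    _ ≤ 100 ^ n := pow_le_pow_left₀ (by norm_num) (by norm_num) n

/-- the power identity -/
lemma powers (N L σ : ℝ) (hN : 0 < N) (hL : 0 < L) :
    Real.exp N * (2 * Real.pi * N) ^ (-(N / 2)) *
      (Real.exp (N / 4) * ((L ^ 2 / (4 * N)) ^ (-(σ / 2)) * (2 * N ^ (σ / 2)))) *
      ((Real.pi / (N / (8 * L ^ 2))) ^ (N / 2) *
        ((1 / (4 * (N / (8 * L ^ 2)))) ^ (-(σ / 2)) * (2 * N ^ (σ / 2)))) =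
    4 * Real.exp (5 / 4 * N) * (2 : ℝ) ^ (σ / 2) * (2 : ℝ) ^ N * (N / L) ^ (2 * σ - N) := by
  have hpi := Real.pi_pos
  have e1 : Real.log (2 * Real.pi * N) = Real.log 2 + Real.log Real.pi + Real.log N := by
    rw [Real.log_mul (by positivity) (by positivity), Real.log_mul (by positivity) (by positivity)]
  have e2 : Real.log (L ^ 2 / (4 * N)) = 2 * Real.log L - 2 * Real.log 2 - Real.log N := by
    rw [Real.log_div (by positivity) (by positivity), Real.log_mul (by positivity) (by positivity),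
      Real.log_pow, show (4 : ℝ) = 2 ^ 2 by norm_num, Real.log_pow]
    push_cast; ring
  have e3 : Real.log (Real.pi / (N / (8 * L ^ 2))) =
      Real.log Real.pi - Real.log N + 3 * Real.log 2 + 2 * Real.log L := by
    rw [Real.log_div (by positivity) (by positivity), Real.log_div (by positivity) (by positivity),
      Real.log_mul (by positivity) (by positivity),
      Real.log_pow, show (8 : ℝ) = 2 ^ 3 by norm_num, Real.log_pow]
    push_cast; ring
  have e4 : Real.log (1 / (4 * (N / (8 * L ^ 2)))) =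
      Real.log 2 + 2 * Real.log L - Real.log N := by
    have : 1 / (4 * (N / (8 * L ^ 2))) = 2 * L ^ 2 / N := by field_simp; norm_num
    rw [this, Real.log_div (by positivity) (by positivity),
      Real.log_mul (by positivity) (by positivity), Real.log_pow]
    push_cast; ring
  have e5 : Real.log (N / L) = Real.log N - Real.log L :=
    Real.log_div (by positivity) (by positivity)
  rw [Real.rpow_def_of_pos (show 0 < 2 * Real.pi * N by positivity),
    Real.rpow_def_of_pos (show 0 < L ^ 2 / (4 * N) by positivity),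
    Real.rpow_def_of_pos (show 0 < Real.pi / (N / (8 * L ^ 2)) by positivity),
    Real.rpow_def_of_pos (show 0 < 1 / (4 * (N / (8 * L ^ 2))) by positivity),
    Real.rpow_def_of_pos (show 0 < N / L by positivity),
    Real.rpow_def_of_pos hN, Real.rpow_def_of_pos (show (0 : ℝ) < 2 by norm_num),
    Real.rpow_def_of_pos (show (0 : ℝ) < 2 by norm_num), e1, e2, e3, e4, e5]
  set a := Real.log 2
  set p := Real.log Real.pi
  set l := Real.log L
  set m := Real.log N
  have h1 : ∀ x1 x2 x3 x4 x5 x6 x7 x8 : ℝ,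
      Real.exp x1 * Real.exp x2 * (Real.exp x3 * (Real.exp x4 * (2 * Real.exp x5))) *
        (Real.exp x6 * (Real.exp x7 * (2 * Real.exp x8))) =
      4 * Real.exp (x1 + x2 + x3 + x4 + x5 + x6 + x7 + x8) := by
    intro x1 x2 x3 x4 x5 x6 x7 x8
    rw [Real.exp_add, Real.exp_add, Real.exp_add, Real.exp_add, Real.exp_add, Real.exp_add,
      Real.exp_add]
    ring
  have h2 : ∀ x1 x2 x3 x4 : ℝ,
      4 * Real.exp x1 * Real.exp x2 * Real.exp x3 * Real.exp x4 =
      4 * Real.exp (x1 + x2 + x3 + x4) := by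
    intro x1 x2 x3 x4
    rw [Real.exp_add, Real.exp_add, Real.exp_add]
    ring
  rw [h1, h2]
  congr 2
  ring

/-- the elementary inequality between the two Gaussians -/
lemma two_gauss (N L : ℝ) (hN : 0 < N) (hL : N ≤ L) (η z : V n) (hz : ‖z‖ = 1) :
    Real.exp (-(‖η - L • z‖ ^ 2 / (2 * N))) ≤
      Real.exp (N / 4) * Real.exp (-(N / (8 * L ^ 2)) * ‖η‖ ^ 2) *
        Real.exp (-(L ^ 2 / (4 * N)) * ‖z - L⁻¹ • η‖ ^ 2) := by
  have hLpos : 0 < L := hN.trans_le hL
  have e1 : L ^ 2 * ‖z - L⁻¹ • η‖ ^ 2 = ‖η - L • z‖ ^ 2 := by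
    have : η - L • z = -(L • (z - L⁻¹ • η)) := by
      rw [smul_sub, smul_smul, mul_inv_cancel₀ hLpos.ne', one_smul]
      abel
    rw [this, norm_neg, norm_smul, mul_pow, Real.norm_eq_abs, sq_abs]
  set D := ‖η - L • z‖ with hD
  have h1 : ‖η‖ ≤ D + L := by
    calc ‖η‖ = ‖(η - L • z) + L • z‖ := by rw [sub_add_cancel]
      _ ≤ ‖η - L • z‖ + ‖L • z‖ := norm_add_le _ _
      _ = D + L := by rw [norm_smul, hz, mul_one, Real.norm_eq_abs, abs_of_pos hLpos]
  have h2 : ‖η‖ ^ 2 ≤ 2 * D ^ 2 + 2 * L ^ 2 := by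
    have : ‖η‖ ^ 2 ≤ (D + L) ^ 2 := pow_le_pow_left₀ (norm_nonneg _) h1 2
    nlinarith [sq_nonneg (D - L)]
  rw [← Real.exp_add, ← Real.exp_add]
  apply Real.exp_le_exp.2
  have e2 : L ^ 2 / (4 * N) * ‖z - L⁻¹ • η‖ ^ 2 = D ^ 2 / (4 * N) := by
    rw [← e1]; ring
  have h3 : N / (8 * L ^ 2) * ‖η‖ ^ 2 ≤ D ^ 2 / (4 * N) + N / 4 := by
    calc N / (8 * L ^ 2) * ‖η‖ ^ 2 ≤ N / (8 * L ^ 2) * (2 * D ^ 2 + 2 * L ^ 2) :=
          mul_le_mul_of_nonneg_left h2 (by positivity)
      _ = D ^ 2 * (N / (4 * L ^ 2)) + N / 4 := by field_simp; ring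
      _ ≤ D ^ 2 * (1 / (4 * N)) + N / 4 := by
          have : N / (4 * L ^ 2) ≤ 1 / (4 * N) := by
            rw [div_le_div_iff₀ (by positivity) (by positivity)]
            nlinarith
          have := mul_le_mul_of_nonneg_left this (sq_nonneg D)
          linarith
      _ = D ^ 2 / (4 * N) + N / 4 := by ring
  have e3 : D ^ 2 / (2 * N) = D ^ 2 / (4 * N) + D ^ 2 / (4 * N) := by
    field_simp; ring
  nlinarith [e2, h3, e3]

theorem main (hLC : StmtLC) (hGB : StmtGB) (hF1 : StmtF1) (hF2 : StmtF2) : StmtFB := by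
  intro n hn μ _ hμ1 hμ A σ hA hσ0 hσn hfr lam hlam
  have hN : (0 : ℝ) < n := by exact_mod_cast hn
  have hL : 0 < lam := hN.trans_le hlam
  have hmass1 : μ.real univ ≤ 1 := by
    rw [measureReal_def]
    have := ENNReal.toReal_mono ENNReal.one_ne_top hμ1
    simpa using this
  have hae : ∀ᵐ z ∂μ, ‖z‖ = 1 := by rw [ae_iff]; exact hμ
  have hb : ∀ η, ‖charFun μ η‖ ≤ 1 := fun η => (norm_charFun_le η).trans hmass1
  have hmeas : Measurable (fun η : V n => ‖charFun μ η‖ ^ 2) :=
    (measurable_charFun (μ := μ)).norm.pow_const 2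
  -- the Frostman bound for Gaussians
  have hG : ∀ (a : ℝ) (q : V n), 0 < a →
      ∫ y, Real.exp (-a * ‖y - q‖ ^ 2) ∂μ ≤ A * (a ^ (-(σ / 2)) * (2 * (n : ℝ) ^ (σ / 2))) := by
    intro a q ha
    refine (hLC n μ inferInstance A σ hA hσ0 hfr a q ha).trans ?_
    rw [mul_assoc]
    exact mul_le_mul_of_nonneg_left (mul_le_mul_of_nonneg_left (hGB n σ hn hσ0 hσn)
      (Real.rpow_nonneg ha.le _)) hA
  -- integrability on the product
  have hw : Integrable (fun p : V n × V n => w n (lam • p.1) p.2) (μ.prod volume) := by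
    rw [integrable_prod_iff]
    · refine ⟨Filter.Eventually.of_forall fun z => ?_, ?_⟩
      · have h1 : Integrable (w n (lam • z)) := w_int hn (lam • z)
        exact h1
      have : (fun z : V n => ∫ η, ‖w n (lam • (z, η).1) (z, η).2‖) =
          fun z => (2 * Real.pi * n) ^ ((n : ℝ) / 2) := by
        funext z
        rw [← w_mass hn (lam • z)]
        apply integral_congr_ae
        refine Filter.Eventually.of_forall fun η => ?_
        simp only
        rw [Real.norm_eq_abs, abs_of_pos (w_pos _ _)]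
      rw [this]
      exact integrable_const _
    · apply Continuous.aestronglyMeasurable
      unfold w
      fun_prop
  have hF : Integrable (fun p : V n × V n => ‖charFun μ p.2‖ ^ 2 * w n (lam • p.1) p.2)
      (μ.prod volume) := by
    refine hw.mono' ?_ (Filter.Eventually.of_forall fun p => ?_)
    · exact ((hmeas.comp measurable_snd).aestronglyMeasurable).mul hw.aestronglyMeasurable
    · rw [norm_mul, Real.norm_eq_abs, Real.norm_eq_abs, abs_of_pos (w_pos _ _),
        abs_of_nonneg (by positivity)]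
      have : ‖charFun μ p.2‖ ^ 2 ≤ 1 := pow_le_one₀ (norm_nonneg _) (hb _)
      exact mul_le_of_le_one_left (w_pos _ _).le this
  set K : ℝ := Real.exp n * (2 * Real.pi * n) ^ (-((n : ℝ) / 2)) with hK
  have hKnn : 0 ≤ K := by positivity
  set b : ℝ := (n : ℝ) / (8 * lam ^ 2) with hbdef
  have hbpos : 0 < b := by positivity
  set G : ℝ := (lam ^ 2 / (4 * n)) ^ (-(σ / 2)) * (2 * (n : ℝ) ^ (σ / 2)) with hGdef
  have hGnn : 0 ≤ G := by positivity
  set H : ℝ := (1 / (4 * b)) ^ (-(σ / 2)) * (2 * (n : ℝ) ^ (σ / 2)) with hHdef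
  have hHnn : 0 ≤ H := by positivity
  -- step 1
  have hbd : Integrable (fun z => ‖charFun μ (lam • z)‖ ^ 2) μ := by
    refine (integrable_const (1 : ℝ)).mono' ?_ (Filter.Eventually.of_forall fun z => ?_)
    · exact (hmeas.comp (measurable_const_smul lam)).aestronglyMeasurable
    · rw [norm_pow, norm_norm]
      exact pow_le_one₀ (norm_nonneg _) (hb _)
  have s1 : ∫ z, ‖charFun μ (lam • z)‖ ^ 2 ∂μ ≤
      K * ∫ z, (∫ η, ‖charFun μ η‖ ^ 2 * w n (lam • z) η) ∂μ := by
    rw [← integral_const_mul]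
    have hi : Integrable (fun z => K * ∫ η, ‖charFun μ η‖ ^ 2 * w n (lam • z) η) μ :=
      hF.integral_prod_left.const_mul K
    refine integral_mono hbd hi fun z => ?_
    have := hF1 n hn μ inferInstance hμ (lam • z)
    exact this
  have s2 : ∫ z, (∫ η, ‖charFun μ η‖ ^ 2 * w n (lam • z) η) ∂μ =
      ∫ η, ∫ z, ‖charFun μ η‖ ^ 2 * w n (lam • z) η ∂μ := by
    have := integral_integral_swap (μ := μ) (ν := (volume : Measure (V n)))
      (f := fun z η => ‖charFun μ η‖ ^ 2 * w n (lam • z) η) hF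
    exact this
  -- step 3: the bound for `g`
  have s3 : ∀ η : V n, ∫ z, w n (lam • z) η ∂μ ≤
      Real.exp (n / 4) * Real.exp (-b * ‖η‖ ^ 2) * (A * G) := by
    intro η
    have hi : Integrable (fun z : V n =>
        Real.exp (-(lam ^ 2 / (4 * n)) * ‖z - lam⁻¹ • η‖ ^ 2)) μ := by
      refine (integrable_const (1 : ℝ)).mono' ?_ (Filter.Eventually.of_forall fun z => ?_)
      · apply Continuous.aestronglyMeasurable; fun_prop
      · rw [Real.norm_eq_abs, Real.abs_exp]
        apply Real.exp_le_one_iff.2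
        have : 0 ≤ lam ^ 2 / (4 * n) * ‖z - lam⁻¹ • η‖ ^ 2 := by positivity
        linarith
    calc ∫ z, w n (lam • z) η ∂μ
        ≤ ∫ z, Real.exp (n / 4) * Real.exp (-b * ‖η‖ ^ 2) *
            Real.exp (-(lam ^ 2 / (4 * n)) * ‖z - lam⁻¹ • η‖ ^ 2) ∂μ := by
          refine integral_mono_ae ?_ (hi.const_mul _) ?_
          · refine (integrable_const (1 : ℝ)).mono' ?_ (Filter.Eventually.of_forall fun z => ?_)
            · apply Continuous.aestronglyMeasurable; unfold w; fun_prop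
            · rw [Real.norm_eq_abs, abs_of_pos (w_pos _ _)]
              unfold w
              apply Real.exp_le_one_iff.2
              have : 0 ≤ ‖η - lam • z‖ ^ 2 / (2 * n) := by positivity
              linarith
          · filter_upwards [hae] with z hz
            exact two_gauss (n : ℝ) lam hN hlam η z hz
      _ = Real.exp (n / 4) * Real.exp (-b * ‖η‖ ^ 2) *
            ∫ z, Real.exp (-(lam ^ 2 / (4 * n)) * ‖z - lam⁻¹ • η‖ ^ 2) ∂μ := by
          rw [integral_const_mul]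
      _ ≤ Real.exp (n / 4) * Real.exp (-b * ‖η‖ ^ 2) * (A * G) := by
          apply mul_le_mul_of_nonneg_left _ (by positivity)
          exact hG _ _ (by positivity)
  have hgauss : Integrable (fun η : V n => ‖charFun μ η‖ ^ 2 * Real.exp (-b * ‖η‖ ^ 2)) := by
    refine (gauss_int b hbpos).mono' ?_ (Filter.Eventually.of_forall fun η => ?_)
    · exact hmeas.aestronglyMeasurable.mul (gauss_int b hbpos).aestronglyMeasurable
    · rw [norm_mul, Real.norm_eq_abs, Real.norm_eq_abs, Real.abs_exp,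
        abs_of_nonneg (by positivity)]
      have : ‖charFun μ η‖ ^ 2 ≤ 1 := pow_le_one₀ (norm_nonneg _) (hb _)
      exact mul_le_of_le_one_left (Real.exp_pos _).le this
  have s4 : ∫ η, ∫ z, ‖charFun μ η‖ ^ 2 * w n (lam • z) η ∂μ ≤
      Real.exp (n / 4) * (A * G) *
        ∫ η : V n, ‖charFun μ η‖ ^ 2 * Real.exp (-b * ‖η‖ ^ 2) := by
    rw [← integral_const_mul]
    refine integral_mono hF.integral_prod_right (hgauss.const_mul _) fun η => ?_
    simp only
    rw [integral_const_mul]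
    calc ‖charFun μ η‖ ^ 2 * ∫ z, w n (lam • z) η ∂μ
        ≤ ‖charFun μ η‖ ^ 2 * (Real.exp (n / 4) * Real.exp (-b * ‖η‖ ^ 2) * (A * G)) :=
          mul_le_mul_of_nonneg_left (s3 η) (by positivity)
      _ = Real.exp (n / 4) * (A * G) * (‖charFun μ η‖ ^ 2 * Real.exp (-b * ‖η‖ ^ 2)) := by ring
  -- step 4: the double integral
  have s5 : ∫ p, Real.exp (-(1 / (4 * b)) * ‖p.1 - p.2‖ ^ 2) ∂(μ.prod μ) ≤ A * H := by
    have hi : Integrable (fun p : V n × V n => Real.exp (-(1 / (4 * b)) * ‖p.1 - p.2‖ ^ 2))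
        (μ.prod μ) := by
      refine (integrable_const (1 : ℝ)).mono' ?_ (Filter.Eventually.of_forall fun z => ?_)
      · apply Continuous.aestronglyMeasurable; fun_prop
      · rw [Real.norm_eq_abs, Real.abs_exp]
        apply Real.exp_le_one_iff.2
        have : 0 ≤ 1 / (4 * b) * ‖z.1 - z.2‖ ^ 2 := by positivity
        linarith
    rw [integral_prod _ hi]
    have hAH : 0 ≤ A * H := mul_nonneg hA hHnn
    calc ∫ x, ∫ y, Real.exp (-(1 / (4 * b)) * ‖x - y‖ ^ 2) ∂μ ∂μ
        ≤ ∫ _x, A * H ∂μ := by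
          refine integral_mono hi.integral_prod_left (integrable_const _) fun x => ?_
          simp only
          have := hG (1 / (4 * b)) x (by positivity)
          simp_rw [norm_sub_rev x]
          exact this
      _ = μ.real univ * (A * H) := by rw [integral_const, smul_eq_mul]
      _ ≤ 1 * (A * H) := mul_le_mul_of_nonneg_right hmass1 hAH
      _ = A * H := one_mul _
  have s6 := hF2 n μ inferInstance b hbpos
  -- assembly
  have hpb : 0 ≤ (Real.pi / b) ^ ((n : ℝ) / 2) := by positivity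
  calc ∫ z, ‖charFun μ (lam • z)‖ ^ 2 ∂μ
      ≤ K * ∫ z, (∫ η, ‖charFun μ η‖ ^ 2 * w n (lam • z) η) ∂μ := s1
    _ ≤ K * (Real.exp (n / 4) * (A * G) * ((Real.pi / b) ^ ((n : ℝ) / 2) * (A * H))) := by
        apply mul_le_mul_of_nonneg_left _ hKnn
        rw [s2]
        refine s4.trans ?_
        apply mul_le_mul_of_nonneg_left _ (by positivity)
        rw [s6]
        exact mul_le_mul_of_nonneg_left s5 hpb
    _ = A ^ 2 * (K * (Real.exp (n / 4) * G) * ((Real.pi / b) ^ ((n : ℝ) / 2) * H)) := by ring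
    _ = A ^ 2 * (4 * Real.exp (5 / 4 * n) * (2 : ℝ) ^ (σ / 2) * (2 : ℝ) ^ (n : ℝ) *
          ((n : ℝ) / lam) ^ (2 * σ - n)) := by
        rw [hK, hGdef, hHdef, hbdef, powers (n : ℝ) lam σ hN hL]
    _ = A ^ 2 * ((4 * Real.exp (5 / 4 * n) * (2 : ℝ) ^ (σ / 2) * (2 : ℝ) ^ n) *
          ((n : ℝ) / lam) ^ (2 * σ - n)) := by
        rw [Real.rpow_natCast]
    _ ≤ A ^ 2 * (100 ^ n * ((n : ℝ) / lam) ^ (2 * σ - n)) := by
        apply mul_le_mul_of_nonneg_left _ (sq_nonneg A)
        exact mul_le_mul_of_nonneg_right (num n hn σ hσn) (by positivity)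
    _ = A ^ 2 * 100 ^ n * ((n : ℝ) / lam) ^ (2 * σ - n) := by ring

end Pool.Agent.L0h37.AN.FB
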