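import Pool.Agent.L0h37.AN.Defs

/-!
# FF: for almost every direction, compact sets with injective projection are null
-/

set_option autoImplicit false

open MeasureTheory Metric Set Filter Topology
open scoped ENNReal NNReal RealInnerProductSpace

namespace Pool.Agent.L0h37.AN.FF

variable {n : ℕ}

lemma Gr_cont : Continuous (fun q : V n × (V n × V n) => Gr (q.2.1 - q.2.2) q.1) := by
  unfold Gr
  fun_prop

lemma Gr_nonneg (v θ : V n) : 0 ≤ Gr v θ := by
  unfold Gr
  have h := abs_real_inner_le_norm v θ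
  have : ⟪v, θ⟫ ^ 2 ≤ (‖v‖ * ‖θ‖) ^ 2 := by
    rw [← sq_abs]
    exact pow_le_pow_left₀ (abs_nonneg _) h 2
  rw [mul_pow] at this
  linarith

/-- the incidence set -/
def T (n k i : ℕ) : Set (V n × (V n × V n)) :=
  {q | ‖q.2.1‖ ≤ 1 ∧ ‖q.2.2‖ ≤ 1 ∧ ‖q.2.1 - q.2.2‖ ≤ (1 / 2 : ℝ) ^ i ∧
    Gr (q.2.1 - q.2.2) q.1 ≤ ((1 / 2 : ℝ) ^ k) ^ 2}

lemma T_meas (k i : ℕ) : MeasurableSet (T n k i) := by
  apply IsClosed.measurableSet
  have h1 : IsClosed {q : V n × (V n × V n) | ‖q.2.1‖ ≤ 1} :=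
    isClosed_le (by fun_prop) continuous_const
  have h2 : IsClosed {q : V n × (V n × V n) | ‖q.2.2‖ ≤ 1} :=
    isClosed_le (by fun_prop) continuous_const
  have h3 : IsClosed {q : V n × (V n × V n) | ‖q.2.1 - q.2.2‖ ≤ (1 / 2 : ℝ) ^ i} :=
    isClosed_le (by fun_prop) continuous_const
  have h4 : IsClosed {q : V n × (V n × V n) |
      Gr (q.2.1 - q.2.2) q.1 ≤ ((1 / 2 : ℝ) ^ k) ^ 2} :=
    isClosed_le Gr_cont continuous_const
  exact h1.inter (h2.inter (h3.inter h4))

/-- the rescaled number of incidences -/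
noncomputable def Phi (ν : Measure (V n)) (k i : ℕ) (θ : V n) : ℝ≥0∞ :=
  ENNReal.ofReal (((2 : ℝ) ^ k) ^ (n - 1)) * (ν.prod ν) (Prod.mk θ ⁻¹' T n k i)

lemma Phi_meas (ν : Measure (V n)) [SFinite ν] (k i : ℕ) : Measurable (Phi ν k i) := by
  unfold Phi
  exact (measurable_measure_prodMk_left (T_meas k i)).const_mul _

noncomputable def F (ν : Measure (V n)) (i : ℕ) (θ : V n) : ℝ≥0∞ :=
  liminf (fun k => Phi ν k i θ) atTop

lemma F_meas (ν : Measure (V n)) [SFinite ν] (i : ℕ) : Measurable (F ν i) :=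
  Measurable.liminf fun k => Phi_meas ν k i

/-- the summands of the energy -/
noncomputable def a (ν : Measure (V n)) (C : ℝ) (j : ℕ) : ℝ≥0∞ :=
  ENNReal.ofReal (C * ((2 : ℝ) ^ (j + 1)) ^ (n - 1)) *
    (ν.prod ν) {p | ‖p.1 - p.2‖ ≤ (1 / 2 : ℝ) ^ j}

lemma frost_prod (ν : Measure (V n)) [IsFiniteMeasure ν] (A s : ℝ)
    (hfr : ∀ (z : V n) (r : ℝ), 0 < r → ν (closedBall z r) ≤ ENNReal.ofReal (A * r ^ s))
    (r : ℝ) (hr : 0 < r) :
    (ν.prod ν) {p : V n × V n | ‖p.1 - p.2‖ ≤ r} ≤ ENNReal.ofReal (A * r ^ s) * ν univ := by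
  have hm : MeasurableSet {p : V n × V n | ‖p.1 - p.2‖ ≤ r} := by
    apply IsClosed.measurableSet
    exact isClosed_le (by fun_prop) continuous_const
  rw [Measure.prod_apply hm, ← lintegral_const]
  apply lintegral_mono
  intro x
  have : Prod.mk x ⁻¹' {p : V n × V n | ‖p.1 - p.2‖ ≤ r} = closedBall x r := by
    ext y
    simp only [mem_preimage, mem_ofPred_eq, mem_closedBall, dist_eq_norm]
    rw [norm_sub_rev]
  simp only [this]
  exact hfr x r hr

lemma a_sum (ν : Measure (V n)) [IsFiniteMeasure ν] (A s C : ℝ) (hA : 0 ≤ A) (hC : 0 ≤ C)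
    (hn : 2 ≤ n) (hs : (n : ℝ) - 1 < s)
    (hfr : ∀ (z : V n) (r : ℝ), 0 < r → ν (closedBall z r) ≤ ENNReal.ofReal (A * r ^ s)) :
    ∑' j, a ν C j ≠ ∞ := by
  set q : ℝ := (1 / 2 : ℝ) ^ (s - ((n : ℝ) - 1)) with hq
  have hq0 : 0 ≤ q := by positivity
  have hq1 : q < 1 := Real.rpow_lt_one (by norm_num) (by norm_num) (by linarith)
  set K : ℝ := C * 2 ^ (n - 1) * A * ν.real univ with hK
  have hK0 : 0 ≤ K := by positivity
  have hle : ∀ j, a ν C j ≤ ENNReal.ofReal (K * q ^ j) := by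
    intro j
    unfold a
    have h1 := frost_prod ν A s hfr ((1 / 2 : ℝ) ^ j) (by positivity)
    have h2 : ν univ = ENNReal.ofReal (ν.real univ) := by
      rw [measureReal_def, ENNReal.ofReal_toReal (measure_ne_top _ _)]
    rw [h2, ← ENNReal.ofReal_mul (by positivity)] at h1
    refine (mul_le_mul_right h1 _).trans ?_
    rw [← ENNReal.ofReal_mul (by positivity)]
    apply ENNReal.ofReal_le_ofReal
    apply le_of_eq
    have e1 : ((1 / 2 : ℝ) ^ j) ^ s = q ^ j * ((1 / 2 : ℝ) ^ j) ^ (n - 1) := by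
      have e2 : ((1 / 2 : ℝ) ^ j) ^ (n - 1) = ((1 / 2 : ℝ) ^ ((n : ℝ) - 1)) ^ j := by
        rw [← pow_mul, mul_comm, pow_mul]
        congr 1
        rw [← Real.rpow_natCast]
        congr 1
        rw [Nat.cast_sub (by omega)]
        simp
      rw [e2, hq, ← mul_pow, ← Real.rpow_add (by norm_num), ← Real.rpow_natCast,
        ← Real.rpow_mul (by norm_num), ← Real.rpow_natCast, ← Real.rpow_mul (by norm_num)]
      congr 1
      ring
    rw [e1, hK]
    have e3 : ((2 : ℝ) ^ (j + 1)) ^ (n - 1) * ((1 / 2 : ℝ) ^ j) ^ (n - 1) = 2 ^ (n - 1) := by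
      rw [← mul_pow]
      congr 1
      rw [pow_succ, mul_right_comm, ← mul_pow]
      norm_num
    calc C * ((2 : ℝ) ^ (j + 1)) ^ (n - 1) *
          (A * (q ^ j * ((1 / 2 : ℝ) ^ j) ^ (n - 1)) * ν.real univ)
        = C * (((2 : ℝ) ^ (j + 1)) ^ (n - 1) * ((1 / 2 : ℝ) ^ j) ^ (n - 1)) * A *
            ν.real univ * q ^ j := by ring
      _ = C * 2 ^ (n - 1) * A * ν.real univ * q ^ j := by rw [e3]
  refine ne_top_of_le_ne_top ?_ (ENNReal.tsum_le_tsum hle)
  have hsum : Summable (fun j : ℕ => K * q ^ j) :=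
    (summable_geometric_of_lt_one hq0 hq1).mul_left K
  rw [← ENNReal.ofReal_tsum_of_nonneg (fun j => by positivity) hsum]
  exact ENNReal.ofReal_ne_top

lemma diag_null (ν : Measure (V n)) [IsFiniteMeasure ν] (A s : ℝ) (hs : 0 < s)
    (hfr : ∀ (z : V n) (r : ℝ), 0 < r → ν (closedBall z r) ≤ ENNReal.ofReal (A * r ^ s)) :
    ∀ᵐ p ∂(ν.prod ν), p.1 ≠ p.2 := by
  have hpt : ∀ x : V n, ν {x} = 0 := by
    intro x
    have h1 : Tendsto (fun k : ℕ => ENNReal.ofReal (A * ((1 / 2 : ℝ) ^ k) ^ s)) atTop (𝓝 0) := by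
      rw [← ENNReal.ofReal_zero]
      apply ENNReal.tendsto_ofReal
      have h2 : Tendsto (fun k : ℕ => (1 / 2 : ℝ) ^ k) atTop (𝓝 0) :=
        tendsto_pow_atTop_nhds_zero_of_lt_one (by norm_num) (by norm_num)
      have h3 := (h2.rpow_const (Or.inr hs.le)).const_mul A
      rw [Real.zero_rpow hs.ne', mul_zero] at h3
      exact h3
    refine le_antisymm (ge_of_tendsto' h1 fun k => ?_) zero_le
    refine (measure_mono ?_).trans (hfr x _ (by positivity))
    intro y hy
    rw [mem_singleton_iff] at hy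
    rw [hy]
    exact mem_closedBall_self (by positivity)
  have hm : MeasurableSet {p : V n × V n | ¬ (p.1 ≠ p.2)} := by
    have : {p : V n × V n | ¬ (p.1 ≠ p.2)} = {p | p.1 = p.2} := by ext; simp
    rw [this]
    exact (isClosed_eq continuous_fst continuous_snd).measurableSet
  rw [ae_iff, Measure.measure_prod_null hm]
  refine Filter.Eventually.of_forall fun x => ?_
  have : Prod.mk x ⁻¹' {p : V n × V n | ¬ (p.1 ≠ p.2)} = {x} := by
    ext y; simp [eq_comm]
  simp only [this, Pi.zero_apply]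
  exact hpt x

/-- pointwise domination of the kernel by dyadic shells -/
lemma shell (C : ℝ) (hC : 0 ≤ C) (i : ℕ) (t : ℝ) (ht : 0 < t) (hti : t ≤ (1 / 2 : ℝ) ^ i) :
    ENNReal.ofReal (C * (1 / t) ^ (n - 1)) ≤
      ∑' j, (if t ≤ (1 / 2 : ℝ) ^ (j + i) then
        ENNReal.ofReal (C * ((2 : ℝ) ^ (j + i + 1)) ^ (n - 1)) else 0) := by
  -- find `m ≥ i` with `2^-(m+1) < t ≤ 2^-m`
  have hex : ∃ m : ℕ, (1 / 2 : ℝ) ^ (m + i + 1) < t := by
    obtain ⟨m, hm⟩ := exists_pow_lt_of_lt_one ht (show (1 / 2 : ℝ) < 1 by norm_num)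
    refine ⟨m, lt_of_le_of_lt ?_ hm⟩
    exact pow_le_pow_of_le_one (by norm_num) (by norm_num) (by omega)
  classical
  set m := Nat.find hex with hmdef
  have hm1 : (1 / 2 : ℝ) ^ (m + i + 1) < t := Nat.find_spec hex
  have hm2 : t ≤ (1 / 2 : ℝ) ^ (m + i) := by
    rcases Nat.eq_zero_or_pos m with h0 | hpos
    · rw [h0, zero_add]; exact hti
    · have := Nat.find_min hex (m := m - 1) (by omega)
      push Not at this
      have e : m - 1 + i + 1 = m + i := by omega
      rw [e] at this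
      exact this
  refine le_trans ?_ (ENNReal.le_tsum m)
  rw [if_pos hm2]
  apply ENNReal.ofReal_le_ofReal
  apply mul_le_mul_of_nonneg_left _ hC
  apply pow_le_pow_left₀ (by positivity)
  rw [div_le_iff₀ ht]
  have h3 : (2 : ℝ) ^ (m + i + 1) * (1 / 2 : ℝ) ^ (m + i + 1) = 1 := by
    rw [← mul_pow]; norm_num
  calc (1 : ℝ) = (2 : ℝ) ^ (m + i + 1) * (1 / 2 : ℝ) ^ (m + i + 1) := h3.symm
    _ ≤ (2 : ℝ) ^ (m + i + 1) * t := mul_le_mul_of_nonneg_left hm1.le (by positivity)

lemma Phi_int (ν : Measure (V n)) [IsFiniteMeasure ν] (A s C : ℝ) (hC : 0 ≤ C)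
    (hn : 2 ≤ n) (hs : (n : ℝ) - 1 < s)
    (hfr : ∀ (z : V n) (r : ℝ), 0 < r → ν (closedBall z r) ≤ ENNReal.ofReal (A * r ^ s))
    (hTV : ∀ (v : V n) (r : ℝ), v ≠ 0 → 0 < r →
      volume {θ : V n | ‖θ‖ ≤ 1 ∧ Gr v θ ≤ r ^ 2} ≤ ENNReal.ofReal (C * (r / ‖v‖) ^ (n - 1)))
    (k i : ℕ) :
    ∫⁻ θ in closedBall (0 : V n) 1, Phi ν k i θ ≤ ∑' j, a ν C (j + i) := by
  have hs0 : 0 < s := by
    have : (2 : ℝ) ≤ n := by exact_mod_cast hn
    linarith
  unfold Phi
  rw [lintegral_const_mul _ (measurable_measure_prodMk_left (T_meas k i)),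
    ← Measure.prod_apply (T_meas k i), Measure.prod_apply_symm (T_meas k i),
    ← lintegral_const_mul' _ _ ENNReal.ofReal_ne_top]
  have hpt : ∀ᵐ p ∂(ν.prod ν), ENNReal.ofReal (((2 : ℝ) ^ k) ^ (n - 1)) *
      (volume.restrict (closedBall (0 : V n) 1)) ((fun θ => (θ, p)) ⁻¹' T n k i) ≤
      ∑' j, (if ‖p.1 - p.2‖ ≤ (1 / 2 : ℝ) ^ (j + i) then
        ENNReal.ofReal (C * ((2 : ℝ) ^ (j + i + 1)) ^ (n - 1)) else 0) := by
    filter_upwards [diag_null ν A s hs0 hfr] with p hp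
    by_cases hle : ‖p.1 - p.2‖ ≤ (1 / 2 : ℝ) ^ i
    · have hv : p.1 - p.2 ≠ 0 := sub_ne_zero.2 hp
      have hvn : 0 < ‖p.1 - p.2‖ := norm_pos_iff.2 hv
      refine le_trans ?_ (shell C hC i _ hvn hle)
      have h1 := hTV (p.1 - p.2) ((1 / 2 : ℝ) ^ k) hv (by positivity)
      have h2 : (volume.restrict (closedBall (0 : V n) 1)) ((fun θ => (θ, p)) ⁻¹' T n k i) ≤
          ENNReal.ofReal (C * ((1 / 2 : ℝ) ^ k / ‖p.1 - p.2‖) ^ (n - 1)) := by
        rw [Measure.restrict_apply (measurable_prodMk_right (T_meas k i))]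
        refine (measure_mono ?_).trans h1
        intro θ hθ
        obtain ⟨h3, h4⟩ := hθ
        refine ⟨?_, h3.2.2.2⟩
        rw [mem_closedBall, dist_zero_right] at h4
        exact h4
      refine (mul_le_mul_right h2 _).trans ?_
      rw [← ENNReal.ofReal_mul (by positivity)]
      apply ENNReal.ofReal_le_ofReal
      apply le_of_eq
      rw [div_pow, one_div_pow, one_div_pow, one_div_pow]
      field_simp
    · have : (fun θ => (θ, p)) ⁻¹' T n k i = ∅ := by
        ext θ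
        simp only [mem_preimage, mem_empty_iff_false, iff_false]
        intro h
        exact hle h.2.2.1
      rw [this, measure_empty, mul_zero]
      exact zero_le
  refine (lintegral_mono_ae hpt).trans ?_
  have hm : ∀ j, MeasurableSet {p : V n × V n | ‖p.1 - p.2‖ ≤ (1 / 2 : ℝ) ^ j} := by
    intro j
    apply IsClosed.measurableSet
    exact isClosed_le (by fun_prop) continuous_const
  rw [lintegral_tsum]
  · apply ENNReal.tsum_le_tsum
    intro j
    unfold a
    have : (fun p : V n × V n => (if ‖p.1 - p.2‖ ≤ (1 / 2 : ℝ) ^ (j + i) then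
        ENNReal.ofReal (C * ((2 : ℝ) ^ (j + i + 1)) ^ (n - 1)) else 0)) =
        ({p : V n × V n | ‖p.1 - p.2‖ ≤ (1 / 2 : ℝ) ^ (j + i)}).indicator
          (fun _ => ENNReal.ofReal (C * ((2 : ℝ) ^ (j + i + 1)) ^ (n - 1))) := by
      funext p
      simp [indicator]
    rw [this, lintegral_indicator (hm _), setLIntegral_const]
  · intro j
    apply Measurable.aemeasurable
    exact Measurable.ite (hm _) measurable_const measurable_const

theorem main (hTV : StmtTV) (hCL : StmtCL) : StmtFF := by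
  intro n hn s hs ν _ A hA hfr
  obtain ⟨C, hC, hTV⟩ := hTV n (by omega)
  obtain ⟨c, hc, hCL⟩ := hCL n (by omega)
  have hsum := a_sum ν A s C hA hC.le hn hs hfr
  have hFi : ∀ i, ∫⁻ θ in closedBall (0 : V n) 1, F ν i θ ≤ ∑' j, a ν C (j + i) := by
    intro i
    unfold F
    refine (lintegral_liminf_le fun k => Phi_meas ν k i).trans ?_
    refine liminf_le_of_frequently_le' (Filter.Frequently.of_forall fun k => ?_)
    exact Phi_int ν A s C hC.le hn hs hfr hTV k i
  have hinf : ∫⁻ θ in closedBall (0 : V n) 1, (⨅ i, F ν i θ) = 0 := by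
    refine le_antisymm ?_ zero_le
    have ht := ENNReal.tendsto_sum_nat_add (a ν C) hsum
    refine ge_of_tendsto' ht fun i => ?_
    refine le_trans (lintegral_mono fun θ => iInf_le _ i) (hFi i)
  rw [lintegral_eq_zero_iff (Measurable.iInf fun i => F_meas ν i)] at hinf
  have hne : ∀ᵐ θ ∂((volume : Measure (V n)).restrict (closedBall (0 : V n) 1)), θ ≠ 0 := by
    apply ae_restrict_of_ae
    have hnt : Nontrivial (V n) := by
      have : Nonempty (Fin n) := ⟨⟨0, by omega⟩⟩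
      infer_instance
    rw [ae_iff]
    have : {x : V n | ¬ x ≠ 0} = {0} := by ext; simp
    rw [this]
    exact measure_singleton 0
  have hmem : ∀ᵐ θ ∂((volume : Measure (V n)).restrict (closedBall (0 : V n) 1)),
      θ ∈ closedBall (0 : V n) 1 := ae_restrict_mem measurableSet_closedBall
  filter_upwards [hinf, hne, hmem] with θ hθ hθ0 hθ1
  rw [mem_closedBall, dist_zero_right] at hθ1
  intro G hG hG1 hinj
  simp only [Pi.zero_apply] at hθ
  -- lower bound
  have hlow : ∀ i, ENNReal.ofReal c * ν G ^ 2 ≤ F ν i θ := by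
    intro i
    unfold F
    -- compactness
    have hev : ∀ᶠ k : ℕ in atTop, ∀ x ∈ G, ∀ y ∈ G, Gr (x - y) θ ≤ ((1 / 2 : ℝ) ^ k) ^ 2 →
        ‖x - y‖ ≤ (1 / 2 : ℝ) ^ i := by
      set Z : Set (V n × V n) := (G ×ˢ G) ∩ {p | (1 / 2 : ℝ) ^ i ≤ ‖p.1 - p.2‖} with hZ
      have hZc : IsCompact Z := by
        apply (hG.prod hG).inter_right
        exact isClosed_le continuous_const (by fun_prop)
      have hgc : Continuous (fun p : V n × V n => Gr (p.1 - p.2) θ) := by
        unfold Gr; fun_prop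
      rcases Z.eq_empty_or_nonempty with hem | hnem
      · refine Filter.Eventually.of_forall fun k x hx y hy _ => ?_
        by_contra hcon
        push Not at hcon
        have : (x, y) ∈ Z := ⟨⟨hx, hy⟩, hcon.le⟩
        rw [hem] at this
        exact this
      · obtain ⟨p, hp, hpmin⟩ := hZc.exists_isMinOn hnem hgc.continuousOn
        have hpos : 0 < Gr (p.1 - p.2) θ := by
          rcases (Gr_nonneg (p.1 - p.2) θ).lt_or_eq with h | h
          · exact h
          · exfalso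
            have := hinj p.1 hp.1.1 p.2 hp.1.2 h.symm
            have h2 := hp.2
            simp only [mem_ofPred_eq, this, sub_self, norm_zero] at h2
            have : (0 : ℝ) < (1 / 2) ^ i := by positivity
            linarith
        have ht : Tendsto (fun k : ℕ => ((1 / 2 : ℝ) ^ k) ^ 2) atTop (𝓝 0) := by
          have h2 : Tendsto (fun k : ℕ => (1 / 2 : ℝ) ^ k) atTop (𝓝 0) :=
            tendsto_pow_atTop_nhds_zero_of_lt_one (by norm_num) (by norm_num)
          simpa using h2.pow 2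
        filter_upwards [ht.eventually_lt_const hpos] with k hk x hx y hy hxy
        by_contra hcon
        push Not at hcon
        have hmemZ : (x, y) ∈ Z := ⟨⟨hx, hy⟩, hcon.le⟩
        have := hpmin hmemZ
        simp only [mem_ofPred_eq] at this
        linarith
    refine le_liminf_of_le (by isBoundedDefault) ?_
    filter_upwards [hev] with k hk
    have h1 := hCL ν inferInstance G hG.measurableSet hG1 θ hθ0 hθ1 ((1 / 2 : ℝ) ^ k)
      (by positivity) (pow_le_one₀ (by norm_num) (by norm_num))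
    unfold Phi
    have h2 : (ν.prod ν) {p : V n × V n | p.1 ∈ G ∧ p.2 ∈ G ∧
        Gr (p.1 - p.2) θ ≤ ((1 / 2 : ℝ) ^ k) ^ 2} ≤ (ν.prod ν) (Prod.mk θ ⁻¹' T n k i) := by
      apply measure_mono
      rintro ⟨x, y⟩ ⟨hx, hy, hxy⟩
      refine ⟨?_, ?_, hk x hx y hy hxy, hxy⟩
      · have := hG1 hx
        rwa [mem_closedBall, dist_zero_right] at this
      · have := hG1 hy
        rwa [mem_closedBall, dist_zero_right] at this
    calc ENNReal.ofReal c * ν G ^ 2
        = ENNReal.ofReal (((2 : ℝ) ^ k) ^ (n - 1)) *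
            (ENNReal.ofReal (c * ((1 / 2 : ℝ) ^ k) ^ (n - 1)) * ν G ^ 2) := by
          rw [← mul_assoc, ← ENNReal.ofReal_mul (by positivity)]
          congr 2
          have : ((2 : ℝ) ^ k) ^ (n - 1) * ((1 / 2 : ℝ) ^ k) ^ (n - 1) = 1 := by
            rw [← mul_pow, ← mul_pow]; norm_num
          calc c = c * (((2 : ℝ) ^ k) ^ (n - 1) * ((1 / 2 : ℝ) ^ k) ^ (n - 1)) := by
                rw [this, mul_one]
            _ = _ := by ring
      _ ≤ ENNReal.ofReal (((2 : ℝ) ^ k) ^ (n - 1)) * (ν.prod ν) (Prod.mk θ ⁻¹' T n k i) :=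
          mul_le_mul_right (h1.trans h2) _
  have h0 : ENNReal.ofReal c * ν G ^ 2 ≤ 0 := by
    rw [← hθ]
    exact le_iInf hlow
  have h1 : ENNReal.ofReal c * ν G ^ 2 = 0 := le_antisymm h0 zero_le
  rw [mul_eq_zero] at h1
  rcases h1 with h | h
  · rw [ENNReal.ofReal_eq_zero] at h
    linarith
  · exact pow_eq_zero_iff (two_ne_zero) |>.1 h

end Pool.Agent.L0h37.AN.FF
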