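import Pool.Agent.L0h37.AN.Defs

/-!
# Final assembly
-/

set_option autoImplicit false

open MeasureTheory Metric Set Filter Topology
open scoped ENNReal NNReal RealInnerProductSpace

namespace Pool.Agent.L0h37.AN.Fin

open Pool.Agent.L0h37.AN

theorem main (hNM : StmtNM) (hSM : StmtSM) (hBG : StmtBG) :
    ∀ α : ℝ, 0 < α → α < Real.pi →
      ∃ c : ℝ, c < 1 ∧
        ∀ n : ℕ, 2 ≤ n →
          ∀ E : Set (EuclideanSpace ℝ (Fin n)), MeasurableSet E →
            ENNReal.ofReal (c * (n : ℝ)) < dimH E →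
              ∃ x ∈ E, ∃ y ∈ E, ∃ z ∈ E,
                x ≠ y ∧ y ≠ z ∧ x ≠ z ∧ EuclideanGeometry.angle x y z = α := by
  intro α hα0 hαπ
  obtain ⟨n₀, c₀, hc₀, hbig⟩ := hBG α hα0 hαπ
  have hn0 : (0 : ℝ) ≤ n₀ := by positivity
  have hpos : (0 : ℝ) < n₀ + 2 := by linarith
  refine ⟨max (max c₀ (1 - 1 / (n₀ + 2))) (1 / 2), ?_, ?_⟩
  · refine max_lt (max_lt hc₀ ?_) (by norm_num)
    have : 0 < 1 / ((n₀ : ℝ) + 2) := by positivity
    linarith
  intro n hn E hE hdim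
  set c : ℝ := max (max c₀ (1 - 1 / (n₀ + 2))) (1 / 2) with hcdef
  have hc1 : c₀ ≤ c := le_trans (le_max_left _ _) (le_max_left _ _)
  have hc2 : 1 - 1 / ((n₀ : ℝ) + 2) ≤ c := le_trans (le_max_right _ _) (le_max_left _ _)
  have hc3 : 1 / 2 ≤ c := le_max_right _ _
  have hnpos : (0 : ℝ) < n := by
    have : 0 < n := by omega
    exact_mod_cast this
  -- choose `s`
  obtain ⟨s', hs'1, hs'2⟩ := ENNReal.lt_iff_exists_nnreal_btwn.mp hdim
  have hs1 : c * n < (s' : ℝ) := by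
    have h1 : ENNReal.ofReal (c * n) < ENNReal.ofReal (s' : ℝ) := by
      rw [ENNReal.ofReal_coe_nnreal]; exact hs'1
    have h2 : 0 < (s' : ℝ) := by
      by_contra hcon
      push Not at hcon
      rw [ENNReal.ofReal_of_nonpos hcon] at h1
      exact absurd h1 (by simp)
    exact (ENNReal.ofReal_lt_ofReal_iff h2).mp h1
  have hs0 : 0 < (s' : ℝ) := lt_of_le_of_lt (by positivity) hs1
  have hsn : (s' : ℝ) ≤ n := by
    have h1 : dimH E ≤ n := by
      have h2 : dimH E ≤ dimH (univ : Set (EuclideanSpace ℝ (Fin n))) := dimH_mono (subset_univ _)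
      rw [Real.dimH_univ_eq_finrank] at h2
      simpa using h2
    have h3 : (s' : ℝ≥0∞) ≤ n := hs'2.le.trans h1
    exact_mod_cast h3
  have hdim' : ENNReal.ofReal (s' : ℝ) < dimH E := by
    rw [ENNReal.ofReal_coe_nnreal]; exact hs'2
  obtain ⟨K, ν, x₀, r₀, hN, hr₀, hKE⟩ := hNM n E hE s' hs0 hdim'
  have key : ∃ x ∈ K, ∃ y ∈ K, ∃ z ∈ K, x ≠ y ∧ y ≠ z ∧ x ≠ z ∧
      EuclideanGeometry.angle x y z = α := by
    rcases le_or_gt n₀ n with h | h
    · exact hbig n h s' (by nlinarith) hsn K ν hN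
    · refine hSM n hn s' ?_ K ν hN α hα0 hαπ
      have h1 : (n : ℝ) < n₀ + 2 := by
        have : (n : ℝ) < n₀ := by exact_mod_cast h
        linarith
      have h2 : (n : ℝ) / (n₀ + 2) < 1 := by
        rw [div_lt_one hpos]; exact h1
      have h3 : (1 - 1 / ((n₀ : ℝ) + 2)) * n ≤ c * n := by gcongr
      have h4 : (1 - 1 / ((n₀ : ℝ) + 2)) * n = n - n / (n₀ + 2) := by ring
      linarith
  obtain ⟨x, hx, y, hy, z, hz, hxy, hyz, hxz, hang⟩ := key
  have hinj : ∀ a b : EuclideanSpace ℝ (Fin n), a ≠ b → x₀ + r₀ • a ≠ x₀ + r₀ • b := by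
    intro a b hab h
    exact hab (smul_right_injective _ hr₀.ne' (add_left_cancel h))
  refine ⟨x₀ + r₀ • x, hKE x hx, x₀ + r₀ • y, hKE y hy, x₀ + r₀ • z, hKE z hz, hinj _ _ hxy,
    hinj _ _ hyz, hinj _ _ hxz, ?_⟩
  rw [← hang]
  unfold EuclideanGeometry.angle
  have h5 : ∀ a b : EuclideanSpace ℝ (Fin n), (x₀ + r₀ • a) -ᵥ (x₀ + r₀ • b) = r₀ • (a -ᵥ b) := by
    intro a b
    simp only [vsub_eq_sub]
    rw [smul_sub]
    abel
  rw [h5, h5, InnerProductGeometry.angle_smul_left_of_pos _ _ hr₀,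
    InnerProductGeometry.angle_smul_right_of_pos _ _ hr₀]

end Pool.Agent.L0h37.AN.Fin
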