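import Pool.Agent.L0h37.AN.Defs

/-!
# GB: a bound for the Gamma function
-/

set_option autoImplicit false

open MeasureTheory Metric Set Filter Topology
open scoped ENNReal NNReal RealInnerProductSpace

namespace Pool.Agent.L0h37.AN.GB

theorem main : StmtGB := by
  intro n σ hn hσ hσn
  have hn' : (0 : ℝ) < n := by exact_mod_cast hn
  rw [Real.Gamma_eq_integral (by positivity)]
  have h1 : ∫ x in Ioi (0 : ℝ), Real.exp (-x) * x ^ (σ / 2 + 1 - 1) ≤
      ∫ x in Ioi (0 : ℝ), (n : ℝ) ^ (σ / 2) * Real.exp (-(1 / 2) * x) := by
    apply setIntegral_mono_on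
    · exact Real.GammaIntegral_convergent (by positivity)
    · exact (integrableOn_exp_mul_Ioi (by norm_num) 0).const_mul _
    · exact measurableSet_Ioi
    · intro t ht
      have ht' : (0 : ℝ) < t := ht
      rw [add_sub_cancel_right]
      have e1 : t ^ (σ / 2) = (n : ℝ) ^ (σ / 2) * (t / n) ^ (σ / 2) := by
        rw [← Real.mul_rpow hn'.le (by positivity)]
        congr 1
        field_simp
      have e2 : (t / n) ^ (σ / 2) ≤ Real.exp (t / 2) := by
        rw [Real.rpow_def_of_pos (by positivity)]
        apply Real.exp_le_exp.mpr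
        have h3 : Real.log (t / n) ≤ t / n := by
          have := Real.log_le_sub_one_of_pos (show 0 < t / n by positivity)
          linarith
        calc Real.log (t / n) * (σ / 2) ≤ t / n * (σ / 2) :=
              mul_le_mul_of_nonneg_right h3 (by positivity)
          _ ≤ t / n * (n / 2) := by
              apply mul_le_mul_of_nonneg_left _ (by positivity)
              linarith
          _ = t / 2 := by field_simp
      rw [e1]
      calc Real.exp (-t) * ((n : ℝ) ^ (σ / 2) * (t / n) ^ (σ / 2))
          ≤ Real.exp (-t) * ((n : ℝ) ^ (σ / 2) * Real.exp (t / 2)) := by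
            gcongr
        _ = (n : ℝ) ^ (σ / 2) * (Real.exp (-t) * Real.exp (t / 2)) := by ring
        _ = (n : ℝ) ^ (σ / 2) * Real.exp (-(1 / 2) * t) := by
            rw [← Real.exp_add]
            congr 2
            ring
  refine h1.trans_eq ?_
  rw [integral_const_mul, integral_exp_mul_Ioi (by norm_num)]
  simp
  ring

end Pool.Agent.L0h37.AN.GB
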