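import Pool.Agent.L0h37.AN.Defs

/-!
# The Gaussian measure `gam n` is a probability measure
-/

set_option autoImplicit false

open MeasureTheory Metric Set Filter Topology
open scoped ENNReal NNReal RealInnerProductSpace

namespace Pool.Agent.L0h37.AN.GP

open Pool.Agent.L0h37.AN

/-- the normalising constant -/
noncomputable def cn (n : ℕ) : ℝ := ((n : ℝ) / (2 * Real.pi)) ^ ((n : ℝ) / 2)

/-- the density -/
noncomputable def w (n : ℕ) (x : V n) : ℝ := cn n * Real.exp (-((n : ℝ) * ‖x‖ ^ 2) / 2)

theorem gam_eq (n : ℕ) : gam n = (volume : Measure (V n)).withDensity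
    (fun x => ENNReal.ofReal (w n x)) := rfl

theorem cn_pos (n : ℕ) (hn : 1 ≤ n) : 0 < cn n := by
  have : (0 : ℝ) < n := by exact_mod_cast hn
  exact Real.rpow_pos_of_pos (by positivity) _

theorem w_cont (n : ℕ) : Continuous (w n) := by
  unfold w
  fun_prop

theorem w_meas (n : ℕ) : Measurable (fun x => ENNReal.ofReal (w n x)) :=
  (w_cont n).measurable.ennreal_ofReal

theorem integral_w (n : ℕ) (hn : 1 ≤ n) : ∫ x : V n, w n x = 1 := by
  have hn0 : (0 : ℝ) < n := by exact_mod_cast hn
  have h := GaussianFourier.integral_rexp_neg_mul_sq_norm (V := V n) (b := (n : ℝ) / 2)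
    (by positivity)
  have h2 : ∀ x : V n, w n x = cn n * Real.exp (-((n : ℝ) / 2) * ‖x‖ ^ 2) := by
    intro x
    unfold w
    congr 2
    ring
  simp_rw [h2]
  rw [integral_const_mul, h, finrank_euclideanSpace, Fintype.card_fin]
  unfold cn
  rw [← Real.mul_rpow (by positivity) (by positivity)]
  have : (n : ℝ) / (2 * Real.pi) * (Real.pi / ((n : ℝ) / 2)) = 1 := by
    field_simp
  rw [this, Real.one_rpow]

theorem lint_w (n : ℕ) (hn : 1 ≤ n) : ∫⁻ x : V n, ENNReal.ofReal (w n x) = 1 := by
  have hint : Integrable (w n) := by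
    by_contra hcon
    have := integral_w n hn
    rw [integral_undef hcon] at this
    exact zero_ne_one this
  rw [← ofReal_integral_eq_lintegral_ofReal hint, integral_w n hn, ENNReal.ofReal_one]
  exact Filter.Eventually.of_forall fun x => by
    have := cn_pos n hn
    unfold w
    positivity

theorem gam_univ (n : ℕ) (hn : 1 ≤ n) : gam n univ = 1 := by
  rw [gam_eq, withDensity_apply _ MeasurableSet.univ, Measure.restrict_univ]
  exact lint_w n hn

theorem gam_prob (n : ℕ) (hn : 1 ≤ n) : IsProbabilityMeasure (gam n) := ⟨gam_univ n hn⟩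

end Pool.Agent.L0h37.AN.GP
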