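import Pool.Agent.L0h37.AN.Defs

/-!
# GR: the Gaussian measure `gam n` is a probability measure, invariant under rotations of pairs
-/

set_option autoImplicit false

open MeasureTheory Metric Set Filter Topology
open scoped ENNReal NNReal RealInnerProductSpace

namespace Pool.Agent.L0h37.AN.GR

variable {n : ℕ}

/-- the density -/
noncomputable def den (n : ℕ) (x : V n) : ℝ :=
  ((n : ℝ) / (2 * Real.pi)) ^ ((n : ℝ) / 2) * Real.exp (-((n : ℝ) * ‖x‖ ^ 2) / 2)

lemma den_nonneg (n : ℕ) (x : V n) : 0 ≤ den n x := by unfold den; positivity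

lemma den_cont (n : ℕ) : Continuous (den n) := by unfold den; fun_prop

lemma gam_eq (n : ℕ) : gam n = (volume : Measure (V n)).withDensity
    (fun x => ENNReal.ofReal (den n x)) := rfl

lemma gauss_int (b : ℝ) (hb : 0 < b) :
    Integrable (fun v : V n => Real.exp (-b * ‖v‖ ^ 2)) := by
  have h := (GaussianFourier.integrable_cexp_neg_mul_sq_norm_add (V := V n) (b := (b : ℂ))
    (by simpa using hb) 0 0).norm
  refine h.congr (Filter.Eventually.of_forall fun v => ?_)
  simp only [Complex.norm_exp]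
  congr 1
  simp
  left
  norm_cast

/-- Gaussian Fourier integral -/
lemma gint (b : ℝ) (hb : 0 < b) (z : V n) :
    ∫ η : V n, ((Real.exp (-b * ‖η‖ ^ 2) : ℝ) : ℂ) * Complex.exp (⟪η, z⟫ * Complex.I) =
      (((Real.pi / b) ^ ((n : ℝ) / 2) * Real.exp (-(1 / (4 * b)) * ‖z‖ ^ 2) : ℝ) : ℂ) := by
  have e : ∀ v : V n, ((Real.exp (-b * ‖v‖ ^ 2) : ℝ) : ℂ) * Complex.exp (⟪v, z⟫ * Complex.I) =
      Complex.exp (-((b : ℝ) : ℂ) * ‖v‖ ^ 2 + Complex.I * ⟪z, v⟫) := by
    intro v
    rw [Complex.ofReal_exp, ← Complex.exp_add, real_inner_comm]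
    congr 1
    push_cast
    ring
  simp_rw [e]
  rw [GaussianFourier.integral_cexp_neg_mul_sq_norm_add (by
    rw [Complex.ofReal_re]; exact hb), finrank_euclideanSpace_fin]
  rw [Complex.ofReal_mul, Complex.ofReal_cpow (by positivity), Complex.ofReal_exp]
  congr 1
  · congr 1
    · push_cast; ring
    · push_cast; ring
  · congr 1
    rw [Complex.I_sq]
    push_cast
    field_simp

lemma const_mul (hn : 1 ≤ n) :
    ((n : ℝ) / (2 * Real.pi)) ^ ((n : ℝ) / 2) * (Real.pi / ((n : ℝ) / 2)) ^ ((n : ℝ) / 2) = 1 := by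
  have hn' : (0 : ℝ) < n := by exact_mod_cast hn
  have hpi := Real.pi_pos
  rw [← Real.mul_rpow (by positivity) (by positivity)]
  have : (n : ℝ) / (2 * Real.pi) * (Real.pi / ((n : ℝ) / 2)) = 1 := by
    field_simp
  rw [this, Real.one_rpow]

lemma den_int (hn : 1 ≤ n) : Integrable (den n) := by
  have hn' : (0 : ℝ) < n := by exact_mod_cast hn
  have h := (gauss_int (n := n) ((n : ℝ) / 2) (by positivity)).const_mul
    (((n : ℝ) / (2 * Real.pi)) ^ ((n : ℝ) / 2))
  refine h.congr (Filter.Eventually.of_forall fun v => ?_)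
  simp only [den]
  congr 2
  ring

/-- integrals against `gam n` -/
lemma integral_gam {E : Type*} [NormedAddCommGroup E] [NormedSpace ℝ E] (f : V n → E) :
    ∫ x, f x ∂(gam n) = ∫ x, den n x • f x := by
  rw [gam_eq]
  rw [integral_withDensity_eq_integral_toReal_smul (by
    have := den_cont n
    fun_prop) (Filter.Eventually.of_forall fun x => ENNReal.ofReal_lt_top)]
  apply integral_congr_ae
  refine Filter.Eventually.of_forall fun x => ?_
  simp only
  rw [ENNReal.toReal_ofReal (den_nonneg n x)]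

lemma char_aux (hn : 1 ≤ n) (t : V n) : ∫ x : V n, Complex.exp (⟪x, t⟫ * Complex.I) ∂(gam n) =
    ((Real.exp (-(‖t‖ ^ 2 / (2 * n))) : ℝ) : ℂ) := by
  have hn' : (0 : ℝ) < n := by exact_mod_cast hn
  rw [integral_gam]
  have e : ∀ x : V n, den n x • Complex.exp (⟪x, t⟫ * Complex.I) =
      ((((n : ℝ) / (2 * Real.pi)) ^ ((n : ℝ) / 2) : ℝ) : ℂ) *
        (((Real.exp (-((n : ℝ) / 2) * ‖x‖ ^ 2) : ℝ) : ℂ) * Complex.exp (⟪x, t⟫ * Complex.I)) := by
    intro x
    rw [Complex.real_smul, den, Complex.ofReal_mul, mul_assoc]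
    congr 3
    ring_nf
  simp_rw [e]
  rw [integral_const_mul, gint _ (by positivity), ← Complex.ofReal_mul, ← mul_assoc, const_mul hn,
    one_mul]
  congr 2
  field_simp
  ring

lemma prob (hn : 1 ≤ n) : IsProbabilityMeasure (gam n) := by
  have h0 := char_aux hn (0 : V n)
  simp only [inner_zero_right, Complex.ofReal_zero, zero_mul, Complex.exp_zero, norm_zero] at h0
  have h1 : ∫ x : V n, (1 : ℝ) ∂(gam n) = 1 := by
    rw [integral_gam]
    have h2 : ∫ x : V n, den n x • (1 : ℂ) = 1 := by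
      rw [← integral_gam, h0]
      simp
    have h3 : ∫ x : V n, ((den n x : ℝ) : ℂ) = 1 := by
      rw [← h2]
      apply integral_congr_ae
      refine Filter.Eventually.of_forall fun x => ?_
      simp
    rw [integral_complex_ofReal] at h3
    simpa using h3
  constructor
  have h4 : gam n univ = ENNReal.ofReal (∫ x : V n, den n x) := by
    rw [gam_eq, withDensity_apply _ MeasurableSet.univ, Measure.restrict_univ,
      ofReal_integral_eq_lintegral_ofReal (den_int hn)
        (Filter.Eventually.of_forall (den_nonneg n))]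
  rw [h4]
  rw [integral_gam] at h1
  simp only [smul_eq_mul, mul_one] at h1
  rw [h1, ENNReal.ofReal_one]

lemma charFun_gam (hn : 1 ≤ n) (t : V n) : charFun (gam n) t =
    ((Real.exp (-(‖t‖ ^ 2 / (2 * n))) : ℝ) : ℂ) := by
  rw [charFun_apply, char_aux hn]

theorem main : StmtGR := by
  intro n hn
  have hp := prob hn
  refine ⟨hp, fun a b hab => ?_⟩
  have hm : Measurable (fun p : V n × V n => a • p.1 + b • p.2) := by fun_prop
  apply Measure.ext_of_charFun
  ext t
  rw [charFun_gam hn, charFun_apply, integral_map hm.aemeasurable (by fun_prop)]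
  have e : ∀ p : V n × V n, Complex.exp (⟪a • p.1 + b • p.2, t⟫ * Complex.I) =
      Complex.exp (⟪p.1, a • t⟫ * Complex.I) * Complex.exp (⟪p.2, b • t⟫ * Complex.I) := by
    intro p
    rw [← Complex.exp_add]
    congr 1
    rw [inner_add_left, inner_smul_left, inner_smul_left, inner_smul_right, inner_smul_right]
    simp
    ring
  simp_rw [e]
  rw [integral_prod_mul (fun x : V n => Complex.exp (⟪x, a • t⟫ * Complex.I))
    (fun x : V n => Complex.exp (⟪x, b • t⟫ * Complex.I)), char_aux hn, char_aux hn,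
    ← Complex.ofReal_mul, ← Real.exp_add, norm_smul, norm_smul]
  congr 2
  rw [mul_pow, mul_pow, Real.norm_eq_abs, Real.norm_eq_abs, sq_abs, sq_abs]
  have : b ^ 2 = 1 - a ^ 2 := by linarith
  rw [this]
  ring

end Pool.Agent.L0h37.AN.GR
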