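import Pool.Agent.L0h37.AN.GP

/-!
# GT: thickenings of sets of measure at least 1/2 are not exponentially small for the Gaussian measure
-/

set_option autoImplicit false

open MeasureTheory Metric Set Filter Topology
open scoped ENNReal NNReal RealInnerProductSpace

namespace Pool.Agent.L0h37.AN.GT

open Pool.Agent.L0h37.AN Pool.Agent.L0h37.AN.GP

theorem w_nonneg (n : ℕ) (hn : 1 ≤ n) (x : V n) : 0 ≤ w n x := by
  have := cn_pos n hn
  unfold w
  positivity

theorem gam_ball (n : ℕ) (y : V n) (ε : ℝ) :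
    gam n (closedBall y ε) = ∫⁻ x : V n, (closedBall (0 : V n) ε).indicator
      (fun x => ENNReal.ofReal (w n (x + y))) x := by
  rw [gam_eq, withDensity_apply _ isClosed_closedBall.measurableSet,
    ← lintegral_indicator isClosed_closedBall.measurableSet]
  rw [← lintegral_add_right_eq_self _ y]
  apply lintegral_congr
  intro x
  have h : x + y ∈ closedBall y ε ↔ x ∈ closedBall (0 : V n) ε := by
    simp [mem_closedBall, dist_eq_norm]
  by_cases hx : x ∈ closedBall (0 : V n) ε
  · rw [indicator_of_mem hx, indicator_of_mem (h.mpr hx)]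
  · rw [indicator_of_notMem hx, indicator_of_notMem (fun h' => hx (h.mp h'))]

theorem gam_ball' (n : ℕ) (y : V n) (ε : ℝ) :
    gam n (closedBall y ε) = ∫⁻ x : V n, (closedBall (0 : V n) ε).indicator
      (fun x => ENNReal.ofReal (w n (y - x))) x := by
  rw [gam_eq, withDensity_apply _ isClosed_closedBall.measurableSet,
    ← lintegral_indicator isClosed_closedBall.measurableSet]
  rw [← lintegral_sub_left_eq_self _ y]
  apply lintegral_congr
  intro x
  have h : y - x ∈ closedBall y ε ↔ x ∈ closedBall (0 : V n) ε := by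
    simp [mem_closedBall, dist_eq_norm]
  by_cases hx : x ∈ closedBall (0 : V n) ε
  · rw [indicator_of_mem hx, indicator_of_mem (h.mpr hx)]
  · rw [indicator_of_notMem hx, indicator_of_notMem (fun h' => hx (h.mp h'))]

theorem w_sum (n : ℕ) (hn : 1 ≤ n) (x y : V n) :
    2 * (Real.exp (-(n * ‖y‖ ^ 2) / 2) * w n x) ≤ w n (x + y) + w n (y - x) := by
  have hc := cn_pos n hn
  have h1 : ‖x + y‖ ^ 2 = ‖x‖ ^ 2 + 2 * ⟪x, y⟫ + ‖y‖ ^ 2 := norm_add_sq_real x y
  have h2 : ‖y - x‖ ^ 2 = ‖x‖ ^ 2 - 2 * ⟪x, y⟫ + ‖y‖ ^ 2 := by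
    rw [norm_sub_sq_real, real_inner_comm]; ring
  unfold w
  rw [h1, h2]
  have e1 : Real.exp (-(n * (‖x‖ ^ 2 + 2 * ⟪x, y⟫ + ‖y‖ ^ 2)) / 2) =
      Real.exp (-(n * ‖y‖ ^ 2) / 2) * Real.exp (-(n * ‖x‖ ^ 2) / 2) *
        Real.exp (-(n * ⟪x, y⟫)) := by
    rw [← Real.exp_add, ← Real.exp_add]; congr 1; ring
  have e2 : Real.exp (-(n * (‖x‖ ^ 2 - 2 * ⟪x, y⟫ + ‖y‖ ^ 2)) / 2) =
      Real.exp (-(n * ‖y‖ ^ 2) / 2) * Real.exp (-(n * ‖x‖ ^ 2) / 2) *
        Real.exp (n * ⟪x, y⟫) := by
    rw [← Real.exp_add, ← Real.exp_add]; congr 1; ring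
  rw [e1, e2]
  have h3 : 2 ≤ Real.exp (-(n * ⟪x, y⟫)) + Real.exp (n * ⟪x, y⟫) := by
    have a1 := Real.add_one_le_exp (-((n : ℝ) * ⟪x, y⟫))
    have a2 := Real.add_one_le_exp ((n : ℝ) * ⟪x, y⟫)
    linarith
  have h4 : 0 ≤ cn n * (Real.exp (-(n * ‖y‖ ^ 2) / 2) * Real.exp (-(n * ‖x‖ ^ 2) / 2)) := by
    positivity
  nlinarith [mul_le_mul_of_nonneg_left h3 h4]

theorem translate (n : ℕ) (hn : 1 ≤ n) (y : V n) (ε : ℝ) :
    ENNReal.ofReal (Real.exp (-(n * ‖y‖ ^ 2) / 2)) * gam n (closedBall 0 ε) ≤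
      gam n (closedBall y ε) := by
  have h2 : 2 * gam n (closedBall y ε) = ∫⁻ x : V n, (closedBall (0 : V n) ε).indicator
      (fun x => ENNReal.ofReal (w n (x + y)) + ENNReal.ofReal (w n (y - x))) x := by
    rw [two_mul]
    nth_rewrite 1 [gam_ball n y ε]
    rw [gam_ball' n y ε, ← lintegral_add_left]
    · apply lintegral_congr
      intro x
      by_cases hx : x ∈ closedBall (0 : V n) ε
      · rw [indicator_of_mem hx, indicator_of_mem hx, indicator_of_mem hx]
      · rw [indicator_of_notMem hx, indicator_of_notMem hx, indicator_of_notMem hx, add_zero]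
    · refine Measurable.indicator ?_ isClosed_closedBall.measurableSet
      exact ((w_cont n).comp (continuous_id.add continuous_const)).measurable.ennreal_ofReal
  have h3 : 2 * (ENNReal.ofReal (Real.exp (-(n * ‖y‖ ^ 2) / 2)) * gam n (closedBall 0 ε)) ≤
      2 * gam n (closedBall y ε) := by
    rw [h2, gam_ball n 0 ε, ← lintegral_const_mul', ← lintegral_const_mul']
    · apply lintegral_mono
      intro x
      by_cases hx : x ∈ closedBall (0 : V n) ε
      · simp only [indicator_of_mem hx]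
        rw [add_zero, ← ENNReal.ofReal_mul (by positivity),
          ← ENNReal.ofReal_add (w_nonneg n hn _) (w_nonneg n hn _)]
        have e2 : ∀ a : ℝ, 2 * ENNReal.ofReal a = ENNReal.ofReal (2 * a) := by
          intro a
          rw [ENNReal.ofReal_mul (by norm_num)]
          simp
        rw [e2]
        exact ENNReal.ofReal_le_ofReal (w_sum n hn x y)
      · simp only [indicator_of_notMem hx, mul_zero, le_refl]
    · simp
    · exact ENNReal.ofReal_ne_top
  exact (ENNReal.mul_le_mul_iff_right (by simp) (by simp)).mp h3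

theorem ball_lower (n : ℕ) (hn : 1 ≤ n) (ε : ℝ) (hε : 0 ≤ ε) :
    ENNReal.ofReal (cn n * Real.exp (-(n * ε ^ 2) / 2) * ε ^ n *
      (volume (closedBall (0 : V n) 1)).toReal) ≤ gam n (closedBall 0 ε) := by
  have hc := cn_pos n hn
  have hfin : volume (closedBall (0 : V n) 1) ≠ ⊤ := (isCompact_closedBall _ _).measure_ne_top
  rw [ENNReal.ofReal_mul (by positivity), ENNReal.ofReal_toReal hfin,
    ENNReal.ofReal_mul (by positivity), mul_assoc]
  have hvol : volume (closedBall (0 : V n) ε) =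
      ENNReal.ofReal (ε ^ n) * volume (closedBall (0 : V n) 1) := by
    have := Measure.addHaar_closedBall_mul (volume : Measure (V n)) (0 : V n) hε
      (zero_le_one (α := ℝ))
    rw [mul_one, finrank_euclideanSpace, Fintype.card_fin] at this
    exact this
  rw [← hvol, gam_eq, withDensity_apply _ isClosed_closedBall.measurableSet,
    ← setLIntegral_const]
  apply setLIntegral_mono (w_meas n)
  intro x hx
  rw [mem_closedBall_zero_iff] at hx
  apply ENNReal.ofReal_le_ofReal
  unfold w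
  gcongr

theorem vol_lower (hNR : StmtNR) (n : ℕ) (hn : 1 ≤ n) (ζ : ℝ) (hζ : 0 < ζ)
    (hnζ : 4 / ζ ^ 2 ≤ n) :
    1 / 2 ≤ cn n * (volume (closedBall (0 : V n) 1)).toReal *
      Real.exp (-(n : ℝ) / 2 + n * ζ) := by
  have hn0 : (0 : ℝ) < n := by exact_mod_cast hn
  have hc := cn_pos n hn
  have hfin : volume (closedBall (0 : V n) 1) ≠ ⊤ := (isCompact_closedBall _ _).measure_ne_top
  have h1 := hNR n hn ζ hζ
  have hA : MeasurableSet {x : V n | ζ ≤ |‖x‖ ^ 2 - 1|} :=
    (isClosed_le continuous_const (by fun_prop)).measurableSet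
  have h2 : (2 / (n * ζ ^ 2) : ℝ) ≤ 1 / 2 := by
    rw [div_le_iff₀ (by positivity)]
    rw [div_le_iff₀ (by positivity)] at hnζ
    linarith
  have h3 : gam n {x : V n | ζ ≤ |‖x‖ ^ 2 - 1|}ᶜ ≤ ENNReal.ofReal (cn n *
      (volume (closedBall (0 : V n) 1)).toReal * Real.exp (-(n : ℝ) / 2 + n * ζ)) := by
    rw [gam_eq, withDensity_apply _ hA.compl]
    have h4 : ∫⁻ x in {x : V n | ζ ≤ |‖x‖ ^ 2 - 1|}ᶜ, ENNReal.ofReal (w n x) ≤
        ∫⁻ x in {x : V n | ζ ≤ |‖x‖ ^ 2 - 1|}ᶜ,
          ENNReal.ofReal (cn n * Real.exp (-(n * (1 - ζ)) / 2)) := by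
      apply setLIntegral_mono measurable_const
      intro x hx
      simp only [mem_compl_iff, mem_ofPred_eq, not_le] at hx
      apply ENNReal.ofReal_le_ofReal
      unfold w
      have := (abs_lt.mp hx).1
      gcongr
      linarith
    refine h4.trans ?_
    rw [setLIntegral_const]
    have hsub : {x : V n | ζ ≤ |‖x‖ ^ 2 - 1|}ᶜ ⊆ closedBall (0 : V n) (Real.sqrt (1 + ζ)) := by
      intro x hx
      simp only [mem_compl_iff, mem_ofPred_eq, not_le] at hx
      rw [mem_closedBall_zero_iff]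
      apply Real.le_sqrt_of_sq_le
      linarith [(abs_lt.mp hx).2]
    have hvol : volume (closedBall (0 : V n) (Real.sqrt (1 + ζ))) =
        ENNReal.ofReal ((Real.sqrt (1 + ζ)) ^ n) * volume (closedBall (0 : V n) 1) := by
      have := Measure.addHaar_closedBall_mul (volume : Measure (V n)) (0 : V n)
        (Real.sqrt_nonneg (1 + ζ)) (zero_le_one (α := ℝ))
      rw [mul_one, finrank_euclideanSpace, Fintype.card_fin] at this
      exact this
    have hsq : (Real.sqrt (1 + ζ)) ^ n ≤ Real.exp (n * (ζ / 2)) := by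
      rw [Real.exp_nat_mul]
      gcongr
      apply Real.sqrt_le_iff.mpr
      refine ⟨by positivity, ?_⟩
      rw [← Real.exp_nat_mul]
      have := Real.add_one_le_exp ζ
      have e : ((2 : ℕ) : ℝ) * (ζ / 2) = ζ := by push_cast; ring
      rw [e]
      linarith
    calc ENNReal.ofReal (cn n * Real.exp (-(n * (1 - ζ)) / 2)) *
          volume {x : V n | ζ ≤ |‖x‖ ^ 2 - 1|}ᶜ
        ≤ ENNReal.ofReal (cn n * Real.exp (-(n * (1 - ζ)) / 2)) *
          (ENNReal.ofReal (Real.exp (n * (ζ / 2))) * volume (closedBall (0 : V n) 1)) := by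
          gcongr
          refine (measure_mono hsub).trans ?_
          rw [hvol]
          gcongr
      _ = ENNReal.ofReal (cn n * (volume (closedBall (0 : V n) 1)).toReal *
          Real.exp (-(n : ℝ) / 2 + n * ζ)) := by
          nth_rewrite 1 [← ENNReal.ofReal_toReal hfin]
          rw [← ENNReal.ofReal_mul (by positivity), ← ENNReal.ofReal_mul (by positivity)]
          congr 1
          have : Real.exp (-(n : ℝ) / 2 + n * ζ) =
              Real.exp (-(n * (1 - ζ)) / 2) * Real.exp (n * (ζ / 2)) := by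
            rw [← Real.exp_add]; congr 1; ring
          rw [this]
          ring
  have h5 : (1 : ℝ≥0∞) ≤ ENNReal.ofReal (1 / 2) + ENNReal.ofReal (cn n *
      (volume (closedBall (0 : V n) 1)).toReal * Real.exp (-(n : ℝ) / 2 + n * ζ)) := by
    rw [← gam_univ n hn, ← measure_add_measure_compl hA]
    gcongr
    exact h1.trans (ENNReal.ofReal_le_ofReal h2)
  rw [← ENNReal.ofReal_add (by norm_num) (by positivity), ← ENNReal.ofReal_one] at h5
  have h6 := (ENNReal.ofReal_le_ofReal_iff (by positivity)).mp h5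
  linarith

theorem tonelli (n : ℕ) (hn : 1 ≤ n) (s : ℝ) (K : Set (V n)) (ν : Measure (V n))
    (hK : Nice n s K ν) (T : Set (V n)) (hTK : T ⊆ K) (hT : MeasurableSet T)
    (hT2 : (1 / 2 : ℝ≥0∞) ≤ ν T) (ε : ℝ) (hε : 0 < ε) :
    ENNReal.ofReal (Real.exp (-(n : ℝ) / 2)) * gam n (closedBall 0 ε) * (1 / 2) ≤
      ENNReal.ofReal (2 * ε ^ s) * gam n (cthickening ε T) := by
  have hprob := hK.prob
  have hgp := gam_prob n hn
  let P : Set (V n × V n) := {p | p.2 ∈ T ∧ dist p.1 p.2 ≤ ε}
  have hP : MeasurableSet P := by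
    refine MeasurableSet.inter (measurable_snd hT) ?_
    exact (isClosed_le (continuous_fst.dist continuous_snd) continuous_const).measurableSet
  have h1 : ((gam n).prod ν) P ≤ ENNReal.ofReal (2 * ε ^ s) * gam n (cthickening ε T) := by
    rw [Measure.prod_apply hP]
    have hm : MeasurableSet (cthickening ε T) := isClosed_cthickening.measurableSet
    rw [← setLIntegral_const, ← lintegral_indicator hm]
    apply lintegral_mono
    intro x
    beta_reduce
    by_cases hx : x ∈ cthickening ε T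
    · rw [indicator_of_mem hx]
      refine (measure_mono ?_).trans (hK.frost x ε hε)
      rintro y ⟨-, hy⟩
      rw [mem_closedBall, dist_comm]
      exact hy
    · have : Prod.mk x ⁻¹' P = ∅ := by
        ext y
        simp only [mem_preimage, mem_empty_iff_false, iff_false]
        rintro ⟨hy1, hy2⟩
        exact hx (mem_cthickening_of_dist_le x y ε T hy1 hy2)
      rw [this, measure_empty]
      exact bot_le
  have h2 : ENNReal.ofReal (Real.exp (-(n : ℝ) / 2)) * gam n (closedBall 0 ε) * (1 / 2) ≤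
      ((gam n).prod ν) P := by
    rw [Measure.prod_apply_symm hP]
    calc ENNReal.ofReal (Real.exp (-(n : ℝ) / 2)) * gam n (closedBall 0 ε) * (1 / 2)
        ≤ ENNReal.ofReal (Real.exp (-(n : ℝ) / 2)) * gam n (closedBall 0 ε) * ν T := by gcongr
      _ = ∫⁻ _ in T, ENNReal.ofReal (Real.exp (-(n : ℝ) / 2)) * gam n (closedBall 0 ε) ∂ν := by
          rw [setLIntegral_const]
      _ = ∫⁻ y, T.indicator (fun _ => ENNReal.ofReal (Real.exp (-(n : ℝ) / 2)) *
            gam n (closedBall 0 ε)) y ∂ν := by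
          rw [lintegral_indicator hT]
      _ ≤ ∫⁻ y, gam n ((fun x => (x, y)) ⁻¹' P) ∂ν := by
          apply lintegral_mono
          intro y
          beta_reduce
          by_cases hy : y ∈ T
          · rw [indicator_of_mem hy]
            have hy1 : ‖y‖ ≤ 1 := by
              have := hK.sub (hTK hy)
              rwa [mem_closedBall_zero_iff] at this
            have e : (fun x => (x, y)) ⁻¹' P = closedBall y ε := by
              ext x
              simp [P, hy, mem_closedBall]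
            rw [e]
            refine le_trans ?_ (translate n hn y ε)
            gcongr
            have : ‖y‖ ^ 2 ≤ 1 := pow_le_one₀ (norm_nonneg _) hy1
            nlinarith [(Nat.cast_nonneg n : (0 : ℝ) ≤ n)]
          · rw [indicator_of_notMem hy]
            exact bot_le
  exact h2.trans h1

theorem main (hNR : StmtNR) : StmtGT := by
  intro κ hκ
  refine ⟨min 1 (κ / 2), lt_min one_pos (by positivity), ?_⟩
  intro ε hε hε0
  have hε1 : ε ≤ 1 := hε0.trans (min_le_left _ _)
  have hε2 : ε ≤ κ / 2 := hε0.trans (min_le_right _ _)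
  set L : ℝ := Real.log (1 / ε) with hL
  have hL0 : 0 ≤ L := Real.log_nonneg (by rw [le_div_iff₀ hε]; linarith)
  obtain ⟨n₀, hn₀⟩ := exists_nat_ge (max 1 (max (4 / (κ / 4) ^ 2) (4 * Real.log 8 / κ)))
  refine ⟨n₀, 1 - κ / (4 * (L + 1)), by
    have : 0 < κ / (4 * (L + 1)) := by positivity
    linarith, ?_⟩
  intro n hn s hs1 hs2 K ν hK T hTK hT hT2
  have hnR : (n₀ : ℝ) ≤ n := by exact_mod_cast hn
  have hn1' : (1 : ℝ) ≤ n := ((le_max_left _ _).trans hn₀).trans hnR
  have hn1 : 1 ≤ n := by exact_mod_cast hn1'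
  have hn2 : 4 / (κ / 4) ^ 2 ≤ n :=
    (((le_max_left _ _).trans (le_max_right _ _)).trans hn₀).trans hnR
  have hn3 : 4 * Real.log 8 / κ ≤ n :=
    (((le_max_right _ _).trans (le_max_right _ _)).trans hn₀).trans hnR
  have hprob := hK.prob
  have hgp := gam_prob n hn1
  have hc := cn_pos n hn1
  set vb : ℝ := (volume (closedBall (0 : V n) 1)).toReal with hvb
  have hvb0 : 0 ≤ vb := ENNReal.toReal_nonneg
  have hton := tonelli n hn1 s K ν hK T hTK hT hT2 ε hε
  have hbl := ball_lower n hn1 ε hε.le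
  have hvl := vol_lower hNR n hn1 (κ / 4) (by positivity) hn2
  rw [← hvb] at hbl hvl
  set g : ℝ := (gam n (cthickening ε T)).toReal with hg
  have hg' : gam n (cthickening ε T) = ENNReal.ofReal g := by
    rw [hg, ENNReal.ofReal_toReal (measure_ne_top _ _)]
  have hg0 : 0 ≤ g := ENNReal.toReal_nonneg
  have hεs : 0 < ε ^ s := Real.rpow_pos_of_pos hε s
  have h1 : Real.exp (-(n : ℝ) / 2) * (cn n * Real.exp (-(n * ε ^ 2) / 2) * ε ^ n * vb) * (1 / 2) ≤
      2 * ε ^ s * g := by
    have h2 : ENNReal.ofReal (Real.exp (-(n : ℝ) / 2) *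
        (cn n * Real.exp (-(n * ε ^ 2) / 2) * ε ^ n * vb) * (1 / 2)) ≤
        ENNReal.ofReal (2 * ε ^ s * g) := by
      rw [ENNReal.ofReal_mul (by positivity), ENNReal.ofReal_mul (by positivity),
        ENNReal.ofReal_mul (by positivity : (0 : ℝ) ≤ 2 * ε ^ s), ← hg']
      have e : ENNReal.ofReal (1 / 2) = 1 / 2 := by
        rw [ENNReal.ofReal_div_of_pos (by norm_num)]; simp
      rw [e]
      refine le_trans ?_ hton
      gcongr
    exact (ENNReal.ofReal_le_ofReal_iff (by positivity)).mp h2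
  -- the real inequality
  have hεn : ε ^ n = ε ^ ((n : ℝ) - s) * ε ^ s := by
    rw [← Real.rpow_add hε, sub_add_cancel, Real.rpow_natCast]
  have hE : Real.exp (-(n : ℝ) / 2 + n * (κ / 4)) = Real.exp (-(n : ℝ) / 2) *
      Real.exp (n * (κ / 4)) := Real.exp_add _ _
  have h3 : (1 / 8) * (Real.exp (-(n * ε ^ 2) / 2) * Real.exp (-(n * (κ / 4))) *
      ε ^ ((n : ℝ) - s)) ≤ g := by
    have h4 : 1 / 2 * Real.exp (-(n * (κ / 4))) ≤ cn n * vb * Real.exp (-(n : ℝ) / 2) := by
      rw [hE] at hvl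
      have h5 : Real.exp (-(n * (κ / 4))) * Real.exp (n * (κ / 4)) = 1 := by
        rw [← Real.exp_add]; simp
      calc 1 / 2 * Real.exp (-(n * (κ / 4)))
          ≤ (cn n * vb * (Real.exp (-(n : ℝ) / 2) * Real.exp (n * (κ / 4)))) *
            Real.exp (-(n * (κ / 4))) := by gcongr
        _ = (cn n * vb * Real.exp (-(n : ℝ) / 2)) *
            (Real.exp (-(n * (κ / 4))) * Real.exp (n * (κ / 4))) := by ring
        _ = _ := by rw [h5, mul_one]
    have h6 : (1 / 8 * (Real.exp (-(n * ε ^ 2) / 2) * Real.exp (-(n * (κ / 4))) *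
        ε ^ ((n : ℝ) - s))) * (2 * ε ^ s) ≤ g * (2 * ε ^ s) := by
      calc (1 / 8 * (Real.exp (-(n * ε ^ 2) / 2) * Real.exp (-(n * (κ / 4))) *
            ε ^ ((n : ℝ) - s))) * (2 * ε ^ s)
          = (1 / 2 * Real.exp (-(n * (κ / 4)))) * (Real.exp (-(n * ε ^ 2) / 2) *
            (ε ^ ((n : ℝ) - s) * ε ^ s) * (1 / 2)) := by ring
        _ ≤ (cn n * vb * Real.exp (-(n : ℝ) / 2)) * (Real.exp (-(n * ε ^ 2) / 2) *
            (ε ^ ((n : ℝ) - s) * ε ^ s) * (1 / 2)) := by
            gcongr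
        _ = Real.exp (-(n : ℝ) / 2) * (cn n * Real.exp (-(n * ε ^ 2) / 2) * ε ^ n * vb) *
            (1 / 2) := by rw [hεn]; ring
        _ ≤ 2 * ε ^ s * g := h1
        _ = g * (2 * ε ^ s) := by ring
    exact le_of_mul_le_mul_right h6 (by positivity)
  rw [hg']
  apply ENNReal.ofReal_le_ofReal
  refine le_trans ?_ h3
  have a1 : Real.exp (-(κ / 4 * n)) ≤ 1 / 8 := by
    have : Real.log 8 ≤ κ / 4 * n := by
      rw [div_le_iff₀ hκ] at hn3
      linarith
    have h8 : (1 / 8 : ℝ) = Real.exp (-Real.log 8) := by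
      rw [Real.exp_neg, Real.exp_log (by norm_num)]; norm_num
    rw [h8]
    exact Real.exp_le_exp.mpr (by linarith)
  have a2 : Real.exp (-(κ / 4 * n)) ≤ Real.exp (-(n * ε ^ 2) / 2) := by
    apply Real.exp_le_exp.mpr
    have : ε ^ 2 ≤ κ / 2 := by nlinarith
    nlinarith
  have a3 : Real.exp (-(κ / 4 * n)) ≤ ε ^ ((n : ℝ) - s) := by
    rw [Real.rpow_def_of_pos hε]
    apply Real.exp_le_exp.mpr
    have hlog : Real.log ε = -L := by
      rw [hL, one_div, Real.log_inv]; ring
    rw [hlog]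
    have hns : (n : ℝ) - s ≤ κ / (4 * (L + 1)) * n := by linarith
    have hns0 : 0 ≤ (n : ℝ) - s := by linarith
    have : L * ((n : ℝ) - s) ≤ κ / 4 * n := by
      calc L * ((n : ℝ) - s) ≤ L * (κ / (4 * (L + 1)) * n) := by gcongr
        _ = κ / 4 * n * (L / (L + 1)) := by field_simp
        _ ≤ κ / 4 * n * 1 := by
            gcongr
            rw [div_le_one (by linarith)]
            linarith
        _ = κ / 4 * n := mul_one _
    linarith
  have a4 : Real.exp (-κ * n) = Real.exp (-(κ / 4 * n)) * (Real.exp (-(κ / 4 * n)) *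
      Real.exp (-(n * (κ / 4))) * Real.exp (-(κ / 4 * n))) := by
    rw [← Real.exp_add, ← Real.exp_add, ← Real.exp_add]
    congr 1
    ring
  rw [a4]
  gcongr

end Pool.Agent.L0h37.AN.GT
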