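import Pool.Agent.L0h37.AN.Defs

/-!
# KT: negative moments from the Fourier transform
-/

set_option autoImplicit false

open MeasureTheory Metric Set Filter Topology
open scoped ENNReal NNReal RealInnerProductSpace

namespace Pool.Agent.L0h37.AN.KT

/-- `ε - i (u - u₀)` -/
noncomputable def r (ε u₀ u : ℝ) : ℂ := (ε : ℂ) - Complex.I * ((u - u₀ : ℝ) : ℂ)

lemma r_re (ε u₀ u : ℝ) : (r ε u₀ u).re = ε := by simp [r]
lemma r_im (ε u₀ u : ℝ) : (r ε u₀ u).im = -(u - u₀) := by simp [r]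

lemma r_ne {ε u₀ u : ℝ} (hε : 0 < ε) : r ε u₀ u ≠ 0 := by
  intro h
  have := r_re ε u₀ u
  rw [h, Complex.zero_re] at this
  linarith

lemma real_int {ε : ℝ} (hε : 0 < ε) (k : ℕ) :
    IntegrableOn (fun l : ℝ => l ^ k * Real.exp (-(ε * l))) (Ioi 0) := by
  have h := integrableOn_rpow_mul_exp_neg_mul_rpow (s := (k : ℝ)) (p := 1) (b := ε)
    (by have : (0 : ℝ) ≤ k := by positivity
        linarith) (by norm_num) hε
  refine h.congr_fun (fun l hl => ?_) measurableSet_Ioi
  simp only [Real.rpow_natCast, Real.rpow_one, neg_mul]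

/-- integrability -/
lemma cx_int {ε : ℝ} (hε : 0 < ε) (u₀ u : ℝ) (k : ℕ) :
    IntegrableOn (fun l : ℝ => (l : ℂ) ^ k * Complex.exp (-(r ε u₀ u * l))) (Ioi 0) := by
  refine (real_int hε k).norm.mono' ?_ (Filter.Eventually.of_forall fun l => ?_)
  · apply Continuous.aestronglyMeasurable
    fun_prop
  · rw [norm_mul, norm_pow, Complex.norm_real, Complex.norm_exp, norm_mul, norm_pow,
      Real.norm_eq_abs (Real.exp _), abs_of_pos (Real.exp_pos _)]
    apply le_of_eq
    congr 2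
    simp [r]

/-- the Gamma integral -/
lemma gi {ε : ℝ} (hε : 0 < ε) (u₀ u : ℝ) (k : ℕ) :
    ∫ l in Ioi (0 : ℝ), (l : ℂ) ^ k * Complex.exp (-(r ε u₀ u * l)) =
      (k.factorial : ℂ) * ((r ε u₀ u)⁻¹) ^ (k + 1) := by
  induction k with
  | zero =>
    have h := integral_exp_mul_complex_Ioi (a := -(r ε u₀ u))
      (by rw [Complex.neg_re, r_re]; linarith) 0
    simp only [pow_zero, one_mul, Nat.factorial_zero, Nat.cast_one, zero_add, pow_one]
    simp only [neg_mul] at h
    rw [h]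
    simp
  | succ k ih =>
    have hder : ∀ l ∈ Ici (0 : ℝ), HasDerivAt
        (fun l : ℝ => (l : ℂ) ^ (k + 1) * Complex.exp (-(r ε u₀ u * l)))
        (((k : ℂ) + 1) * ((l : ℂ) ^ k * Complex.exp (-(r ε u₀ u * l))) -
          r ε u₀ u * ((l : ℂ) ^ (k + 1) * Complex.exp (-(r ε u₀ u * l)))) l := by
      intro l _
      have h1 : HasDerivAt (fun l : ℂ => l ^ (k + 1) * Complex.exp (-(r ε u₀ u * l)))
          ((((k + 1 : ℕ) : ℂ) * (l : ℂ) ^ k) * Complex.exp (-(r ε u₀ u * l)) +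
            (l : ℂ) ^ (k + 1) * (Complex.exp (-(r ε u₀ u * l)) * (-(r ε u₀ u * 1)))) (l : ℂ) := by
        have h2 : HasDerivAt (fun l : ℂ => l ^ (k + 1)) (((k + 1 : ℕ) : ℂ) * (l : ℂ) ^ k) (l : ℂ) := by
          simpa using hasDerivAt_pow (k + 1) (l : ℂ)
        exact h2.mul (((hasDerivAt_id (l : ℂ)).const_mul (r ε u₀ u)).neg.cexp)
      have h3 := h1.comp_ofReal
      convert! h3 using 1
      push_cast
      ring
    have hlim : Tendsto (fun l : ℝ => (l : ℂ) ^ (k + 1) * Complex.exp (-(r ε u₀ u * l)))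
        atTop (𝓝 0) := by
      rw [tendsto_zero_iff_norm_tendsto_zero]
      have h4 := tendsto_rpow_mul_exp_neg_mul_atTop_nhds_zero ((k + 1 : ℕ) : ℝ) ε hε
      refine h4.congr' ?_
      filter_upwards [eventually_gt_atTop 0] with l hl
      rw [norm_mul, norm_pow, Complex.norm_real, Complex.norm_exp, Real.rpow_natCast,
        Real.norm_eq_abs, abs_of_pos hl]
      congr 2
      simp [r]
    have h5 := integral_Ioi_of_hasDerivAt_of_tendsto' hder
      (((cx_int hε u₀ u k).const_mul _).sub ((cx_int hε u₀ u (k + 1)).const_mul _)) hlim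
    rw [integral_sub ((cx_int hε u₀ u k).const_mul _) ((cx_int hε u₀ u (k + 1)).const_mul _),
      integral_const_mul, integral_const_mul, ih] at h5
    simp only [Complex.ofReal_zero, ne_eq, Nat.add_eq_zero_iff, one_ne_zero, and_false,
      not_false_eq_true, zero_pow, zero_mul, sub_zero] at h5
    have hr : r ε u₀ u ≠ 0 := r_ne hε
    have h6 : r ε u₀ u * ∫ l in Ioi (0 : ℝ), (l : ℂ) ^ (k + 1) * Complex.exp (-(r ε u₀ u * l)) =
        ((k : ℂ) + 1) * ((k.factorial : ℂ) * ((r ε u₀ u)⁻¹) ^ (k + 1)) := (sub_eq_zero.mp h5).symm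
    rw [Nat.factorial_succ]
    push_cast
    calc _ = (r ε u₀ u)⁻¹ * (r ε u₀ u * ∫ l in Ioi (0 : ℝ), (l : ℂ) ^ (k + 1) *
          Complex.exp (-(r ε u₀ u * l))) := by rw [inv_mul_cancel_left₀ hr]
      _ = _ := by
        rw [h6, pow_succ ((r ε u₀ u)⁻¹) (k + 1)]
        ring

lemma key (P : Measure ℝ) [IsFiniteMeasure P] (u₀ : ℝ) (k : ℕ) {ε : ℝ} (hε : 0 < ε)
    (hint : IntegrableOn (fun l : ℝ => l ^ k * ‖charFun P l‖) (Ioi 0)) :
    ‖∫ u, ((r ε u₀ u)⁻¹) ^ (k + 1) ∂P‖ ≤
      ((k.factorial : ℝ))⁻¹ * ∫ l in Ioi (0 : ℝ), l ^ k * ‖charFun P l‖ := by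
  have hk : (0 : ℝ) < k.factorial := by exact_mod_cast k.factorial_pos
  have e1 : (k.factorial : ℂ) * ∫ u, ((r ε u₀ u)⁻¹) ^ (k + 1) ∂P =
      ∫ u, (∫ l in Ioi (0 : ℝ), (l : ℂ) ^ k * Complex.exp (-(r ε u₀ u * l))) ∂P := by
    rw [← integral_const_mul]
    apply integral_congr_ae
    refine Filter.Eventually.of_forall fun u => ?_
    simp only
    rw [gi hε]
  have hI : Integrable (fun p : ℝ × ℝ => (p.2 : ℂ) ^ k * Complex.exp (-(r ε u₀ p.1 * p.2)))
      (P.prod (volume.restrict (Ioi (0 : ℝ)))) := by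
    have h1 : Integrable (fun p : ℝ × ℝ => (1 : ℝ) * (p.2 ^ k * Real.exp (-(ε * p.2))))
        (P.prod (volume.restrict (Ioi (0 : ℝ)))) :=
      Integrable.mul_prod (integrable_const (1 : ℝ)) (real_int hε k)
    refine h1.norm.mono' ?_ (Filter.Eventually.of_forall fun p => ?_)
    · apply Continuous.aestronglyMeasurable
      unfold r
      fun_prop
    · rw [norm_mul, norm_pow, Complex.norm_real, Complex.norm_exp, one_mul, norm_mul, norm_pow,
        Real.norm_eq_abs (Real.exp _), abs_of_pos (Real.exp_pos _)]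
      apply le_of_eq
      congr 2
      simp [r]
  rw [integral_integral_swap hI] at e1
  have e2 : ∀ l : ℝ, ∫ u, (l : ℂ) ^ k * Complex.exp (-(r ε u₀ u * l)) ∂P =
      (l : ℂ) ^ k * (Complex.exp (-((ε : ℂ) + Complex.I * u₀) * l) * charFun P l) := by
    intro l
    rw [integral_const_mul]
    congr 1
    rw [charFun_apply_real, ← integral_const_mul]
    apply integral_congr_ae
    refine Filter.Eventually.of_forall fun u => ?_
    simp only
    rw [← Complex.exp_add]
    congr 1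
    simp only [r]
    push_cast
    ring
  simp_rw [e2] at e1
  have h3 : ‖(k.factorial : ℂ) * ∫ u, ((r ε u₀ u)⁻¹) ^ (k + 1) ∂P‖ ≤
      ∫ l in Ioi (0 : ℝ), l ^ k * ‖charFun P l‖ := by
    rw [e1]
    apply norm_integral_le_of_norm_le hint
    refine (ae_restrict_iff' measurableSet_Ioi).mpr (Filter.Eventually.of_forall fun l hl => ?_)
    have hl' : (0 : ℝ) < l := hl
    rw [norm_mul, norm_pow, Complex.norm_real, Real.norm_eq_abs, abs_of_pos hl', norm_mul,
      Complex.norm_exp]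
    apply mul_le_mul_of_nonneg_left _ (by positivity)
    have : Real.exp ((-((ε : ℂ) + Complex.I * u₀) * l).re) ≤ 1 := by
      rw [Real.exp_le_one_iff]
      simp
      positivity
    calc _ ≤ 1 * ‖charFun P l‖ := mul_le_mul_of_nonneg_right this (norm_nonneg _)
      _ = _ := one_mul _
  rw [norm_mul, Complex.norm_natCast] at h3
  rw [inv_mul_eq_div, le_div_iff₀ hk, mul_comm]
  exact h3

theorem main : StmtKT := by
  intro P _ u₀ ε₀ hε₀ hP D hD hDe hint
  obtain ⟨k, rfl⟩ : ∃ k, D = k + 1 := ⟨D - 1, by omega⟩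
  rw [Nat.add_sub_cancel] at hint ⊢
  have hae : ∀ᵐ u ∂P, ε₀ ≤ |u - u₀| := by
    rw [ae_iff]
    simpa only [not_le] using hP
  have hlim : Tendsto (fun ε : ℝ => ∫ u, ((r ε u₀ u)⁻¹) ^ (k + 1) ∂P) (𝓝[>] 0)
      (𝓝 (∫ u, ((r 0 u₀ u)⁻¹) ^ (k + 1) ∂P)) := by
    apply tendsto_integral_filter_of_dominated_convergence (fun _ => (ε₀⁻¹) ^ (k + 1))
    · refine Filter.Eventually.of_forall fun ε => ?_
      apply Measurable.aestronglyMeasurable
      unfold r
      fun_prop
    · refine Filter.Eventually.of_forall fun ε => ?_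
      filter_upwards [hae] with u hu
      rw [norm_pow, norm_inv]
      have h1 : ε₀ ≤ ‖r ε u₀ u‖ := by
        refine hu.trans ?_
        have := Complex.abs_im_le_norm (r ε u₀ u)
        rw [r_im, abs_neg] at this
        exact this
      gcongr
    · exact integrable_const _
    · filter_upwards [hae] with u hu
      have hne : r 0 u₀ u ≠ 0 := by
        intro h
        have h2 := r_im 0 u₀ u
        rw [h, Complex.zero_im] at h2
        have : u - u₀ = 0 := by linarith
        rw [this, abs_zero] at hu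
        linarith
      have hc : Tendsto (fun ε : ℝ => r ε u₀ u) (𝓝 0) (𝓝 (r 0 u₀ u)) := by
        have : Continuous (fun ε : ℝ => r ε u₀ u) := by
          unfold r
          fun_prop
        exact this.tendsto 0
      exact ((hc.mono_left nhdsWithin_le_nhds).inv₀ hne).pow (k + 1)
  have h1 : ‖∫ u, ((r 0 u₀ u)⁻¹) ^ (k + 1) ∂P‖ ≤
      ((k.factorial : ℝ))⁻¹ * ∫ l in Ioi (0 : ℝ), l ^ k * ‖charFun P l‖ := by
    apply le_of_tendsto hlim.norm
    filter_upwards [self_mem_nhdsWithin] with ε hε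
    exact key P u₀ k hε hint
  refine le_trans (le_of_eq ?_) h1
  have h2 : ∀ u : ℝ, ((r 0 u₀ u)⁻¹) ^ (k + 1) =
      Complex.I ^ (k + 1) * ((((|u - u₀| ^ (k + 1))⁻¹ : ℝ)) : ℂ) := by
    intro u
    have : (r 0 u₀ u)⁻¹ = Complex.I * (((u - u₀ : ℝ) : ℂ))⁻¹ := by
      simp only [r]
      rw [Complex.ofReal_zero, zero_sub, ← neg_mul, mul_inv, inv_neg, Complex.inv_I, neg_neg]
    rw [this, mul_pow, hDe.pow_abs]
    push_cast
    rw [inv_pow]
  simp_rw [h2]
  rw [integral_const_mul, norm_mul, norm_pow, Complex.norm_I, one_pow, one_mul,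
    integral_complex_ofReal, Complex.norm_real, Real.norm_eq_abs, abs_of_nonneg]
  apply integral_nonneg
  intro u
  simp only [Pi.zero_apply]
  positivity

end Pool.Agent.L0h37.AN.KT
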