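import Pool.Agent.L0h37.AN.Defs

/-!
# LC: layer cake for Gaussians and Frostman measures
-/

set_option autoImplicit false

open MeasureTheory Metric Set Filter Topology
open scoped ENNReal NNReal RealInnerProductSpace

namespace Pool.Agent.L0h37.AN.LC

lemma exp_eq (c : ℝ) :
    ENNReal.ofReal (Real.exp (-c)) = ∫⁻ u in Ioi c, ENNReal.ofReal (Real.exp (-u)) := by
  rw [← ofReal_integral_eq_lintegral_ofReal, integral_exp_neg_Ioi]
  · exact integrableOn_exp_neg_Ioi c
  · exact Filter.Eventually.of_forall fun u => (Real.exp_pos _).le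

theorem main : StmtLC := by
  intro n μ _ A σ hA hσ hμ a q ha
  have key : ∫⁻ y, ENNReal.ofReal (Real.exp (-a * ‖y - q‖ ^ 2)) ∂μ ≤
      ENNReal.ofReal (A * a ^ (-(σ / 2)) * Real.Gamma (σ / 2 + 1)) := by
    have e0 : ∀ y : V n, ENNReal.ofReal (Real.exp (-a * ‖y - q‖ ^ 2)) =
        ∫⁻ u, {p : V n × ℝ | a * ‖p.1 - q‖ ^ 2 < p.2}.indicator
          (fun p => ENNReal.ofReal (Real.exp (-p.2))) (y, u) := by
      intro y
      rw [neg_mul, exp_eq, ← lintegral_indicator measurableSet_Ioi]
      rfl
    have hmS : MeasurableSet {p : V n × ℝ | a * ‖p.1 - q‖ ^ 2 < p.2} := by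
      apply measurableSet_lt <;> fun_prop
    simp_rw [e0]
    rw [lintegral_lintegral_swap (by
      apply AEMeasurable.indicator _ hmS
      fun_prop)]
    have e1 : ∀ u : ℝ, ∫⁻ y, {p : V n × ℝ | a * ‖p.1 - q‖ ^ 2 < p.2}.indicator
          (fun p => ENNReal.ofReal (Real.exp (-p.2))) (y, u) ∂μ ≤
        (Ioi (0 : ℝ)).indicator (fun u => ENNReal.ofReal
          (A * a ^ (-(σ / 2)) * (Real.exp (-u) * u ^ (σ / 2 + 1 - 1)))) u := by
      intro u
      have e2 : ∀ y : V n, {p : V n × ℝ | a * ‖p.1 - q‖ ^ 2 < p.2}.indicator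
          (fun p => ENNReal.ofReal (Real.exp (-p.2))) (y, u) =
          {y : V n | a * ‖y - q‖ ^ 2 < u}.indicator
            (fun _ => ENNReal.ofReal (Real.exp (-u))) y := by
        intro y; rfl
      simp_rw [e2]
      have hmU : MeasurableSet {y : V n | a * ‖y - q‖ ^ 2 < u} := by
        apply measurableSet_lt <;> fun_prop
      rw [lintegral_indicator_const hmU]
      rcases le_or_gt u 0 with hu | hu
      · have : {y : V n | a * ‖y - q‖ ^ 2 < u} = ∅ := by
          ext y
          simp only [mem_setOf_eq, mem_empty_iff_false, iff_false, not_lt]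
          have : 0 ≤ a * ‖y - q‖ ^ 2 := by positivity
          linarith
        rw [this, measure_empty, mul_zero]
        exact zero_le
      · rw [indicator_of_mem (show u ∈ Ioi (0 : ℝ) from hu)]
        have hsub : {y : V n | a * ‖y - q‖ ^ 2 < u} ⊆ closedBall q (Real.sqrt (u / a)) := by
          intro y hy
          rw [mem_closedBall, dist_eq_norm]
          apply Real.le_sqrt_of_sq_le
          rw [le_div_iff₀ ha]
          have : a * ‖y - q‖ ^ 2 < u := hy
          linarith
        have h3 : μ {y : V n | a * ‖y - q‖ ^ 2 < u} ≤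
            ENNReal.ofReal (A * (Real.sqrt (u / a)) ^ σ) :=
          (measure_mono hsub).trans (hμ q _ (Real.sqrt_pos.mpr (by positivity)))
        calc ENNReal.ofReal (Real.exp (-u)) * μ {y : V n | a * ‖y - q‖ ^ 2 < u}
            ≤ ENNReal.ofReal (Real.exp (-u)) * ENNReal.ofReal (A * (Real.sqrt (u / a)) ^ σ) := by
              gcongr
          _ = ENNReal.ofReal (Real.exp (-u) * (A * (Real.sqrt (u / a)) ^ σ)) := by
              rw [← ENNReal.ofReal_mul (Real.exp_pos _).le]
          _ = _ := by
              congr 1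
              rw [Real.sqrt_eq_rpow, ← Real.rpow_mul (by positivity), add_sub_cancel_right,
                show (1 : ℝ) / 2 * σ = σ / 2 by ring, Real.div_rpow hu.le ha.le,
                Real.rpow_neg ha.le]
              field_simp
    refine (lintegral_mono e1).trans_eq ?_
    rw [lintegral_indicator measurableSet_Ioi, Real.Gamma_eq_integral (by positivity),
      ← integral_const_mul, ofReal_integral_eq_lintegral_ofReal]
    · exact (Real.GammaIntegral_convergent (by positivity)).const_mul _
    · refine (ae_restrict_iff' measurableSet_Ioi).mpr (Filter.Eventually.of_forall fun u hu => ?_)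
      have hu' : (0 : ℝ) < u := hu
      simp only [Pi.zero_apply]
      positivity
  rw [integral_eq_lintegral_of_nonneg_ae (Filter.Eventually.of_forall fun y =>
    (Real.exp_pos _).le) (by
      apply Continuous.aestronglyMeasurable
      fun_prop)]
  apply ENNReal.toReal_le_of_le_ofReal _ key
  have : 0 < Real.Gamma (σ / 2 + 1) := Real.Gamma_pos_of_pos (by positivity)
  positivity

end Pool.Agent.L0h37.AN.LC
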