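import Pool.Agent.L0h37.AN.Defs
import Pool.Agent.R280.HC.FL
import Pool.Agent.R280.HC.C0
import Pool.Agent.R280.HC.WL
import Pool.Agent.R280.HC.SA
import Pool.Agent.R280.HC.SB

/-!
# NM: normalised Frostman measures
-/

set_option autoImplicit false

open MeasureTheory Metric Set Filter Topology
open scoped ENNReal NNReal RealInnerProductSpace

namespace Pool.Agent.L0h37.AN.NM

open Pool.Agent.L0h37.AN

theorem main (hBC : StmtBC) : StmtNM := by
  intro n E hE s hs hdim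
  obtain ⟨K₀, hK₀E, hK₀, hc⟩ := hBC n E hE s hs hdim
  -- Frostman's lemma
  obtain ⟨κ, hκ, hκc⟩ : ∃ κ : ℝ, 0 < κ ∧ ENNReal.ofReal κ ≤ Pool.Agent.R280.HC.cont s K₀ := by
    obtain ⟨q, hq0, hq⟩ := ENNReal.lt_iff_exists_real_btwn.mp hc
    refine ⟨q, ?_, hq.2.le⟩
    exact ENNReal.ofReal_pos.mp hq.1
  obtain ⟨μ, hμ1, hμ2, hμ3⟩ := Pool.Agent.R280.HC.FL.main Pool.Agent.R280.HC.C0.main
    Pool.Agent.R280.HC.WL.main Pool.Agent.R280.HC.SA.main Pool.Agent.R280.HC.SB.main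
    (V n) K₀ hK₀ s hs κ hκ hκc
  set A : ℝ := 2 * 120 ^ s / κ with hA
  have hA0 : 0 ≤ A := by positivity
  -- the density function
  let f : V n × {r : ℝ // 0 < r} → ℝ := fun p => μ.real (closedBall p.1 p.2.1) / p.2.1 ^ s
  have hfA : ∀ p, f p ≤ A := by
    intro p
    have hp : (0 : ℝ) < p.2.1 ^ s := Real.rpow_pos_of_pos p.2.2 s
    rw [div_le_iff₀ hp]
    have := hμ3 p.1 p.2.1 p.2.2
    exact ENNReal.toReal_le_of_le_ofReal (by positivity) this
  have hbdd : BddAbove (range f) := ⟨A, by rintro _ ⟨p, rfl⟩; exact hfA p⟩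
  set M : ℝ := sSup (range f) with hM
  have hfM : ∀ (z : V n) (r : ℝ), 0 < r → μ.real (closedBall z r) ≤ M * r ^ s := by
    intro z r hr
    have hp : (0 : ℝ) < r ^ s := Real.rpow_pos_of_pos hr s
    have h1 : f (z, ⟨r, hr⟩) ≤ M := le_csSup hbdd ⟨_, rfl⟩
    exact (div_le_iff₀ hp).mp h1
  have hM0 : 0 < M := by
    obtain ⟨R, hR⟩ := hK₀.isBounded.subset_closedBall (0 : V n)
    have hR' : K₀ ⊆ closedBall (0 : V n) (max R 1) :=
      hR.trans (closedBall_subset_closedBall (le_max_left _ _))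
    have hpos : (0 : ℝ) < max R 1 := lt_of_lt_of_le one_pos (le_max_right _ _)
    have h1 : μ (closedBall (0 : V n) (max R 1)) = 1 := by
      have h2 : μ (closedBall (0 : V n) (max R 1))ᶜ = 0 :=
        measure_mono_null (compl_subset_compl.mpr hR') hμ2
      exact (prob_compl_eq_zero_iff isClosed_closedBall.measurableSet).mp h2
    have h2 := hfM 0 (max R 1) hpos
    rw [measureReal_def, h1, ENNReal.toReal_one] at h2
    by_contra hcon
    have h3 : M * (max R 1) ^ s ≤ 0 :=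
      mul_nonpos_of_nonpos_of_nonneg (not_lt.mp hcon) (Real.rpow_nonneg hpos.le s)
    linarith
  have hne : (range f).Nonempty := ⟨f (0, ⟨1, one_pos⟩), ⟨_, rfl⟩⟩
  obtain ⟨_, ⟨⟨z₀, r₀, hr₀⟩, rfl⟩, hlt⟩ := exists_lt_of_lt_csSup hne (half_lt_self hM0)
  have hr₀s : (0 : ℝ) < r₀ ^ s := Real.rpow_pos_of_pos hr₀ s
  have hB : M / 2 * r₀ ^ s < μ.real (closedBall z₀ r₀) := by
    have := (lt_div_iff₀ hr₀s).mp hlt
    exact this
  set B₀ : Set (V n) := closedBall z₀ r₀ with hB₀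
  have hBpos : 0 < μ.real B₀ := lt_trans (by positivity) hB
  have hBne : μ B₀ ≠ 0 := by
    intro h
    rw [measureReal_def, h] at hBpos
    simp at hBpos
  have hBtop : μ B₀ ≠ ⊤ := measure_ne_top μ B₀
  let φ : V n → V n := fun y => r₀⁻¹ • (y - z₀)
  have hφ : Measurable φ := by fun_prop
  have hφc : ∀ y, z₀ + r₀ • φ y = y := by
    intro y
    simp only [φ]
    rw [smul_smul, mul_inv_cancel₀ hr₀.ne', one_smul]
    abel
  let K : Set (V n) := {y | y ∈ closedBall (0 : V n) 1 ∧ z₀ + r₀ • y ∈ K₀}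
  have hKcl : IsClosed K := by
    refine isClosed_closedBall.inter (hK₀.isClosed.preimage ?_)
    fun_prop
  have hKc : IsCompact K :=
    (isCompact_closedBall (0 : V n) 1).of_isClosed_subset hKcl fun y hy => hy.1
  have hKm : MeasurableSet K := hKcl.measurableSet
  let ν : Measure (V n) := (μ B₀)⁻¹ • Measure.map φ (μ.restrict B₀)
  have hν : ∀ S : Set (V n), MeasurableSet S → ν S = (μ B₀)⁻¹ * μ (φ ⁻¹' S ∩ B₀) := by
    intro S hS
    simp only [ν, Measure.smul_apply, smul_eq_mul]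
    rw [Measure.map_apply hφ hS, Measure.restrict_apply (hφ hS)]
  refine ⟨K, ν, z₀, r₀, ⟨hKc, fun y hy => hy.1, ⟨?_⟩, ?_, ?_⟩, hr₀, fun y hy => hK₀E hy.2⟩
  · rw [hν _ MeasurableSet.univ, preimage_univ, univ_inter, ENNReal.inv_mul_cancel hBne hBtop]
  · rw [hν _ hKm.compl]
    have : μ (φ ⁻¹' Kᶜ ∩ B₀) = 0 := by
      refine measure_mono_null ?_ hμ2
      rintro y ⟨hy1, hy2⟩ hyK
      refine hy1 ⟨?_, ?_⟩
      · rw [mem_closedBall_zero_iff]
        simp only [φ]
        rw [norm_smul, norm_inv, Real.norm_of_nonneg hr₀.le]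
        rw [hB₀, mem_closedBall, dist_eq_norm] at hy2
        rw [inv_mul_le_iff₀ hr₀]
        simpa using hy2
      · rw [hφc]; exact hyK
    rw [this, mul_zero]
  · intro z r hr
    rw [hν _ isClosed_closedBall.measurableSet]
    have hsub : φ ⁻¹' closedBall z r ∩ B₀ ⊆ closedBall (z₀ + r₀ • z) (r₀ * r) := by
      rintro y ⟨hy, -⟩
      rw [mem_preimage, mem_closedBall, dist_eq_norm] at hy
      rw [mem_closedBall, dist_eq_norm]
      have h1 : y - (z₀ + r₀ • z) = r₀ • (φ y - z) := by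
        rw [smul_sub]
        nth_rewrite 1 [← hφc y]
        abel
      rw [h1, norm_smul, Real.norm_of_nonneg hr₀.le]
      exact mul_le_mul_of_nonneg_left hy hr₀.le
    have h2 : μ (φ ⁻¹' closedBall z r ∩ B₀) ≤ ENNReal.ofReal (M * (r₀ * r) ^ s) := by
      refine (measure_mono hsub).trans ?_
      rw [← ofReal_measureReal]
      exact ENNReal.ofReal_le_ofReal (hfM _ _ (mul_pos hr₀ hr))
    have h3 : μ B₀ = ENNReal.ofReal (μ.real B₀) := by rw [ofReal_measureReal]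
    calc (μ B₀)⁻¹ * μ (φ ⁻¹' closedBall z r ∩ B₀)
        ≤ (μ B₀)⁻¹ * ENNReal.ofReal (M * (r₀ * r) ^ s) := by gcongr
      _ = ENNReal.ofReal ((μ.real B₀)⁻¹ * (M * (r₀ * r) ^ s)) := by
          rw [h3, ← ENNReal.ofReal_inv_of_pos hBpos, ← ENNReal.ofReal_mul (by positivity)]
      _ ≤ ENNReal.ofReal (2 * r ^ s) := by
          apply ENNReal.ofReal_le_ofReal
          rw [inv_mul_le_iff₀ hBpos, Real.mul_rpow hr₀.le hr.le]
          have hrs : (0 : ℝ) < r ^ s := Real.rpow_pos_of_pos hr s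
          have h4 : M * r₀ ^ s ≤ 2 * μ.real B₀ := by linarith
          calc M * (r₀ ^ s * r ^ s) = (M * r₀ ^ s) * r ^ s := by ring
            _ ≤ (2 * μ.real B₀) * r ^ s := by gcongr
            _ = μ.real B₀ * (2 * r ^ s) := by ring

end Pool.Agent.L0h37.AN.NM
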