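import Pool.Agent.L0h37.AN.Defs

/-!
# PA: a set of full measure contains two vectors with a prescribed angle
-/

set_option autoImplicit false

open MeasureTheory Metric Set Filter Topology
open scoped ENNReal NNReal RealInnerProductSpace Pointwise

namespace Pool.Agent.L0h37.AN.PA

open Pool.Agent.L0h37.AN

/-- almost every plane meets a null set in a null set -/
theorem plane {n : ℕ} (N : Set (V n)) (hNm : MeasurableSet N)
    (hN : (volume : Measure (V n)) N = 0) :
    ∀ᵐ q ∂((volume : Measure (V n)).prod (volume : Measure (V n))),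
      (volume : Measure (ℝ × ℝ)) {p : ℝ × ℝ | p.1 • q.1 + p.2 • q.2 ∈ N} = 0 := by
  let Z : Set ((V n × V n) × (ℝ × ℝ)) := {z | z.2.1 • z.1.1 + z.2.2 • z.1.2 ∈ N}
  have hZ : MeasurableSet Z := by
    have hc : Continuous (fun z : (V n × V n) × (ℝ × ℝ) => z.2.1 • z.1.1 + z.2.2 • z.1.2) := by
      fun_prop
    exact hc.measurable hNm
  have h0 : (((volume : Measure (V n)).prod (volume : Measure (V n))).prod
      (volume : Measure (ℝ × ℝ))) Z = 0 := by
    rw [Measure.prod_apply_symm hZ, lintegral_eq_zero_iff (measurable_measure_prodMk_right hZ)]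
    have h1 : ∀ᵐ p ∂(volume : Measure (ℝ × ℝ)), p.1 ≠ 0 := by
      rw [ae_iff]
      have : {p : ℝ × ℝ | ¬ p.1 ≠ 0} = ({0} : Set ℝ) ×ˢ univ := by
        ext p; simp
      rw [this, Measure.volume_eq_prod, Measure.prod_prod]
      simp
    filter_upwards [h1] with p hp
    show ((volume : Measure (V n)).prod (volume : Measure (V n)))
      ((fun x => (x, p)) ⁻¹' Z) = 0
    have hm : MeasurableSet ((fun x : V n × V n => (x, p)) ⁻¹' Z) :=
      measurable_prodMk_right hZ
    rw [Measure.prod_apply_symm hm, lintegral_eq_zero_iff (measurable_measure_prodMk_right hm)]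
    refine Filter.Eventually.of_forall (fun w => ?_)
    show (volume : Measure (V n)) ((fun x => (x, w)) ⁻¹' ((fun x : V n × V n => (x, p)) ⁻¹' Z)) = 0
    have h2 : (fun x => (x, w)) ⁻¹' ((fun x : V n × V n => (x, p)) ⁻¹' Z) =
        (fun x => p.1 • x) ⁻¹' ((fun x => x + p.2 • w) ⁻¹' N) := rfl
    rw [h2, Measure.addHaar_preimage_smul _ hp, measure_preimage_add_right, hN, mul_zero]
  have h2 := Measure.ae_ae_of_ae_prod (p := fun z => z ∉ Z)
    (μ := ((volume : Measure (V n)).prod (volume : Measure (V n))))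
    (ν := (volume : Measure (ℝ × ℝ))) (by
      rw [ae_iff]
      simpa using h0)
  filter_upwards [h2] with q hq
  rw [ae_iff] at hq
  simpa [Z] using hq

theorem main : StmtPA := by
  intro n hn D hD α hα0 hαπ
  set N : Set (V n) := toMeasurable volume Dᶜ with hNdef
  have hNm : MeasurableSet N := measurableSet_toMeasurable _ _
  have hN0 : (volume : Measure (V n)) N = 0 := by rw [hNdef, measure_toMeasurable]; exact hD
  have hND : ∀ x, x ∉ N → x ∈ D := by
    intro x hx
    by_contra h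
    exact hx (subset_toMeasurable _ _ h)
  have hpl := plane N hNm hN0
  -- independent pairs form a nonempty open set
  let O : Set (V n × V n) := {q | 0 < Gr q.2 q.1}
  have hO : IsOpen O := by
    have hc : Continuous (fun q : V n × V n => Gr q.2 q.1) := by
      unfold Gr; fun_prop
    exact isOpen_lt continuous_const hc
  have hOne : O.Nonempty := by
    let i0 : Fin n := ⟨0, by omega⟩
    let i1 : Fin n := ⟨1, by omega⟩
    refine ⟨(EuclideanSpace.single i0 (1 : ℝ), EuclideanSpace.single i1 (1 : ℝ)), ?_⟩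
    show 0 < Gr (EuclideanSpace.single i1 (1 : ℝ)) (EuclideanSpace.single i0 (1 : ℝ))
    have hne : i1 ≠ i0 := by
      intro h
      have := congrArg Fin.val h
      simp [i0, i1] at this
    unfold Gr
    rw [EuclideanSpace.norm_single, EuclideanSpace.norm_single, EuclideanSpace.inner_single_left]
    simp [EuclideanSpace.single_apply, hne]
  obtain ⟨q, hqO, hq⟩ : ∃ q ∈ O,
      (volume : Measure (ℝ × ℝ)) {p : ℝ × ℝ | p.1 • q.1 + p.2 • q.2 ∈ N} = 0 := by
    by_contra hcon
    push Not at hcon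
    rw [ae_iff] at hpl
    have h1 : ((volume : Measure (V n)).prod (volume : Measure (V n))) O = 0 :=
      measure_mono_null (fun q hq => hcon q hq) hpl
    exact (hO.measure_pos _ hOne).ne' h1
  obtain ⟨θ, w⟩ := q
  simp only at hq
  have hGr : 0 < ‖w‖ ^ 2 * ‖θ‖ ^ 2 - ⟪w, θ⟫ ^ 2 := hqO
  have hθ0 : θ ≠ 0 := by
    rintro rfl
    simp at hGr
  have hθn : 0 < ‖θ‖ := norm_pos_iff.mpr hθ0
  -- orthonormal frame
  set e : V n := ‖θ‖⁻¹ • θ with he
  set f' : V n := w - ⟪w, e⟫ • e with hf'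
  have hee : ⟪e, e⟫ = 1 := by
    rw [he, real_inner_smul_left, real_inner_smul_right, real_inner_self_eq_norm_sq]
    field_simp
  have hef' : ⟪e, f'⟫ = 0 := by
    rw [hf', inner_sub_right, real_inner_smul_right, hee, mul_one, real_inner_comm, sub_self]
  have hf'0 : f' ≠ 0 := by
    intro h
    have h1 : w = ⟪w, e⟫ • e := sub_eq_zero.mp h
    have h2 : w = (⟪w, e⟫ * ‖θ‖⁻¹) • θ := by
      rw [← smul_smul]; exact h1
    have h3 : ‖w‖ ^ 2 * ‖θ‖ ^ 2 - ⟪w, θ⟫ ^ 2 = 0 := by
      rw [h2, norm_smul, real_inner_smul_left, real_inner_self_eq_norm_sq, mul_pow,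
        Real.norm_eq_abs, sq_abs]
      ring
    linarith
  have hfn : 0 < ‖f'‖ := norm_pos_iff.mpr hf'0
  set f : V n := ‖f'‖⁻¹ • f' with hf
  have hff : ⟪f, f⟫ = 1 := by
    rw [hf, real_inner_smul_left, real_inner_smul_right, real_inner_self_eq_norm_sq]
    field_simp
  have hef : ⟪e, f⟫ = 0 := by
    rw [hf, real_inner_smul_right, hef', mul_zero]
  have hfe : ⟪f, e⟫ = 0 := by rw [real_inner_comm]; exact hef
  have hinner : ∀ x y x' y' : ℝ, ⟪x • e + y • f, x' • e + y' • f⟫ = x * x' + y * y' := by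
    intro x y x' y'
    rw [inner_add_left, inner_add_right, inner_add_right]
    simp only [real_inner_smul_left, real_inner_smul_right, hee, hff, hef, hfe]
    ring
  have hzero : ∀ x y : ℝ, x • e + y • f = 0 → x = 0 ∧ y = 0 := by
    intro x y h
    have h1 := hinner x y x y
    rw [h, inner_zero_left] at h1
    constructor <;> nlinarith [mul_self_nonneg x, mul_self_nonneg y]
  -- change of frame
  obtain ⟨A, B, C, hABC⟩ : ∃ A B C : ℝ, ∀ x y : ℝ, x • e + y • f =
      (x * A + y * B) • θ + (y * C) • w := by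
    refine ⟨‖θ‖⁻¹, -(‖f'‖⁻¹ * ⟪w, e⟫ * ‖θ‖⁻¹), ‖f'‖⁻¹, fun x y => ?_⟩
    rw [hf, hf', he]
    module
  -- the linear maps
  have hlin : ∀ T : (ℝ × ℝ) →ₗ[ℝ] (ℝ × ℝ), (∀ p, T p = 0 → p = 0) →
      (volume : Measure (ℝ × ℝ)) (T ⁻¹' {p : ℝ × ℝ | p.1 • θ + p.2 • w ∈ N}) = 0 := by
    intro T hT
    have hinj : Function.Injective T := (injective_iff_map_eq_zero T).mpr hT
    have hdet : LinearMap.det T ≠ 0 := by
      have h1 : IsUnit T := by
        rw [LinearMap.isUnit_iff_ker_eq_bot]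
        exact LinearMap.ker_eq_bot.mpr hinj
      exact (LinearMap.isUnit_iff_isUnit_det T).mp h1 |>.ne_zero
    rw [Measure.addHaar_preimage_linearMap _ hdet, hq, mul_zero]
  let T₁ : (ℝ × ℝ) →ₗ[ℝ] (ℝ × ℝ) :=
    { toFun := fun p => (p.1 * A + p.2 * B, p.2 * C)
      map_add' := by
        intro p p'
        ext <;> simp <;> ring
      map_smul' := by
        intro r p
        ext <;> simp <;> ring }
  let T₂ : (ℝ × ℝ) →ₗ[ℝ] (ℝ × ℝ) :=
    { toFun := fun p => ((p.1 * Real.cos α - p.2 * Real.sin α) * A +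
        (p.1 * Real.sin α + p.2 * Real.cos α) * B,
        (p.1 * Real.sin α + p.2 * Real.cos α) * C)
      map_add' := by
        intro p p'
        ext <;> simp <;> ring
      map_smul' := by
        intro r p
        ext <;> simp <;> ring }
  have hT₁ : ∀ p, T₁ p = 0 → p = 0 := by
    intro p hp
    have h1 : p.1 * A + p.2 * B = 0 := congrArg Prod.fst hp
    have h2 : p.2 * C = 0 := congrArg Prod.snd hp
    have h3 := hABC p.1 p.2
    rw [h1, h2, zero_smul, zero_smul, add_zero] at h3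
    obtain ⟨h4, h5⟩ := hzero _ _ h3
    exact Prod.ext h4 h5
  have hT₂ : ∀ p, T₂ p = 0 → p = 0 := by
    intro p hp
    have h1 : (p.1 * Real.cos α - p.2 * Real.sin α) * A +
        (p.1 * Real.sin α + p.2 * Real.cos α) * B = 0 := congrArg Prod.fst hp
    have h2 : (p.1 * Real.sin α + p.2 * Real.cos α) * C = 0 := congrArg Prod.snd hp
    have h3 := hABC (p.1 * Real.cos α - p.2 * Real.sin α) (p.1 * Real.sin α + p.2 * Real.cos α)
    rw [h1, h2, zero_smul, zero_smul, add_zero] at h3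
    obtain ⟨h4, h5⟩ := hzero _ _ h3
    have h6 := Real.sin_sq_add_cos_sq α
    refine Prod.ext ?_ ?_
    · show p.1 = 0
      have : p.1 * (Real.sin α ^ 2 + Real.cos α ^ 2) = 0 := by
        linear_combination Real.cos α * h4 + Real.sin α * h5
      rwa [h6, mul_one] at this
    · show p.2 = 0
      have : p.2 * (Real.sin α ^ 2 + Real.cos α ^ 2) = 0 := by
        linear_combination (-Real.sin α) * h4 + Real.cos α * h5
      rwa [h6, mul_one] at this
  have hbad : (volume : Measure (ℝ × ℝ)) ((T₁ ⁻¹' {p : ℝ × ℝ | p.1 • θ + p.2 • w ∈ N}) ∪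
      (T₂ ⁻¹' {p : ℝ × ℝ | p.1 • θ + p.2 • w ∈ N})) = 0 :=
    measure_union_null (hlin T₁ hT₁) (hlin T₂ hT₂)
  have hopen : IsOpen {p : ℝ × ℝ | 0 < p.1} := isOpen_lt continuous_const continuous_fst
  obtain ⟨p, hp0, hp⟩ : ∃ p : ℝ × ℝ, 0 < p.1 ∧
      p ∉ ((T₁ ⁻¹' {p : ℝ × ℝ | p.1 • θ + p.2 • w ∈ N}) ∪
      (T₂ ⁻¹' {p : ℝ × ℝ | p.1 • θ + p.2 • w ∈ N})) := by
    by_contra hcon
    push Not at hcon
    have h1 : (volume : Measure (ℝ × ℝ)) {p : ℝ × ℝ | 0 < p.1} = 0 :=
      measure_mono_null (fun p hp => hcon p hp) hbad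
    exact (hopen.measure_pos _ ⟨(1, 0), by simp⟩).ne' h1
  have hp1 : p.1 • e + p.2 • f ∉ N := by
    intro h
    refine hp (Or.inl ?_)
    show (p.1 * A + p.2 * B) • θ + (p.2 * C) • w ∈ N
    rw [← hABC]; exact h
  have hp2 : (p.1 * Real.cos α - p.2 * Real.sin α) • e +
      (p.1 * Real.sin α + p.2 * Real.cos α) • f ∉ N := by
    intro h
    refine hp (Or.inr ?_)
    show ((p.1 * Real.cos α - p.2 * Real.sin α) * A +
        (p.1 * Real.sin α + p.2 * Real.cos α) * B) • θ +
        ((p.1 * Real.sin α + p.2 * Real.cos α) * C) • w ∈ N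
    rw [← hABC]; exact h
  have hsc := Real.sin_sq_add_cos_sq α
  have hr : 0 < p.1 * p.1 + p.2 * p.2 := by nlinarith [mul_self_nonneg p.2]
  have hn1 : ‖p.1 • e + p.2 • f‖ ^ 2 = p.1 * p.1 + p.2 * p.2 := by
    rw [← real_inner_self_eq_norm_sq, hinner]
  have hn2 : ‖(p.1 * Real.cos α - p.2 * Real.sin α) • e +
      (p.1 * Real.sin α + p.2 * Real.cos α) • f‖ ^ 2 = p.1 * p.1 + p.2 * p.2 := by
    rw [← real_inner_self_eq_norm_sq, hinner]
    linear_combination (p.1 * p.1 + p.2 * p.2) * hsc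
  refine ⟨_, hND _ hp1, _, hND _ hp2, ?_, ?_, ?_⟩
  · intro h
    rw [h, norm_zero] at hn1
    norm_num at hn1
    linarith
  · intro h
    rw [h, norm_zero] at hn2
    norm_num at hn2
    linarith
  · unfold InnerProductGeometry.angle
    have h1 : ‖p.1 • e + p.2 • f‖ = Real.sqrt (p.1 * p.1 + p.2 * p.2) := by
      rw [← hn1, Real.sqrt_sq (norm_nonneg _)]
    have h2 : ‖(p.1 * Real.cos α - p.2 * Real.sin α) • e +
      (p.1 * Real.sin α + p.2 * Real.cos α) • f‖ = Real.sqrt (p.1 * p.1 + p.2 * p.2) := by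
      rw [← hn2, Real.sqrt_sq (norm_nonneg _)]
    rw [h1, h2, hinner, Real.mul_self_sqrt hr.le]
    have h3 : (p.1 * (p.1 * Real.cos α - p.2 * Real.sin α) +
        p.2 * (p.1 * Real.sin α + p.2 * Real.cos α)) / (p.1 * p.1 + p.2 * p.2) = Real.cos α := by
      rw [div_eq_iff hr.ne']; ring
    rw [h3]
    exact Real.arccos_cos hα0.le hαπ.le

end Pool.Agent.L0h37.AN.PA
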