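import Pool.Agent.L0h37.AN.Defs

/-!
# RP: the radial projection of a Frostman measure
-/

set_option autoImplicit false

open MeasureTheory Metric Set Filter Topology
open scoped ENNReal NNReal RealInnerProductSpace

namespace Pool.Agent.L0h37.AN.RP

variable {n : ℕ}

theorem main : StmtRP := by
  intro n hn s K ν hs1 hsn hN x hx δ hδ z r hr
  have := hN.prob
  have hf : Measurable (fun y : V n => ‖y - x‖⁻¹ • (y - x)) := by fun_prop
  have hD : MeasurableSet {y : V n | δ ≤ ‖y - x‖} :=
    (isClosed_le continuous_const (by fun_prop)).measurableSet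
  rw [Measure.map_apply hf measurableSet_closedBall, Measure.restrict_apply
    (hf measurableSet_closedBall)]
  have h4n : (1 : ℝ) ≤ 4 ^ n := one_le_pow₀ (by norm_num)
  rcases le_or_gt 1 r with hr1 | hr1
  · have h1 : (1 : ℝ) ≤ 6 * 4 ^ n * r ^ (s - 1) := by
      have h2 : 1 ≤ r ^ (s - 1) := Real.one_le_rpow hr1 (by linarith)
      nlinarith
    calc ν _ ≤ 1 := prob_le_one
      _ = ENNReal.ofReal 1 := ENNReal.ofReal_one.symm
      _ ≤ _ := ENNReal.ofReal_le_ofReal h1
  · set N : ℕ := ⌈2 / r⌉₊ with hNd
    have hN2 : (N : ℝ) < 2 / r + 1 := Nat.ceil_lt_add_one (by positivity)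
    have hN1 : 2 / r ≤ N := Nat.le_ceil _
    have hsub : (fun y : V n => ‖y - x‖⁻¹ • (y - x)) ⁻¹' closedBall z r ∩ {y | δ ≤ ‖y - x‖} ⊆
        (⋃ j ∈ Finset.Icc 1 N, closedBall (x + ((j : ℝ) * r) • z) (4 * r)) ∪
          (closedBall (0 : V n) 1)ᶜ := by
      rintro y ⟨hy1, hy2⟩
      by_cases hyB : y ∈ closedBall (0 : V n) 1
      · left
        set t : ℝ := ‖y - x‖ with ht
        have ht0 : 0 < t := lt_of_lt_of_le hδ hy2
        have ht2 : t ≤ 2 := by
          have h3 : ‖y‖ ≤ 1 := mem_closedBall_zero_iff.mp hyB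
          have := norm_sub_le y x
          linarith
        set Y : V n := t⁻¹ • (y - x) with hY
        have hYn : ‖Y‖ = 1 := by
          rw [hY, norm_smul, norm_inv, ht, norm_norm, inv_mul_cancel₀ ht0.ne']
        have hYz : ‖Y - z‖ ≤ r := by
          rw [← dist_eq_norm]
          exact hy1
        have hz : ‖z‖ ≤ 2 := by
          have h5 : ‖z‖ ≤ ‖z - Y‖ + ‖Y‖ := by simpa using norm_add_le (z - Y) Y
          rw [norm_sub_rev, hYn] at h5
          linarith
        have hj1 : t / r ≤ ⌈t / r⌉₊ := Nat.le_ceil _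
        have hj2 : (⌈t / r⌉₊ : ℝ) < t / r + 1 := Nat.ceil_lt_add_one (by positivity)
        rw [mem_iUnion₂]
        refine ⟨⌈t / r⌉₊, ?_, ?_⟩
        · rw [Finset.mem_Icc]
          constructor
          · exact Nat.one_le_iff_ne_zero.mpr (Nat.ceil_pos.mpr (by positivity)).ne'
          · exact Nat.ceil_mono (div_le_div_of_nonneg_right ht2 hr.le)
        · rw [mem_closedBall, dist_eq_norm]
          have hy : y = x + t • Y := by
            rw [hY, smul_smul, mul_inv_cancel₀ ht0.ne', one_smul]
            abel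
          have e1 : y - (x + ((⌈t / r⌉₊ : ℝ) * r) • z) =
              t • (Y - z) + (t - (⌈t / r⌉₊ : ℝ) * r) • z := by
            conv_lhs => rw [hy]
            rw [smul_sub, sub_smul]
            abel
          rw [e1]
          refine (norm_add_le _ _).trans ?_
          rw [norm_smul, norm_smul, Real.norm_eq_abs, Real.norm_eq_abs, abs_of_pos ht0]
          have h6 : |t - (⌈t / r⌉₊ : ℝ) * r| ≤ r := by
            rw [div_le_iff₀ hr] at hj1
            have h7 : (⌈t / r⌉₊ : ℝ) * r < t + r := by
              calc (⌈t / r⌉₊ : ℝ) * r < (t / r + 1) * r := mul_lt_mul_of_pos_right hj2 hr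
                _ = t + r := by field_simp
            rw [abs_le]
            constructor <;> linarith
          calc t * ‖Y - z‖ + |t - (⌈t / r⌉₊ : ℝ) * r| * ‖z‖ ≤ 2 * r + r * 2 := by
                apply add_le_add
                · exact mul_le_mul ht2 hYz (norm_nonneg _) (by norm_num)
                · exact mul_le_mul h6 hz (norm_nonneg _) hr.le
            _ = 4 * r := by ring
      · right
        exact hyB
    have hball : ν (closedBall (0 : V n) 1)ᶜ = 0 := by
      refine measure_mono_null ?_ hN.supp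
      exact compl_subset_compl.mpr hN.sub
    refine (measure_mono hsub).trans ((measure_union_le _ _).trans ?_)
    rw [hball, add_zero]
    refine (measure_biUnion_finset_le _ _).trans ?_
    refine (Finset.sum_le_card_nsmul _ _ (ENNReal.ofReal (2 * (4 * r) ^ s))
      (fun j _ => hN.frost _ _ (by positivity))).trans ?_
    rw [Nat.card_Icc, Nat.add_sub_cancel, nsmul_eq_mul, ← ENNReal.ofReal_natCast,
      ← ENNReal.ofReal_mul (by positivity)]
    apply ENNReal.ofReal_le_ofReal
    have hN3 : (N : ℝ) ≤ 3 / r := by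
      have : (1 : ℝ) ≤ 1 / r := by
        rw [le_div_iff₀ hr]; linarith
      have e2 : 3 / r = 2 / r + 1 / r := by ring
      rw [e2]; linarith
    have h8 : (4 * r) ^ s = 4 ^ s * r ^ s := Real.mul_rpow (by norm_num) hr.le
    have h9 : r ^ s = r ^ (s - 1) * r := by
      rw [← Real.rpow_add_one hr.ne']
      congr 1
      ring
    have h10 : (4 : ℝ) ^ s ≤ 4 ^ n := by
      rw [← Real.rpow_natCast]
      exact Real.rpow_le_rpow_of_exponent_le (by norm_num) hsn
    have h11 : 0 < r ^ (s - 1) := by positivity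
    calc (N : ℝ) * (2 * (4 * r) ^ s) ≤ 3 / r * (2 * (4 * r) ^ s) := by
          apply mul_le_mul_of_nonneg_right hN3
          positivity
      _ = 6 * 4 ^ s * r ^ (s - 1) := by
          rw [h8, h9]
          field_simp
          ring
      _ ≤ 6 * 4 ^ n * r ^ (s - 1) := by
          apply mul_le_mul_of_nonneg_right _ h11.le
          linarith

end Pool.Agent.L0h37.AN.RP
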