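import Pool.Agent.L0h37.AN.Defs

/-!
# RY: for almost every direction, almost every ray meets `K`
-/

set_option autoImplicit false

open MeasureTheory Metric Set Filter Topology
open scoped ENNReal NNReal RealInnerProductSpace Pointwise

namespace Pool.Agent.L0h37.AN.RY

open Pool.Agent.L0h37.AN

/-- points of `K` whose ray in direction `θ` misses `K` -/
def GG {n : ℕ} (K : Set (V n)) (θ : V n) : Set (V n) :=
  {x | x ∈ K ∧ ∀ t : ℝ, 0 < t → x + t • θ ∉ K}

theorem gr_zero {n : ℕ} (v θ : V n) (hθ : θ ≠ 0) (h : Gr v θ = 0) : ∃ t : ℝ, v = t • θ := by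
  have hθ' : ‖θ‖ ^ 2 ≠ 0 := by simpa using hθ
  refine ⟨⟪v, θ⟫ / ‖θ‖ ^ 2, ?_⟩
  rw [← sub_eq_zero, ← norm_eq_zero, ← sq_eq_zero_iff, norm_sub_sq_real, norm_smul,
    inner_smul_right, mul_pow, Real.norm_eq_abs, sq_abs]
  unfold Gr at h
  field_simp
  linarith

theorem gg_meas {n : ℕ} (K : Set (V n)) (hK : IsCompact K) (θ : V n) :
    MeasurableSet (GG K θ) := by
  have h1 : GG K θ = K \ ⋃ m : ℕ, Prod.fst '' {p : V n × ℝ |
      (p.1 ∈ K ∧ p.2 ∈ Icc (1 / ((m : ℝ) + 1)) ((m : ℝ) + 1)) ∧ p.1 + p.2 • θ ∈ K} := by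
    ext x
    constructor
    · rintro ⟨hx, h⟩
      refine ⟨hx, ?_⟩
      intro hmem
      obtain ⟨m, ⟨x', t⟩, ⟨⟨h2, h3⟩, h4⟩, rfl⟩ := mem_iUnion.mp hmem
      exact h t (lt_of_lt_of_le (by positivity) h3.1) h4
    · rintro ⟨hx, h⟩
      refine ⟨hx, fun t ht hmem => h ?_⟩
      obtain ⟨m1, hm1⟩ := exists_nat_one_div_lt ht
      obtain ⟨m2, hm2⟩ := exists_nat_ge t
      refine mem_iUnion.mpr ⟨max m1 m2, (x, t), ⟨⟨hx, ?_, ?_⟩, hmem⟩, rfl⟩
      · refine le_trans ?_ hm1.le
        apply one_div_le_one_div_of_le (by positivity)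
        have : (m1 : ℝ) ≤ ((max m1 m2 : ℕ) : ℝ) := by exact_mod_cast le_max_left _ _
        linarith
      · have : (m2 : ℝ) ≤ ((max m1 m2 : ℕ) : ℝ) := by exact_mod_cast le_max_right _ _
        show t ≤ _
        linarith
  rw [h1]
  refine hK.measurableSet.diff (MeasurableSet.iUnion (fun m => ?_))
  refine IsCompact.measurableSet (IsCompact.image ?_ continuous_fst)
  have h2 : IsCompact {p : V n × ℝ | p.1 ∈ K ∧ p.2 ∈ Icc (1 / ((m : ℝ) + 1)) ((m : ℝ) + 1)} :=
    hK.prod isCompact_Icc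
  exact h2.inter_right (hK.isClosed.preimage (by fun_prop))

theorem gg_smul {n : ℕ} (K : Set (V n)) (θ : V n) (r : ℝ) (hr : 0 < r) :
    GG K (r • θ) = GG K θ := by
  ext x
  constructor
  · rintro ⟨hx, h⟩
    refine ⟨hx, fun t ht hmem => h (t / r) (by positivity) ?_⟩
    rw [smul_smul, div_mul_cancel₀ _ hr.ne']
    exact hmem
  · rintro ⟨hx, h⟩
    refine ⟨hx, fun t ht hmem => h (t * r) (by positivity) ?_⟩
    rw [← smul_smul]
    exact hmem

theorem main (hFF : StmtFF) : StmtRY := by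
  intro n hn s hs K ν hN
  have hprob := hN.prob
  have h1 := hFF n hn s hs ν inferInstance 2 (by norm_num) hN.frost
  have h2 : ∀ᵐ θ ∂((volume : Measure (V n)).restrict (closedBall (0 : V n) 1)),
      ν (GG K θ) = 0 := by
    filter_upwards [h1] with θ hθ
    rcases eq_or_ne θ 0 with h0 | h0
    · have : GG K θ = ∅ := by
        ext x
        simp only [mem_empty_iff_false, iff_false]
        rintro ⟨hx, h⟩
        refine h 1 one_pos ?_
        rw [h0, smul_zero, add_zero]
        exact hx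
      rw [this, measure_empty]
    · rw [(gg_meas K hN.cpt θ).measure_eq_iSup_isCompact_of_ne_top (measure_ne_top _ _)]
      simp only [ENNReal.iSup_eq_zero]
      intro G hG hGc
      refine hθ G hGc (hG.trans (fun x hx => hN.sub hx.1)) ?_
      intro x hx y hy hxy
      obtain ⟨t, ht⟩ := gr_zero _ _ h0 hxy
      rcases lt_trichotomy t 0 with h | h | h
      · exfalso
        refine (hG hx).2 (-t) (by linarith) ?_
        have : x + (-t) • θ = y := by
          rw [neg_smul, ← ht]; abel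
        rw [this]
        exact (hG hy).1
      · rw [h, zero_smul] at ht
        exact sub_eq_zero.mp ht
      · exfalso
        refine (hG hy).2 t h ?_
        have : y + t • θ = x := by
          rw [← ht]; abel
        rw [this]
        exact (hG hx).1
  rw [ae_restrict_iff' isClosed_closedBall.measurableSet, ae_iff] at h2
  rw [ae_iff]
  -- scaling
  have h3 : {θ : V n | ¬ ν {x | x ∈ K ∧ ∀ t : ℝ, 0 < t → x + t • θ ∉ K} = 0} ⊆
      ⋃ m : ℕ, ((m : ℝ) + 1) • {θ : V n | ¬ (θ ∈ closedBall (0 : V n) 1 → ν (GG K θ) = 0)} := by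
    intro θ hθ
    obtain ⟨m, hm⟩ := exists_nat_ge ‖θ‖
    refine mem_iUnion.mpr ⟨m, ?_⟩
    have hm0 : (0 : ℝ) < (m : ℝ) + 1 := by positivity
    rw [mem_smul_set_iff_inv_smul_mem₀ hm0.ne']
    simp only [mem_setOf_eq, Classical.not_imp]
    refine ⟨?_, ?_⟩
    · rw [mem_closedBall_zero_iff, norm_smul, norm_inv, Real.norm_eq_abs, abs_of_pos hm0,
        inv_mul_le_iff₀ hm0]
      linarith
    · rw [gg_smul K θ _ (by positivity)]
      exact hθ
  refine measure_mono_null h3 (measure_iUnion_null (fun m => ?_))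
  rw [Measure.addHaar_smul, h2, mul_zero]

end Pool.Agent.L0h37.AN.RY
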