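import Pool.Agent.L0h37.AN.Defs

/-!
# SM: all angles, if `s > n - 1`
-/

set_option autoImplicit false

open MeasureTheory Metric Set Filter Topology
open scoped ENNReal NNReal RealInnerProductSpace

namespace Pool.Agent.L0h37.AN.SM

open Pool.Agent.L0h37.AN

theorem main (hRY : StmtRY) (hPA : StmtPA) : StmtSM := by
  intro n hn s hs K ν hN α hα0 hαπ
  have hprob := hN.prob
  have h1 := hRY n hn s hs K ν hN
  rw [ae_iff] at h1
  obtain ⟨θ, hθ, θ', hθ', h0, h0', hang⟩ := hPA n hn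
    {θ | ν {x | x ∈ K ∧ ∀ t : ℝ, 0 < t → x + t • θ ∉ K} = 0} h1 α hα0 hαπ
  have hnull : ν ({x | x ∈ K ∧ ∀ t : ℝ, 0 < t → x + t • θ ∉ K} ∪
      {x | x ∈ K ∧ ∀ t : ℝ, 0 < t → x + t • θ' ∉ K} ∪ Kᶜ) = 0 :=
    measure_union_null (measure_union_null hθ hθ') hN.supp
  obtain ⟨x, hx⟩ : ∃ x, x ∉ ({x | x ∈ K ∧ ∀ t : ℝ, 0 < t → x + t • θ ∉ K} ∪
      {x | x ∈ K ∧ ∀ t : ℝ, 0 < t → x + t • θ' ∉ K} ∪ Kᶜ) := by
    by_contra hcon
    push Not at hcon
    have h2 : ({x | x ∈ K ∧ ∀ t : ℝ, 0 < t → x + t • θ ∉ K} ∪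
      {x | x ∈ K ∧ ∀ t : ℝ, 0 < t → x + t • θ' ∉ K} ∪ Kᶜ) = univ := eq_univ_of_forall hcon
    rw [h2, measure_univ] at hnull
    exact one_ne_zero hnull
  simp only [mem_union, mem_setOf_eq, mem_compl_iff, not_or, not_and, not_forall, not_not] at hx
  obtain ⟨⟨h2, h3⟩, hxK⟩ := hx
  obtain ⟨t, ht, htK⟩ := h2 hxK
  obtain ⟨t', ht', ht'K⟩ := h3 hxK
  have hne : x + t • θ ≠ x := by
    intro h
    have : t • θ = 0 := by simpa using h
    exact (smul_ne_zero ht.ne' h0) this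
  have hne' : x ≠ x + t' • θ' := by
    intro h
    have : t' • θ' = 0 := by simpa using h.symm
    exact (smul_ne_zero ht'.ne' h0') this
  have hangle : EuclideanGeometry.angle (x + t • θ) x (x + t' • θ') = α := by
    unfold EuclideanGeometry.angle
    rw [vsub_eq_sub, vsub_eq_sub, add_sub_cancel_left, add_sub_cancel_left,
      InnerProductGeometry.angle_smul_left_of_pos _ _ ht,
      InnerProductGeometry.angle_smul_right_of_pos _ _ ht', hang]
  refine ⟨x + t • θ, htK, x, hxK, x + t' • θ', ht'K, hne, hne', ?_, hangle⟩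
  intro h
  rw [← h, EuclideanGeometry.angle_self_of_ne hne] at hangle
  exact hα0.ne hangle

end Pool.Agent.L0h37.AN.SM
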