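import Pool.Agent.L0h37.AN.Defs

/-!
# TT: at least half of the points lie in heavy balls
-/

set_option autoImplicit false

open MeasureTheory Metric Set Filter Topology
open scoped ENNReal NNReal RealInnerProductSpace

namespace Pool.Agent.L0h37.AN.TT

variable {n : ℕ}

theorem main : StmtTT := by
  intro n hn s K ν hN h hh hh1
  haveI := hN.prob
  set c : ℝ≥0∞ := ENNReal.ofReal (1 / 2 * (h / 4) ^ n) with hc
  have hfr : Module.finrank ℝ (V n) = n := finrank_euclideanSpace_fin
  have hmeas : Measurable (fun y : V n => ν (closedBall y h)) := by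
    have hS : MeasurableSet {p : V n × V n | dist p.2 p.1 ≤ h} := by
      apply IsClosed.measurableSet
      exact isClosed_le (by fun_prop) continuous_const
    exact measurable_measure_prodMk_left hS
  set bad : Set (V n) := {y | ν (closedBall y h) < c} ∩ closedBall 0 1 with hbad
  have hbadm : MeasurableSet bad :=
    (measurableSet_lt hmeas measurable_const).inter isClosed_closedBall.measurableSet
  set T : Set (V n × V n) := {p | p.2 ∈ bad ∧ dist p.2 p.1 ≤ h / 2} with hT
  have hTm : MeasurableSet T := by
    have h20 : MeasurableSet {p : V n × V n | dist p.2 p.1 ≤ h / 2} := by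
      apply IsClosed.measurableSet
      exact isClosed_le (by fun_prop) continuous_const
    exact (measurable_snd hbadm).inter h20
  set B : ℝ≥0∞ := (volume : Measure (V n)) (ball 0 1) with hB
  have hBfin : B ≠ ⊤ := measure_ball_lt_top.ne
  have hB0 : B ≠ 0 := (measure_ball_pos _ _ one_pos).ne'
  have h1 : ((volume : Measure (V n)).prod ν) T ≤
      c * (ENNReal.ofReal (2 ^ n) * B) := by
    rw [Measure.prod_apply hTm]
    have h2 : ∀ x : V n, ν (Prod.mk x ⁻¹' T) ≤ (closedBall (0 : V n) 2).indicator (fun _ => c) x := by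
      intro x
      rcases Set.eq_empty_or_nonempty (Prod.mk x ⁻¹' T) with he | ⟨y, hy⟩
      · rw [he, measure_empty]
        exact zero_le
      · have hy1 : y ∈ bad := hy.1
        have hy2 : dist y x ≤ h / 2 := hy.2
        have hy3 : ‖y‖ ≤ 1 := mem_closedBall_zero_iff.mp hy1.2
        have hx : x ∈ closedBall (0 : V n) 2 := by
          rw [mem_closedBall_zero_iff]
          have h3 : ‖x‖ ≤ ‖x - y‖ + ‖y‖ := by
            simpa using norm_add_le (x - y) y
          have h4 : ‖x - y‖ ≤ h / 2 := by
            rw [← dist_eq_norm, dist_comm]; exact hy2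
          linarith
        rw [indicator_of_mem hx]
        have hsub : Prod.mk x ⁻¹' T ⊆ closedBall y h := by
          intro z hz
          have hz2 : dist z x ≤ h / 2 := hz.2
          rw [mem_closedBall]
          calc dist z y ≤ dist z x + dist x y := dist_triangle _ _ _
            _ ≤ h / 2 + h / 2 := by
                rw [dist_comm x y]
                exact add_le_add hz2 hy2
            _ = h := by ring
        have h5 : ν (closedBall y h) < c := hy1.1
        exact (measure_mono hsub).trans h5.le
    refine (lintegral_mono h2).trans_eq ?_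
    rw [lintegral_indicator_const isClosed_closedBall.measurableSet,
      Measure.addHaar_closedBall _ _ (by norm_num), hfr]
  have h6 : ((volume : Measure (V n)).prod ν) T =
      ν bad * (ENNReal.ofReal ((h / 2) ^ n) * B) := by
    rw [Measure.prod_apply_symm hTm]
    have h7 : ∀ y : V n, (volume : Measure (V n)) ((fun x => (x, y)) ⁻¹' T) =
        bad.indicator (fun _ => ENNReal.ofReal ((h / 2) ^ n) * B) y := by
      intro y
      by_cases hy : y ∈ bad
      · rw [indicator_of_mem hy]
        have : (fun x => (x, y)) ⁻¹' T = closedBall y (h / 2) := by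
          ext x
          simp only [hT, mem_preimage, mem_ofPred_eq, hy, true_and, mem_closedBall]
          rw [dist_comm]
        rw [this, Measure.addHaar_closedBall _ _ (by positivity), hfr]
      · rw [indicator_of_notMem hy]
        have : (fun x => (x, y)) ⁻¹' T = ∅ := by
          ext x
          simp only [hT, mem_preimage, mem_ofPred_eq, hy, false_and, mem_empty_iff_false]
        rw [this, measure_empty]
    simp_rw [h7]
    rw [lintegral_indicator_const hbadm, mul_comm]
  have h8 : ν bad * (ENNReal.ofReal ((h / 2) ^ n) * B) ≤ c * (ENNReal.ofReal (2 ^ n) * B) :=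
    h6 ▸ h1
  have h9 : ν bad ≤ 1 / 2 := by
    have hp : (0 : ℝ) < (h / 2) ^ n := by positivity
    have e1 : c * (ENNReal.ofReal (2 ^ n) * B) =
        1 / 2 * (ENNReal.ofReal ((h / 2) ^ n) * B) := by
      rw [← mul_assoc, ← mul_assoc]
      congr 1
      have e2 : (1 / 2 : ℝ≥0∞) = ENNReal.ofReal (1 / 2) := by
        rw [ENNReal.ofReal_div_of_pos (by norm_num)]
        simp
      rw [e2, hc, ← ENNReal.ofReal_mul (by positivity), ← ENNReal.ofReal_mul (by positivity)]
      congr 1
      rw [mul_assoc, ← mul_pow]
      congr 2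
      ring
    rw [e1] at h8
    have hne0 : ENNReal.ofReal ((h / 2) ^ n) * B ≠ 0 :=
      mul_ne_zero (by rw [ne_eq, ENNReal.ofReal_eq_zero, not_le]; exact hp) hB0
    have hnet : ENNReal.ofReal ((h / 2) ^ n) * B ≠ ⊤ :=
      ENNReal.mul_ne_top ENNReal.ofReal_ne_top hBfin
    exact (ENNReal.mul_le_mul_iff_left hne0 hnet).mp h8
  have hball : ν (closedBall (0 : V n) 1)ᶜ = 0 := by
    refine measure_mono_null ?_ hN.supp
    exact compl_subset_compl.mpr hN.sub
  have h10 : ν {y | c ≤ ν (closedBall y h)}ᶜ ≤ 1 / 2 := by
    have : {y | c ≤ ν (closedBall y h)}ᶜ ⊆ bad ∪ (closedBall (0 : V n) 1)ᶜ := by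
      intro y hy
      by_cases hy1 : y ∈ closedBall (0 : V n) 1
      · left
        refine ⟨?_, hy1⟩
        have hy2 : ¬ (c ≤ ν (closedBall y h)) := hy
        exact not_le.mp hy2
      · right
        exact hy1
    refine (measure_mono this).trans ((measure_union_le _ _).trans ?_)
    rw [hball, add_zero]
    exact h9
  have hm : MeasurableSet {y | c ≤ ν (closedBall y h)} := measurableSet_le measurable_const hmeas
  have h11 : ν {y | c ≤ ν (closedBall y h)} + ν {y | c ≤ ν (closedBall y h)}ᶜ = 1 := by
    rw [measure_add_measure_compl hm, measure_univ]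
  have h12 : (1 : ℝ≥0∞) ≤ ν {y | c ≤ ν (closedBall y h)} + 1 / 2 :=
    calc (1 : ℝ≥0∞) = ν {y | c ≤ ν (closedBall y h)} + ν {y | c ≤ ν (closedBall y h)}ᶜ := h11.symm
      _ ≤ _ := add_le_add le_rfl h10
  have h13 : (1 : ℝ≥0∞) = 1 / 2 + 1 / 2 := (ENNReal.add_halves 1).symm
  have h14 : (1 / 2 : ℝ≥0∞) + 1 / 2 ≤ ν {y | c ≤ ν (closedBall y h)} + 1 / 2 :=
    h13 ▸ h12
  exact (ENNReal.add_le_add_iff_right (by norm_num)).mp h14

end Pool.Agent.L0h37.AN.TT
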