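import Pool.Agent.L0h37.AN.Defs

/-!
# TV: volume of a tube of directions
-/

set_option autoImplicit false

open MeasureTheory Metric Set Filter Topology
open scoped ENNReal NNReal RealInnerProductSpace

namespace Pool.Agent.L0h37.AN.TV

variable {n : ℕ}

lemma norm_sub_sq (v θ : V n) (hv : v ≠ 0) :
    ‖v‖ ^ 2 * ‖θ - ⟪‖v‖⁻¹ • v, θ⟫ • (‖v‖⁻¹ • v)‖ ^ 2 = Gr v θ := by
  have hv' : ‖v‖ ≠ 0 := norm_ne_zero_iff.mpr hv
  have he : ‖‖v‖⁻¹ • v‖ = 1 := by
    rw [norm_smul, norm_inv, norm_norm, inv_mul_cancel₀ hv']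
  have h1 : ⟪‖v‖⁻¹ • v, θ⟫ = ‖v‖⁻¹ * ⟪v, θ⟫ := real_inner_smul_left _ _ _
  have h2 : ⟪θ, ‖v‖⁻¹ • v⟫ = ‖v‖⁻¹ * ⟪v, θ⟫ := by rw [real_inner_comm]; exact h1
  rw [h1, @norm_sub_sq_real]
  rw [norm_smul, he, real_inner_smul_right, h2, Gr, Real.norm_eq_abs, mul_one,
    sq_abs]
  field_simp
  ring

theorem main : StmtTV := by
  intro n hn
  set B : ℝ≥0∞ := (volume : Measure (V n)) (ball 0 1) with hB
  have hBfin : B ≠ ⊤ := measure_ball_lt_top.ne
  refine ⟨5 * 2 ^ n * B.toReal + 1, by positivity, fun v r hv hr => ?_⟩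
  have hv' : 0 < ‖v‖ := norm_pos_iff.mpr hv
  set ρ : ℝ := r / ‖v‖ with hρ
  have hρ0 : 0 < ρ := by positivity
  set e : V n := ‖v‖⁻¹ • v with he
  have hen : ‖e‖ = 1 := by
    rw [he, norm_smul, norm_inv, norm_norm, inv_mul_cancel₀ hv'.ne']
  have hfr : Module.finrank ℝ (V n) = n := finrank_euclideanSpace_fin
  rcases le_or_gt 1 ρ with h1 | h1
  · have hsub : {θ : V n | ‖θ‖ ≤ 1 ∧ Gr v θ ≤ r ^ 2} ⊆ closedBall 0 1 := by
      intro θ hθ
      rw [mem_closedBall_zero_iff]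
      exact hθ.1
    refine (measure_mono hsub).trans ?_
    rw [Measure.addHaar_closedBall _ _ zero_le_one, one_pow, ENNReal.ofReal_one, one_mul, ← hB,
      ← ENNReal.ofReal_toReal hBfin]
    apply ENNReal.ofReal_le_ofReal
    have h2 : 1 ≤ ρ ^ (n - 1) := one_le_pow₀ h1
    have h3 : (1 : ℝ) ≤ 2 ^ n := one_le_pow₀ (by norm_num)
    have hBn : 0 ≤ B.toReal := ENNReal.toReal_nonneg
    rw [ENNReal.toReal_ofReal hBn]
    calc B.toReal ≤ (5 * 2 ^ n * B.toReal + 1) * 1 := by nlinarith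
      _ ≤ (5 * 2 ^ n * B.toReal + 1) * ρ ^ (n - 1) := by
          apply mul_le_mul_of_nonneg_left h2
          positivity
  · set N : ℤ := ⌈1 / ρ⌉ with hN
    have hN1 : 1 / ρ ≤ N := Int.le_ceil _
    have hN2 : (N : ℝ) < 1 / ρ + 1 := Int.ceil_lt_add_one _
    have hN0 : 0 ≤ N := by
      have : (0 : ℝ) ≤ N := le_trans (by positivity) hN1
      exact_mod_cast this
    have hsub : {θ : V n | ‖θ‖ ≤ 1 ∧ Gr v θ ≤ r ^ 2} ⊆
        ⋃ j ∈ Finset.Icc (-N) N, closedBall (((j : ℝ) * ρ) • e) (2 * ρ) := by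
      rintro θ ⟨hθ1, hθ2⟩
      set c : ℝ := ⟪e, θ⟫ with hc
      have hcabs : |c| ≤ 1 := by
        have := abs_real_inner_le_norm e θ
        rw [hen, one_mul] at this
        exact this.trans hθ1
      have h2 := norm_sub_sq v θ hv
      rw [← he, ← hc] at h2
      have h3 : ‖θ - c • e‖ ≤ ρ := by
        have h4 : ‖v‖ ^ 2 * ‖θ - c • e‖ ^ 2 ≤ r ^ 2 := h2.trans_le hθ2
        have h5 : (‖v‖ * ‖θ - c • e‖) ^ 2 ≤ r ^ 2 := by rw [mul_pow]; exact h4
        have h6 : ‖v‖ * ‖θ - c • e‖ ≤ r := le_of_sq_le_sq h5 hr.le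
        rw [hρ, le_div_iff₀ hv', mul_comm]
        exact h6
      rw [mem_iUnion₂]
      refine ⟨⌊c / ρ⌋, ?_, ?_⟩
      · rw [Finset.mem_Icc]
        have hc1 := abs_le.mp hcabs
        constructor
        · apply Int.le_floor.mpr
          push_cast
          rw [le_div_iff₀ hρ0]
          have : 1 ≤ (N : ℝ) * ρ := by
            rw [div_le_iff₀ hρ0] at hN1
            exact hN1
          linarith
        · have h7 : (⌊c / ρ⌋ : ℝ) ≤ c / ρ := Int.floor_le _
          have h8 : c / ρ ≤ 1 / ρ := by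
            apply div_le_div_of_nonneg_right hc1.2 hρ0.le
          have : (⌊c / ρ⌋ : ℝ) ≤ N := by linarith
          exact_mod_cast this
      · rw [mem_closedBall, dist_eq_norm]
        have h7 : (⌊c / ρ⌋ : ℝ) ≤ c / ρ := Int.floor_le _
        have h8 : c / ρ < ⌊c / ρ⌋ + 1 := Int.lt_floor_add_one _
        have e1 : θ - ((⌊c / ρ⌋ : ℝ) * ρ) • e = (θ - c • e) + (c - (⌊c / ρ⌋ : ℝ) * ρ) • e := by
          rw [sub_smul]
          abel
        rw [e1]
        refine (norm_add_le _ _).trans ?_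
        rw [norm_smul, hen, mul_one, Real.norm_eq_abs]
        have h9 : |c - (⌊c / ρ⌋ : ℝ) * ρ| ≤ ρ := by
          rw [le_div_iff₀ hρ0] at h7
          rw [div_lt_iff₀ hρ0] at h8
          rw [abs_le]
          constructor <;> nlinarith
        linarith
    refine (measure_mono hsub).trans ?_
    refine (measure_biUnion_finset_le _ _).trans ?_
    have hball : ∀ j : ℤ, (volume : Measure (V n)) (closedBall (((j : ℝ) * ρ) • e) (2 * ρ)) =
        ENNReal.ofReal ((2 * ρ) ^ n * B.toReal) := by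
      intro j
      rw [Measure.addHaar_closedBall _ _ (by positivity), hfr, ENNReal.ofReal_mul (by positivity),
        ENNReal.ofReal_toReal hBfin]
    simp_rw [hball]
    rw [Finset.sum_const, nsmul_eq_mul, Int.card_Icc, ← ENNReal.ofReal_natCast,
      ← ENNReal.ofReal_mul (by positivity)]
    apply ENNReal.ofReal_le_ofReal
    have h10 : (((N + 1 - -N).toNat : ℕ) : ℝ) = 2 * N + 1 := by
      have : (((N + 1 - -N).toNat : ℤ)) = 2 * N + 1 := by
        rw [Int.toNat_of_nonneg (by omega)]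
        ring
      have h11 : ((((N + 1 - -N).toNat : ℤ)) : ℝ) = ((2 * N + 1 : ℤ) : ℝ) := by rw [this]
      rw [Int.cast_natCast] at h11
      rw [h11]
      push_cast
      ring
    rw [h10]
    have hBn : 0 ≤ B.toReal := ENNReal.toReal_nonneg
    have h12 : (2 * (N : ℝ) + 1) * ρ ≤ 5 := by
      have : (2 * (N : ℝ) + 1) ≤ 2 / ρ + 3 := by
        have e2 : 2 / ρ = 2 * (1 / ρ) := by ring
        rw [e2]; linarith
      calc (2 * (N : ℝ) + 1) * ρ ≤ (2 / ρ + 3) * ρ := mul_le_mul_of_nonneg_right this hρ0.le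
        _ = 2 + 3 * ρ := by field_simp
        _ ≤ 5 := by linarith
    obtain ⟨k, rfl⟩ : ∃ k, n = k + 1 := ⟨n - 1, by omega⟩
    rw [Nat.add_sub_cancel]
    have h13 : 0 ≤ ρ ^ k := by positivity
    calc (2 * (N : ℝ) + 1) * ((2 * ρ) ^ (k + 1) * B.toReal)
        = ((2 * (N : ℝ) + 1) * ρ) * (2 ^ (k + 1) * ρ ^ k * B.toReal) := by
          rw [mul_pow, pow_succ ρ k]; ring
      _ ≤ 5 * (2 ^ (k + 1) * ρ ^ k * B.toReal) := by
          apply mul_le_mul_of_nonneg_right h12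
          positivity
      _ ≤ (5 * 2 ^ (k + 1) * B.toReal + 1) * ρ ^ k := by nlinarith

end Pool.Agent.L0h37.AN.TV
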