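import Pool.Agent.L0h37.AN.Defs
import Pool.Agent.L0h37.AN.GP

/-!
# UB: the configuration is close to a given triple with small probability
-/

set_option autoImplicit false

open MeasureTheory Metric Set Filter Topology
open scoped ENNReal NNReal RealInnerProductSpace

namespace Pool.Agent.L0h37.AN.UB

variable {n : ℕ}

/-- `gam n` of a ball -/
lemma gam_ball (hn : 1 ≤ n) (p : V n) (r : ℝ) (hr : 0 ≤ r) :
    gam n (closedBall p r) ≤ ENNReal.ofReal ((Real.exp (1 / 2) * r) ^ n) := by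
  have hfr : Module.finrank ℝ (V n) = n := finrank_euclideanSpace_fin
  have hn' : (0 : ℝ) < n := by exact_mod_cast hn
  have hc := GP.cn_pos n hn
  set B : ℝ≥0∞ := (volume : Measure (V n)) (ball 0 1) with hB
  have hBfin : B ≠ ⊤ := measure_ball_lt_top.ne
  -- lower bound for the unit ball
  have h1 : ENNReal.ofReal (GP.cn n * Real.exp (-(n : ℝ) / 2)) * B ≤ 1 := by
    have := GP.gam_prob n hn
    calc ENNReal.ofReal (GP.cn n * Real.exp (-(n : ℝ) / 2)) * B
        = ∫⁻ x in ball (0 : V n) 1, ENNReal.ofReal (GP.cn n * Real.exp (-(n : ℝ) / 2)) := by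
          rw [setLIntegral_const]
      _ ≤ ∫⁻ x in ball (0 : V n) 1, ENNReal.ofReal (GP.w n x) := by
          apply setLIntegral_mono' measurableSet_ball
          intro x hx
          apply ENNReal.ofReal_le_ofReal
          unfold GP.w
          apply mul_le_mul_of_nonneg_left _ hc.le
          apply Real.exp_le_exp.mpr
          have hx1 : ‖x‖ < 1 := by simpa using hx
          have : ‖x‖ ^ 2 ≤ 1 := pow_le_one₀ (norm_nonneg _) hx1.le
          nlinarith
      _ = gam n (ball 0 1) := by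
          rw [GP.gam_eq, withDensity_apply _ measurableSet_ball]
      _ ≤ 1 := prob_le_one
  have h2 : gam n (closedBall p r) ≤ ENNReal.ofReal (GP.cn n) * (ENNReal.ofReal (r ^ n) * B) := by
    calc gam n (closedBall p r) = ∫⁻ x in closedBall p r, ENNReal.ofReal (GP.w n x) := by
          rw [GP.gam_eq, withDensity_apply _ measurableSet_closedBall]
      _ ≤ ∫⁻ x in closedBall p r, ENNReal.ofReal (GP.cn n) := by
          apply lintegral_mono
          intro x
          apply ENNReal.ofReal_le_ofReal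
          unfold GP.w
          have : Real.exp (-((n : ℝ) * ‖x‖ ^ 2) / 2) ≤ 1 := by
            rw [Real.exp_le_one_iff]
            have : 0 ≤ (n : ℝ) * ‖x‖ ^ 2 := by positivity
            linarith
          calc GP.cn n * Real.exp (-((n : ℝ) * ‖x‖ ^ 2) / 2) ≤ GP.cn n * 1 :=
                mul_le_mul_of_nonneg_left this hc.le
            _ = GP.cn n := mul_one _
      _ = ENNReal.ofReal (GP.cn n) * (ENNReal.ofReal (r ^ n) * B) := by
          rw [setLIntegral_const, Measure.addHaar_closedBall _ _ hr, hfr]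
  refine h2.trans ?_
  have e1 : ENNReal.ofReal (GP.cn n) * (ENNReal.ofReal (r ^ n) * B) =
      ENNReal.ofReal ((Real.exp (1 / 2) * r) ^ n) *
        (ENNReal.ofReal (GP.cn n * Real.exp (-(n : ℝ) / 2)) * B) := by
    rw [← mul_assoc, ← mul_assoc, ← ENNReal.ofReal_mul hc.le,
      ← ENNReal.ofReal_mul (by positivity)]
    congr 2
    rw [mul_pow, ← Real.exp_nat_mul]
    have : Real.exp ((n : ℝ) * (1 / 2)) * Real.exp (-(n : ℝ) / 2) = 1 := by
      rw [← Real.exp_add, show (n : ℝ) * (1 / 2) + -(n : ℝ) / 2 = 0 by ring, Real.exp_zero]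
    calc GP.cn n * r ^ n = GP.cn n * r ^ n *
          (Real.exp ((n : ℝ) * (1 / 2)) * Real.exp (-(n : ℝ) / 2)) := by rw [this, mul_one]
      _ = _ := by ring
  rw [e1]
  calc _ ≤ ENNReal.ofReal ((Real.exp (1 / 2) * r) ^ n) * 1 := by gcongr
    _ = _ := mul_one _

theorem main : StmtUB := by
  intro b ρ hb0 hb1 hρ0 hρ1
  set b' : ℝ := Real.sqrt (1 - b ^ 2) with hb'
  set ρ' : ℝ := Real.sqrt (1 - ρ ^ 2) with hρ'
  have hb'0 : 0 < b' := Real.sqrt_pos.mpr (by nlinarith)
  have hρ'0 : 0 < ρ' := Real.sqrt_pos.mpr (by nlinarith)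
  have hb'1 : b' ≤ 1 := Real.sqrt_le_one.mpr (by nlinarith)
  have hρ'1 : ρ' ≤ 1 := Real.sqrt_le_one.mpr (by nlinarith)
  set e : ℝ := Real.exp (1 / 2) with he
  have he1 : 1 ≤ e := Real.one_le_exp (by norm_num)
  have hbr : 1 ≤ (b' * ρ')⁻¹ := by
    rw [one_le_inv₀ (by positivity)]
    nlinarith
  refine ⟨2 * e * (b' * ρ')⁻¹, by nlinarith, ?_⟩
  intro n hn h hh x y z
  have := GP.gam_prob n hn
  have hS : MeasurableSet {g : V n × V n × V n | ‖g.1 - x‖ ≤ 2 * h ∧ ‖cY b g - y‖ ≤ 2 * h ∧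
      ‖cZ b ρ g - z‖ ≤ 2 * h} := by
    have m1 : MeasurableSet {g : V n × V n × V n | ‖g.1 - x‖ ≤ 2 * h} :=
      (isClosed_le (by fun_prop) continuous_const).measurableSet
    have m2 : MeasurableSet {g : V n × V n × V n | ‖cY b g - y‖ ≤ 2 * h} :=
      (isClosed_le (by unfold cY; fun_prop) continuous_const).measurableSet
    have m3 : MeasurableSet {g : V n × V n × V n | ‖cZ b ρ g - z‖ ≤ 2 * h} :=
      (isClosed_le (by unfold cZ; fun_prop) continuous_const).measurableSet
    exact m1.inter (m2.inter m3)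
  set R2 : ℝ≥0∞ := ENNReal.ofReal ((e * (2 * h / b')) ^ n) with hR2
  set R3 : ℝ≥0∞ := ENNReal.ofReal ((e * (2 * h / (b' * ρ'))) ^ n) with hR3
  set R1 : ℝ≥0∞ := ENNReal.ofReal ((e * (2 * h)) ^ n) with hR1
  -- innermost
  have k3 : ∀ g1 g2 : V n, gam n {g3 : V n | ‖cZ b ρ (g1, g2, g3) - z‖ ≤ 2 * h} ≤ R3 := by
    intro g1 g2
    refine le_trans (measure_mono ?_) (gam_ball hn
      ((b' * ρ')⁻¹ • (z - b • g1 - (b' * ρ) • g2)) (2 * h / (b' * ρ')) (by positivity))
    intro g3 hg3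
    have hg : ‖cZ b ρ (g1, g2, g3) - z‖ ≤ 2 * h := hg3
    rw [mem_closedBall, dist_eq_norm]
    have e1 : g3 - (b' * ρ')⁻¹ • (z - b • g1 - (b' * ρ) • g2) =
        (b' * ρ')⁻¹ • (cZ b ρ (g1, g2, g3) - z) := by
      have : g3 = (b' * ρ')⁻¹ • ((b' * ρ') • g3) := by
        rw [smul_smul, inv_mul_cancel₀ (by positivity), one_smul]
      conv_lhs => rw [this]
      rw [← smul_sub]
      congr 1
      simp only [cZ, ← hb', ← hρ', smul_add, smul_smul]
      abel
    rw [e1, norm_smul, Real.norm_eq_abs, abs_of_pos (by positivity), inv_mul_eq_div]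
    exact div_le_div_of_nonneg_right hg (by positivity)
  have k2 : ∀ g1 : V n, gam n {g2 : V n | ‖b • g1 + b' • g2 - y‖ ≤ 2 * h} ≤ R2 := by
    intro g1
    refine le_trans (measure_mono ?_) (gam_ball hn
      (b'⁻¹ • (y - b • g1)) (2 * h / b') (by positivity))
    intro g2 hg2
    have hg : ‖b • g1 + b' • g2 - y‖ ≤ 2 * h := hg2
    rw [mem_closedBall, dist_eq_norm]
    have e1 : g2 - b'⁻¹ • (y - b • g1) = b'⁻¹ • (b • g1 + b' • g2 - y) := by
      have : g2 = b'⁻¹ • (b' • g2) := by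
        rw [smul_smul, inv_mul_cancel₀ (by positivity), one_smul]
      conv_lhs => rw [this]
      rw [← smul_sub]
      congr 1
      abel
    rw [e1, norm_smul, Real.norm_eq_abs, abs_of_pos (by positivity), inv_mul_eq_div]
    exact div_le_div_of_nonneg_right hg (by positivity)
  have k1 : gam n {g1 : V n | ‖g1 - x‖ ≤ 2 * h} ≤ R1 := by
    refine le_trans (measure_mono ?_) (gam_ball hn x (2 * h) (by positivity))
    intro g1 hg1
    rw [mem_closedBall, dist_eq_norm]
    exact hg1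
  have l2 : ∀ g1 : V n, ((gam n).prod (gam n)) (Prod.mk g1 ⁻¹' {g : V n × V n × V n |
      ‖g.1 - x‖ ≤ 2 * h ∧ ‖cY b g - y‖ ≤ 2 * h ∧ ‖cZ b ρ g - z‖ ≤ 2 * h}) ≤
      {g1 : V n | ‖g1 - x‖ ≤ 2 * h}.indicator (fun _ => R2 * R3) g1 := by
    intro g1
    by_cases hg1 : ‖g1 - x‖ ≤ 2 * h
    · rw [indicator_of_mem (show g1 ∈ {g1 : V n | ‖g1 - x‖ ≤ 2 * h} from hg1)]
      rw [Measure.prod_apply (measurable_prodMk_left hS)]
      have m2 : MeasurableSet {g2 : V n | ‖b • g1 + b' • g2 - y‖ ≤ 2 * h} :=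
        (isClosed_le (by fun_prop) continuous_const).measurableSet
      have l3 : ∀ g2 : V n, gam n (Prod.mk g2 ⁻¹' (Prod.mk g1 ⁻¹' {g : V n × V n × V n |
          ‖g.1 - x‖ ≤ 2 * h ∧ ‖cY b g - y‖ ≤ 2 * h ∧ ‖cZ b ρ g - z‖ ≤ 2 * h})) ≤
          {g2 : V n | ‖b • g1 + b' • g2 - y‖ ≤ 2 * h}.indicator (fun _ => R3) g2 := by
        intro g2
        by_cases hg2 : ‖b • g1 + b' • g2 - y‖ ≤ 2 * h
        · rw [indicator_of_mem (show g2 ∈ {g2 : V n | ‖b • g1 + b' • g2 - y‖ ≤ 2 * h} from hg2)]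
          refine le_trans (measure_mono ?_) (k3 g1 g2)
          intro g3 hg3
          exact hg3.2.2
        · have : Prod.mk g2 ⁻¹' (Prod.mk g1 ⁻¹' {g : V n × V n × V n |
              ‖g.1 - x‖ ≤ 2 * h ∧ ‖cY b g - y‖ ≤ 2 * h ∧ ‖cZ b ρ g - z‖ ≤ 2 * h}) = ∅ := by
            ext g3
            constructor
            · intro hg3
              exact absurd hg3.2.1 hg2
            · intro hg3
              exact absurd hg3 (notMem_empty _)
          rw [this, measure_empty]
          exact zero_le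
      refine (lintegral_mono l3).trans ?_
      rw [lintegral_indicator_const m2, mul_comm]
      gcongr
      exact k2 g1
    · have : Prod.mk g1 ⁻¹' {g : V n × V n × V n |
          ‖g.1 - x‖ ≤ 2 * h ∧ ‖cY b g - y‖ ≤ 2 * h ∧ ‖cZ b ρ g - z‖ ≤ 2 * h} = ∅ := by
        ext g3
        constructor
        · intro hg3
          exact absurd hg3.1 hg1
        · intro hg3
          exact absurd hg3 (notMem_empty _)
      rw [this, measure_empty]
      exact zero_le
  rw [Measure.prod_apply hS]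
  refine (lintegral_mono l2).trans ?_
  have m1 : MeasurableSet {g1 : V n | ‖g1 - x‖ ≤ 2 * h} :=
    (isClosed_le (by fun_prop) continuous_const).measurableSet
  rw [lintegral_indicator_const m1]
  calc R2 * R3 * gam n {g1 : V n | ‖g1 - x‖ ≤ 2 * h} ≤ R2 * R3 * R1 := by
        gcongr
    _ = ENNReal.ofReal ((e * (2 * h / b')) ^ n * (e * (2 * h / (b' * ρ'))) ^ n *
          (e * (2 * h)) ^ n) := by
        rw [hR1, hR2, hR3, ← ENNReal.ofReal_mul (by positivity),
          ← ENNReal.ofReal_mul (by positivity)]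
    _ ≤ ENNReal.ofReal ((2 * e * (b' * ρ')⁻¹ * h) ^ (3 * n)) := by
        apply ENNReal.ofReal_le_ofReal
        rw [← mul_pow, ← mul_pow, pow_mul]
        apply pow_le_pow_left₀ (by positivity)
        have hbb : 1 ≤ b'⁻¹ := (one_le_inv₀ hb'0).mpr hb'1
        have hrr : 1 ≤ ρ'⁻¹ := (one_le_inv₀ hρ'0).mpr hρ'1
        have e4 : e * (2 * h / b') * (e * (2 * h / (b' * ρ'))) * (e * (2 * h)) =
            (2 * e * h) ^ 3 * (b'⁻¹ * (b' * ρ')⁻¹ * 1) := by
          rw [mul_inv]
          field_simp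
        have e5 : (2 * e * (b' * ρ')⁻¹ * h) ^ 3 =
            (2 * e * h) ^ 3 * ((b' * ρ')⁻¹ * (b' * ρ')⁻¹ * (b' * ρ')⁻¹) := by ring
        rw [e4, e5]
        apply mul_le_mul_of_nonneg_left _ (by positivity)
        have h6 : b'⁻¹ ≤ (b' * ρ')⁻¹ := by
          rw [mul_inv]
          nlinarith [inv_pos.mpr hb'0]
        have h7 : 0 < (b' * ρ')⁻¹ := by positivity
        apply mul_le_mul _ hbr zero_le_one (by positivity)
        exact mul_le_mul_of_nonneg_right h6 h7.le

end Pool.Agent.L0h37.AN.UB
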